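import Pool.Agent.Lib.MP_696deb_nt.SPN.LC

/-! Twists that escape the descent have positive spin. -/

set_option autoImplicit false

open scoped Classical NumberTheorySymbols
open NumberField Ideal

namespace Pool.Agent.B6.S.SPN

open Pool.Agent.Spin

variable {K : Type} [Field K] [NumberField K] [IsPrincipalIdealRing (𝓞 K)] {p q s : ℤ}
  {t : Fin 3 → 𝓞 K} {σ ρ : 𝓞 K ≃+* 𝓞 K} {x y : 𝓞 K} {E : Fin 3 → ℤ} {l M : ℕ} {P : ℤ → Prop}

omit [NumberField K] in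
theorem cop_map (hx : Prime x) (ψ : 𝓞 K →+* ZMod l) (k : ∀ a, ψ a = 0 ↔ x ∣ a)
    (n : ¬ x ∣ t 0 - t 1) (g : 𝓞 K ≃+* 𝓞 K) (hg : g (t 0) = t 1) : IsCoprime x (g x) := by
  refine hx.irreducible.coprime_iff_not_dvd.2 fun e => n ?_
  obtain ⟨r, hr⟩ := ZMod.intCast_surjective (ψ (t 0))
  have a : x ∣ t 0 - r := (k _).1 (by rw [map_sub, map_intCast, hr, sub_self])
  have b := e.trans (map_dvd g a)
  rw [map_sub, hg, map_intCast] at b
  simpa using a.sub b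

omit [NumberField K] [IsPrincipalIdealRing (𝓞 K)] in
theorem cop_nat {n : ℕ} (g : 𝓞 K ≃+* 𝓞 K) (c : IsCoprime x n) : IsCoprime (g x) n :=
  map_natCast g n ▸ c.map (g : 𝓞 K →+* 𝓞 K)

omit [NumberField K] [IsPrincipalIdealRing (𝓞 K)] in
theorem dvd_map {n : ℕ} (g : 𝓞 K ≃+* 𝓞 K) (c : (n : 𝓞 K) ∣ x - y) : (n : 𝓞 K) ∣ g x - g y := by
  simpa only [map_sub, map_natCast] using map_dvd g c

namespace Bx

variable (h : Bx p q s t σ ρ)
include h

omit [IsPrincipalIdealRing (𝓞 K)] in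
theorem un (c : Prop) : ρ (if c then 1 else 1 + s * t 0) = (if c then 1 else 1 + s * t 0) ∧
    (if c then 1 else 1 + s * t 0) * σ (if c then 1 else 1 + s * t 0) *
      σ (σ (if c then 1 else 1 + s * t 0)) = 1 := by
  split_ifs
  · simp
  · simp [h.ρ0, h.σ0, h.σ1, h.eps]

/-- The symbol of the descent is one. -/
theorem sym_one (hl : l.Prime) (hx : absNorm (span {x}) = l) (c : IsCoprime x 2)
    (n : ¬ x ∣ t 0 - t 1) (n' : ¬ x ∣ ev (t 0) E - ev (t 1) E) {d : ℤ} (hd : d = 1 ∨ d = -1)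
    (lk : ∀ (m : Fin 3 → ℤ) (r r' : ℤ), (nm p q m).natAbs = l → Even (m 1) → (l : ℤ) ∣ gv p q r →
      (l : ℤ) ∣ gv p q r' → ¬ (l : ℤ) ∣ r - r' → (l : ℤ) ∣ ev r m →
      J((ev r E - ev r' E) * ev r' m | l) = -1 → P (nm p q m)) (hP : ¬ P (d * l)) :
    jac 2 ((ev (t 0) E - ev (t 1) E) * σ (d * if t 0 ^ 2 ∣ x * ρ x - 1 then 1 else 1 + s * t 0) *
      σ x * ρ.trans σ x) x = 1 := by
  have := Fact.mk hl
  have hp := prime_of_norm hl hx
  obtain ⟨ψ, k⟩ := exists_psi hl hx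
  have f : ρ (x * ρ x) = x * ρ x := by rw [map_mul, h.rr, mul_comm]
  have a := h.norm1 f (c.mul_left (cop_nat (n := 2) ρ c))
  have b := h.un (t 0 ^ 2 ∣ x * ρ x - 1)
  generalize (if t 0 ^ 2 ∣ x * ρ x - 1 then 1 else 1 + s * t 0) = u at a b
  obtain ⟨m, hm⟩ := h.fix0 (x := (d : 𝓞 K) * u * (x * ρ x))
    (by rw [map_mul, f, map_mul, b.1, map_intCast])
  have m1 : σ (d * u * (x * ρ x)) = ev (t 1) m := by rw [hm, map_ev, h.σ0]
  have m2 : σ (σ (d * u * (x * ρ x))) = ev (t 2) m := by rw [m1, map_ev, h.σ1]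
  have e : nm p q m = d * l := Int.cast_injective (α := 𝓞 K) (by
    have := h.norm' x
    rw [← h.prod_ev, ← hm, ← m1, ← m2]
    simp only [map_mul, map_intCast, hx] at this ⊢
    rcases hd with rfl | rfl <;> push_cast
    · linear_combination (l : 𝓞 K) * b.2 + u * σ u * σ (σ u) * this
    · linear_combination -(l : 𝓞 K) * b.2 - u * σ u * σ (σ u) * this)
  choose r hr using fun i => ZMod.intCast_surjective (ψ (t i))
  have z := ZMod.intCast_zmod_eq_zero_iff_dvd (b := l)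
  have v : ∀ i m, ψ (ev (t i) m) = (ev (r i) m : ℤ) := fun i m => by
    rw [map_ev, ← hr]
    exact (map_ev (Int.castRingHom (ZMod l)) _ _).symm
  have g : ∀ i, (l : ℤ) ∣ gv p q (r i) := fun i => (z _).1 (by
    have := congrArg ψ (h.root i)
    simpa [gv, ← hr, map_ofNat] using this)
  have w : (ev (t 0) E - ev (t 1) E) * σ (d * u) * σ x * ρ.trans σ x =
      (ev (t 0) E - ev (t 1) E) * ev (t 1) m := by
    rw [← m1]
    simp only [map_mul, RingEquiv.trans_apply]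
    ring
  have j := jac_psi (M := 2) hp (fun e => hp.not_isUnit (c.isUnit_of_dvd' dvd_rfl e)) ψ k
    (a := (ev (t 0) E - ev (t 1) E) * ev (t 1) m) (k := (ev (r 0) E - ev (r 1) E) * ev (r 1) m)
    (by rw [map_mul, map_sub, v, v, v, Int.cast_mul, Int.cast_sub])
  have du : IsUnit (σ (d * u)) := by
    refine (IsUnit.mul ?_ (.of_mul_eq_one _ ((mul_assoc _ _ _).symm.trans b.2))).map σ
    rcases hd with rfl | rfl <;> simp
  refine ((jac_tri _ _).resolve_left (jac_ne_zero ?_)).resolve_right fun a' => hP (e ▸ lk m (r 0) (r 1)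
    (by rcases hd with rfl | rfl <;> simp [e]) (h.even1 ?_) (g 0) (g 1) (fun e => n ((k _).1 ?_))
    ((z _).1 ?_) (by rw [← j, ← w, a']))
  · exact ((((hp.irreducible.coprime_iff_not_dvd.2 n').mul_right
      ((isCoprime_mul_unit_left_right du _ 1).2 isCoprime_one_right |> (mul_one (σ _) ▸ ·))).mul_right
      (cop_map hp ψ k n σ h.σ0)).mul_right (cop_map hp ψ k n _ h.r0)).symm
  · rw [← hm]
    rcases hd with rfl | rfl
    · simpa using a
    · exact (a.add (h.sq_dvd 0)).neg_right.trans (dvd_of_eq (by push_cast; ring))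
  · rw [map_sub, ← hr, ← hr, ← Int.cast_sub, z]
    exact e
  · rw [← v, ← hm, k]
    exact (dvd_mul_right _ _).mul_left _

variable [IsTotallyComplex K]

/-- Outside the descent the spin is given by a periodic function. -/
theorem kap (lk : Link p q E P) (M0 : M ≠ 0) (h8 : 8 * (t 0 - t 1) ∣ (M : 𝓞 K)) (h2 : 2 ∣ M)
    (h4 : 4 * (ev (t 0) E - ev (t 1) E) ∣ (M : 𝓞 K)) (sg : ℕ → ℤ) (g1 : ∀ n, sg n = 1 ∨ sg n = -1)
    (g4 : ∀ a b, a % 4 = b % 4 → sg a = sg b) :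
    ∃ κ : 𝓞 K → ℝ, (∀ x, |κ x| ≤ 1) ∧ (∀ x y, (M : 𝓞 K) ∣ x - y → κ x = κ y) ∧
      (∀ x, κ x ≠ 0 → IsCoprime x (M : 𝓞 K)) ∧ ∃ N : ℕ, ∀ l : ℕ, l.Prime → N < l →
        ¬ P (sg l * l) → (∃ x : 𝓞 K, absNorm (span {x}) = l) ∧
          ∀ x : 𝓞 K, absNorm (span {x}) = l → κ x * jac M x (σ x) = 1 := by
  obtain ⟨e, e1, e2, e3⟩ := exists_recip (K := K) (M := 2) dvd_rfl
  obtain ⟨η, hη, k⟩ := h.exists_eta
  obtain ⟨u, hu⟩ : ∃ u : 𝓞 K → 𝓞 K, ∀ x, u x = sg (absNorm (span {x})) *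
    if t 0 ^ 2 ∣ x * ρ x - 1 then 1 else 1 + s * t 0 := ⟨_, fun _ => rfl⟩
  obtain ⟨v, hv⟩ : ∃ v : 𝓞 K → 𝓞 K, ∀ x, v x = if t 2 ∣ x + ρ.trans σ x then η else 1 :=
    ⟨_, fun _ => rfl⟩
  obtain ⟨b, hb⟩ : ∃ b : 𝓞 K → 𝓞 K, ∀ x, b x = v x * x + ρ.trans σ (v x * x) := ⟨_, fun _ => rfl⟩
  have u1 : ∀ x, IsUnit (u x) := fun x => by
    rw [hu]
    refine IsUnit.mul ?_ (.of_mul_eq_one _ ((mul_assoc _ _ _).symm.trans (h.un _).2))
    rcases g1 (absNorm (span {x})) with a | a <;> rw [a] <;> simp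
  have v1 : ∀ x, IsUnit (v x) := fun x => by
    rw [hv]
    split_ifs
    exacts [hη, isUnit_one]
  have b1 : ∀ x, IsCoprime x 2 → IsCoprime (b x) 2 := fun x c => by
    refine h.cop2 (by rw [hb, map_add, h.rr', add_comm]) ?_
    rw [hb, hv]
    split_ifs with a
    exacts [k x c a, by rwa [one_mul]]
  have M' : (M : 𝓞 K) ≠ 0 := Nat.cast_ne_zero.2 M0
  have d4 : (4 : 𝓞 K) ∣ M := (dvd_mul_right _ _).trans h4
  have d2 : (2 : 𝓞 K) ∣ M := Dvd.dvd.trans ⟨2, by norm_num⟩ d4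
  refine ⟨fun x => if IsCoprime x (M : 𝓞 K) then
    (jac 2 ((ev (t 0) E - ev (t 1) E) * (σ (u x) * ρ.trans σ (v x))) x * e (σ x) x *
      (e (b x) (v x * x) * jac 2 (2 * (t 0 - t 1)) (b x)) : ℤ) else 0, fun x => ?_,
    fun x y c => ?_, fun x c => by_contra fun a => c (if_neg a), ?_⟩
  · beta_reduce
    split_ifs
    · have a : ∀ a b, |e a b| ≤ 1 := fun a b => by rcases e1 a b with c | c <;> simp [c]
      rw [← Int.cast_abs, abs_mul, abs_mul, abs_mul]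
      exact_mod_cast mul_le_one₀ (mul_le_one₀ (jac_abs _ _) (abs_nonneg _) (a _ _)) (by positivity)
        (mul_le_one₀ (a _ _) (abs_nonneg _) (jac_abs _ _))
    · simp
  · have a : ∀ {x y : 𝓞 K}, (M : 𝓞 K) ∣ x - y → IsCoprime y M → IsCoprime x (M : 𝓞 K) :=
      fun {x y} ⟨w, hw⟩ c => by
        rw [sub_eq_iff_eq_add'.1 hw]
        exact c.add_mul_left_left w
    beta_reduce
    by_cases cy : IsCoprime y (M : 𝓞 K)
    swap
    · rw [if_neg cy, if_neg fun cx => cy (a (dvd_sub_comm.1 c) cx)]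
    have uu : u x = u y := by
      rw [hu, hu, g4 _ _ (h.norm_mod (d4.trans c)), if_congr (dvd_iff_dvd_of_dvd_sub
        (b := y * ρ y - 1) (c := x * ρ x - 1) (by simpa using dvd_sub_comm.1 (((h.sq_dvd 0).trans
          d2).trans (dvd_mul_sub_mul c (dvd_map ρ c))))) rfl rfl]
    have vv : v x = v y := by
      rw [hv, hv, if_congr (dvd_iff_dvd_of_dvd_sub (b := x + ρ.trans σ x) (c := y + ρ.trans σ y)
        ((((h.dvd_two 2).trans d2).trans (c.add (dvd_map (ρ.trans σ) c))).trans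
          (dvd_of_eq (by ring)))) rfl rfl]
    have c1 : (M : 𝓞 K) ∣ v y * x - v y * y := mul_sub (v y) x y ▸ c.mul_left _
    have c2 : (M : 𝓞 K) ∣ b x - b y := by
      rw [hb, hb, vv]
      exact (c1.add (dvd_map (ρ.trans σ) c1)).trans (dvd_of_eq (by ring))
    have cx := a c cy
    have un := ((u1 y).map σ).mul ((v1 y).map (ρ.trans σ))
    rw [if_pos cy, if_pos cx, uu, vv, e2 _ _ _ _ (d4.trans (dvd_map σ c)) (d4.trans c),
      e2 _ _ _ _ (d4.trans c2) (d4.trans c1),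
      jac_per dvd_rfl (mul_ne_zero (right_ne_zero_of_mul (ne_zero_of_dvd_ne_zero M' h4)) un.ne_zero)
        (cop_two h2 cx) (cop_two h2 cy) (by
          rw [← mul_assoc, un.mul_right_dvd]
          exact h4.trans c),
      jac_per dvd_rfl (mul_ne_zero two_ne_zero (right_ne_zero_of_mul (ne_zero_of_dvd_ne_zero M' h8)))
        (b1 x (cop_two h2 cx)) (b1 y (cop_two h2 cy))
        ((dvd_of_eq (by ring)).trans (h8.trans c2))]
  obtain ⟨N, lk⟩ := lk
  refine ⟨max N M, fun l hl hN hP => ?_⟩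
  obtain ⟨l0, l1⟩ := lk l hl ((le_max_left _ _).trans_lt hN)
  have lM : ¬ l ∣ M := fun a =>
    (((le_max_right _ _).trans_lt hN).trans_le (Nat.le_of_dvd M0.bot_lt a)).false
  refine ⟨?_, fun x hx => ?_⟩
  · have := mt (l0 _ (by rcases g1 l with a | a <;> simp [a])) hP
    push Not at this
    obtain ⟨r, r', a1, a2, a3⟩ := this
    exact h.spl hl lM h8 a1 a2 a3
  have hp := prime_of_norm hl hx
  obtain ⟨ψ, hψ⟩ := exists_psi hl hx
  have xM : ¬ x ∣ M := fun a => lM (Int.natCast_dvd_natCast.1 (int_dvd hl hp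
    (mem_span_singleton.1 (hx ▸ absNorm_mem _)) (by simpa using a)))
  have cx := hp.irreducible.coprime_iff_not_dvd.2 xM
  have c2 := cop_two h2 cx
  have n : ¬ x ∣ t 0 - t 1 := fun a => xM ((a.mul_left _).trans h8)
  have a1 := h.sym_one hl hx c2 n (fun a => xM ((a.mul_left _).trans h4)) (g1 l) l1 hP
  have a2 := h.inv_sym e3 (y := v x * x) (by
    rw [map_mul, isCoprime_mul_unit_left_left (v1 x),
      isCoprime_mul_unit_left_right ((v1 x).map (ρ.trans σ))]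
    exact cop_map hp ψ hψ n _ h.r0) ((isCoprime_mul_unit_left_left (v1 x) _ _).2 c2)
    (hb x ▸ b1 x c2)
  have a3 := e3 _ _ (cop_nat σ c2) c2
  have a4 := jac_sq (M := 2) (a := ρ.trans σ (v x)) (b := x) (by
    rw [← mul_one (ρ.trans σ (v x)), isCoprime_mul_unit_left_left ((v1 x).map (ρ.trans σ))]
    exact isCoprime_one_left)
  rw [← hx, ← hu, jac_mul_left, jac_mul_left, a3] at a1
  rw [← hb, jac_assoc _ (associated_unit_mul_left _ _ (v1 x)), map_mul, jac_mul_left] at a2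
  beta_reduce
  rw [if_pos cx, jac_chg h2 _ (cop_nat σ cx), ← mul_assoc (_ - _), jac_mul_left, ← a2,
    ← Int.cast_mul, ← Int.cast_one, Int.cast_inj, ← a1]
  linear_combination (jac 2 ((ev (t 0) E - ev (t 1) E) * σ (u x)) x * (e (σ x) x * jac 2 x (σ x)) *
    jac 2 (ρ.trans σ x) x) * a4

/-- The same with one condition on the modulus. -/
theorem kap' (lk : Link p q E P) (M0 : M ≠ 0)
    (hM : 8 * dg p q * nm p q ![E 1 - 2 * p * E 2, -E 2, 0] ∣ (M : ℤ)) (sg : ℕ → ℤ)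
    (g1 : ∀ n, sg n = 1 ∨ sg n = -1) (g4 : ∀ a b, a % 4 = b % 4 → sg a = sg b) :
    ∃ κ : 𝓞 K → ℝ, (∀ x, |κ x| ≤ 1) ∧ (∀ x y, (M : 𝓞 K) ∣ x - y → κ x = κ y) ∧
      (∀ x, κ x ≠ 0 → IsCoprime x (M : 𝓞 K)) ∧ ∃ N : ℕ, ∀ l : ℕ, l.Prime → N < l →
        ¬ P (sg l * l) → (∃ x : 𝓞 K, absNorm (span {x}) = l) ∧
          ∀ x : 𝓞 K, absNorm (span {x}) = l → κ x * jac M x (σ x) = 1 := by
  have a : t 0 - t 1 ∣ (dg p q : ℤ) := ⟨(t 0 - t 1) * ((t 0 - t 2) * (t 1 - t 2)) ^ 2, by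
    have e : ∀ a b c : 𝓞 K, (a - b) * ((a - b) * ((a - c) * (b - c)) ^ 2) =
        (a + b + c) ^ 2 * (a * b + a * c + b * c) ^ 2 - 4 * (a * b + a * c + b * c) ^ 3 -
        4 * (a + b + c) ^ 3 * (a * b * c) - 27 * (a * b * c) ^ 2 +
        18 * (a + b + c) * (a * b + a * c + b * c) * (a * b * c) := fun a b c => by ring
    rw [e, h.s1, h.s2, h.s3, dg]
    push_cast
    ring⟩
  have b : ((8 * dg p q * nm p q ![E 1 - 2 * p * E 2, -E 2, 0] : ℤ) : 𝓞 K) ∣ M := by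
    simpa using map_dvd (Int.castRingHom (𝓞 K)) hM
  rw [Int.cast_mul, Int.cast_mul, Int.cast_ofNat, ← h.prod_ev] at b
  refine h.kap lk M0 (((mul_dvd_mul_left 8 a).mul_right _).trans b) (Int.natCast_dvd_natCast.1
    (Dvd.dvd.trans ((Dvd.dvd.mul_right ⟨4, rfl⟩ _).mul_right _) hM)) (Dvd.dvd.trans ?_ b) sg g1 g4
  rw [show 4 * (ev (t 0) E - ev (t 1) E) =
    4 * (t 0 - t 1) * ev (t 2) ![E 1 - 2 * p * E 2, -E 2, 0] by
      simp only [Cv.ev3, Matrix.cons_val]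
      push_cast
      linear_combination 4 * (t 0 - t 1) * E 2 * h.s1]
  exact mul_dvd_mul (mul_dvd_mul ⟨2, by norm_num⟩ a) (dvd_mul_left _ _)

end Bx

end Pool.Agent.B6.S.SPN
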