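import Pool.Agent.Lib.MP_696deb_nt.SPN.FE
import Pool.Agent.Lib.MP_696deb_nt.SPN.LD
import Pool.Agent.Lib.MP_696deb_nt.Spin.PD
import Pool.Agent.Lib.MP_696deb_nt.Spin.FI

/-! The density of the good primes. -/

set_option autoImplicit false

open scoped Classical
open NumberField Finset Filter

namespace Pool.Agent.B6.S.SPN

open Pool.Agent.Spin

theorem bx_of {L : Type} [Field L] [NumberField L] {p q s : ℤ} {t : Fin 3 → 𝓞 L}
    {σ ρ : 𝓞 L ≃+* 𝓞 L} (h : Sx L p q t σ ρ) (h1 : Odd s) (h2 : s ^ 2 + p = q * s)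
    (h3 : 4 * p ^ 2 - 6 * q ∣ 8) : Bx p q s t σ ρ :=
  ⟨h.s1, h.s2, h.s3, h.st0, h.st1, h.rt0, h.sss, h.rr, h.rs, fun _ => h.fix, fun x => by
    rw [← h.norm, h.rss, h.rs]; ring, h1, h2, h3⟩

theorem dens {p q s : ℤ} {E : Fin 3 → ℤ} {P : ℤ → Prop} (ok : (p = -1 ∧ q = 0) ∨ (p = 1 ∧ q = 2))
    (h1 : Odd s) (h2 : s ^ 2 + p = q * s) (h3 : 4 * p ^ 2 - 6 * q ∣ 8) (lk : Link p q E P) {M : ℕ}
    (M0 : M ≠ 0) (hM : 8 * dg p q * nm p q ![E 1 - 2 * p * E 2, -E 2, 0] ∣ (M : ℤ)) (sg : ℕ → ℤ)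
    (g1 : ∀ n, sg n = 1 ∨ sg n = -1) (g4 : ∀ a b, a % 4 = b % 4 → sg a = sg b) {ε : ℝ}
    (hε : 0 < ε) : ∀ᶠ X : ℕ in atTop, (11 / 12 - ε) * Nat.primeCounting X ≤
      (((range (X + 1)).filter fun l : ℕ => l.Prime ∧ P (sg l * l)).card : ℝ) := by
  obtain ⟨L, _, _, t, σ, ρ, h⟩ := exists_Sx ok
  have := h.pid
  have := h.tc
  obtain ⟨κ, k1, k2, k3, N, k4⟩ := (bx_of h h1 h2 h3).kap' lk M0 hM sg g1 g4
  have a : 8 * dg p q ∣ (M : ℤ) := (dvd_mul_right _ _).trans hM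
  let D := h.dat M M0 (by exact_mod_cast (dvd_mul_right _ _).trans a)
    ((mul_dvd_mul_right (by norm_num) _).trans a)
  obtain ⟨B, hB⟩ : ∃ B : ℕ → Prop, ∀ l, B l ↔ ¬ P (sg l * l) := ⟨_, fun _ => Iff.rfl⟩
  have b := count_of_theta B (c := 1 / 12) (by norm_num) (fun δ hδ => by
    filter_upwards [D.bad_le (κ := κ) ⟨k1, k2, k3⟩ (half_pos hδ),
      tendsto_natCast_atTop_atTop.eventually_ge_atTop
        ((∑ l ∈ range (N + 1), Real.log l) / (δ / 2))] with X a1 a2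
    rw [div_le_iff₀ (half_pos hδ)] at a2
    have n0 : ∀ l : ℕ, 0 ≤ Real.log l := Real.log_natCast_nonneg
    refine le_trans (sum_le_sum_of_subset_of_nonneg (t := ((range (X + 1)).filter
      fun l => l.Prime ∧ D.Bad κ l) ∪ range (N + 1)) (fun l hl => ?_) fun l _ _ => n0 l) ?_
    · obtain ⟨b1, b2, b3⟩ := mem_filter.1 hl
      by_cases e : N < l
      · exact mem_union_left _ (mem_filter.2 ⟨b1, b2, k4 l b2 e ((hB l).1 b3)⟩)
      · exact mem_union_right _ (mem_range.2 (by omega))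
    · rw [← union_sdiff_self_eq_union, sum_union disjoint_sdiff]
      have := sum_le_sum_of_subset_of_nonneg (f := fun l : ℕ => Real.log l) (sdiff_subset
        (s := range (N + 1)) (t := (range (X + 1)).filter fun l => l.Prime ∧ D.Bad κ l))
        fun l _ _ => n0 l
      linarith) hε
  simp only [hB, not_not] at b
  convert b using 4
  norm_num

theorem dens11 (sg : ℕ → ℤ) (g1 : ∀ n, sg n = 1 ∨ sg n = -1)
    (g4 : ∀ a b, a % 4 = b % 4 → sg a = sg b) {ε : ℝ} (hε : 0 < ε) :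
    ∀ᶠ X : ℕ in atTop, (11 / 12 - ε) * Nat.primeCounting X ≤
      (((range (X + 1)).filter fun l : ℕ => l.Prime ∧ Fine 11 496 20008 (sg l * l)).card : ℝ) :=
  dens (s := -1) (M := 340736) (.inl ⟨rfl, rfl⟩) (by decide) (by decide) (by decide) top11
    (by norm_num) (by decide) sg g1 g4 hε

theorem dens19 (sg : ℕ → ℤ) (g1 : ∀ n, sg n = 1 ∨ sg n = -1)
    (g4 : ∀ a b, a % 4 = b % 4 → sg a = sg b) {ε : ℝ} (hε : 0 < ε) :
    ∀ᶠ X : ℕ in atTop, (11 / 12 - ε) * Nat.primeCounting X ≤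
      (((range (X + 1)).filter fun l : ℕ => l.Prime ∧ Fine 19 448 10088 (sg l * l)).card : ℝ) :=
  dens (s := 1) (M := 92416) (.inr ⟨rfl, rfl⟩) (by decide) (by decide) (by decide) top19
    (by norm_num) (by decide) sg g1 g4 hε

end Pool.Agent.B6.S.SPN
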