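import Pool.Agent.Lib.MP_696deb_nt.SPN.LA

/-! The splitting field of a cubic of negative discriminant. -/

set_option autoImplicit false

open scoped Classical
open NumberField Module Finset Matrix

namespace Pool.Agent.Spin

open Pool.Agent.B6.S.SPN (dg Cf)

/-- A sextic field with the three roots of `t ^ 3 + 2 p t ^ 2 + 2 q t + 2`, a rotation `s` and a
reflection `r` of the roots. -/
structure Sx (L : Type) [Field L] [NumberField L] (p q : ℤ) (t : Fin 3 → 𝓞 L)
    (s r : 𝓞 L ≃+* 𝓞 L) : Prop where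
  ok : (p = -1 ∧ q = 0) ∨ (p = 1 ∧ q = 2)
  h6 : finrank ℚ L = 6
  s1 : t 0 + t 1 + t 2 = -2 * p
  s2 : t 0 * t 1 + t 0 * t 2 + t 1 * t 2 = 2 * q
  s3 : t 0 * t 1 * t 2 = -2
  st0 : s (t 0) = t 1
  st1 : s (t 1) = t 2
  st2 : s (t 2) = t 0
  rt0 : r (t 0) = t 0
  rt1 : r (t 1) = t 2
  rt2 : r (t 2) = t 1

/-- The square root of the discriminant. -/
def dl {R : Type} [CommRing R] (t : Fin 3 → R) : R := (t 0 - t 1) * (t 0 - t 2) * (t 1 - t 2)

/-- The family `t ^ i`, `t ^ i * θ`. -/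
def fam {R : Type} [CommRing R] (t θ : R) : Fin 3 ⊕ Fin 3 → R :=
  Sum.elim (fun i => t ^ (i : ℕ)) fun i => t ^ (i : ℕ) * θ

/-- The six products of `s` and `r`. -/
def six {R : Type} [CommRing R] (s r : R ≃+* R) : Fin 3 ⊕ Fin 3 → R ≃+* R :=
  Sum.elim ![RingEquiv.refl R, s, s.trans s] ![r, r.trans s, (r.trans s).trans s]

theorem dl_sq {R : Type} [CommRing R] {t : Fin 3 → R} {p q : ℤ} (s1 : t 0 + t 1 + t 2 = -2 * p)
    (s2 : t 0 * t 1 + t 0 * t 2 + t 1 * t 2 = 2 * q) (s3 : t 0 * t 1 * t 2 = -2) :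
    dl t ^ 2 = (dg p q : ℤ) := by
  have e : dl t ^ 2 = (t 0 + t 1 + t 2) ^ 2 * (t 0 * t 1 + t 0 * t 2 + t 1 * t 2) ^ 2 -
      4 * (t 0 * t 1 + t 0 * t 2 + t 1 * t 2) ^ 3 - 4 * (t 0 + t 1 + t 2) ^ 3 * (t 0 * t 1 * t 2) -
      27 * (t 0 * t 1 * t 2) ^ 2 +
      18 * (t 0 + t 1 + t 2) * (t 0 * t 1 + t 0 * t 2 + t 1 * t 2) * (t 0 * t 1 * t 2) := by
    rw [dl]; ring
  rw [e, s1, s2, s3, dg]
  push_cast
  ring

/-- The index of a family of integers. -/
theorem fa_idx {K : Type} [Field K] [NumberField K] {ι : Type} [Fintype ι] [DecidableEq ι]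
    (hc : Fintype.card ι = finrank ℚ K) (v : ι → 𝓞 K) :
    ∃ n : ℤ, ((n ^ 2 * discr K : ℤ) : ℚ) = Algebra.discr ℚ (fun i => (v i : K)) ∧
      ∀ x : 𝓞 K, ∃ c : ι → ℤ, n * x = ∑ j, c j * v j := by
  have r : finrank ℤ (𝓞 K) = Fintype.card ι := by rw [RingOfIntegers.rank, hc]
  let B : Basis ι ℤ (𝓞 K) :=
    (Module.finBasisOfFinrankEq ℤ (𝓞 K) r).reindex (Fintype.equivFin ι).symm
  let P := B.toMatrix v
  have h1 : ∀ j, v j = ∑ i, P i j • B i := fun j => (B.sum_toMatrix_smul_self v j).symm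
  refine ⟨P.det, ?_, fun x => ⟨fun j => ∑ k, P.adjugate j k * B.repr x k, ?_⟩⟩
  · rw [← discr_eq_discr K B, ← Algebra.discr_of_matrix_vecMul, B.toMatrix_map_vecMul,
      Algebra.discr_def, Algebra.discr_def, Int.cast_det]
    congr 1
    ext i j
    simp [Algebra.traceForm_apply, Algebra.coe_trace_int]
  · have h3 : ∀ k, (P.det : 𝓞 K) * B k = ∑ j, P.adjugate j k * v j := fun k => by
      simp only [h1, mul_sum, zsmul_eq_mul, ← mul_assoc, ← Int.cast_mul]
      rw [sum_comm]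
      simp only [← sum_mul, ← Int.cast_sum, mul_comm (P.adjugate _ _), ← Matrix.mul_apply,
        Matrix.mul_adjugate]
      simp [Matrix.one_apply]
    conv_lhs => rw [← B.sum_repr x]
    simp only [mul_sum, zsmul_eq_mul, Int.cast_sum, Int.cast_mul, sum_mul]
    rw [sum_comm]
    refine sum_congr rfl fun k _ => ?_
    rw [mul_left_comm, h3, mul_sum]
    exact sum_congr rfl fun j _ => by ring

variable {L : Type} [Field L] [NumberField L] {p q : ℤ} {t : Fin 3 → 𝓞 L} {s r : 𝓞 L ≃+* 𝓞 L}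

/-- The extension of an automorphism to the field. -/
noncomputable def up (g : 𝓞 L ≃+* 𝓞 L) : L ≃+* L := IsFractionRing.ringEquivOfRingEquiv g

theorem up_coe (g : 𝓞 L ≃+* 𝓞 L) (x : 𝓞 L) : up g x = g x :=
  IsFractionRing.ringEquivOfRingEquiv_algebraMap g x

namespace Sx

theorem root (h : Sx L p q t s r) (i : Fin 3) :
    t i ^ 3 + 2 * p * t i ^ 2 + 2 * q * t i + 2 = 0 := by
  fin_cases i
  · simp only [Fin.zero_eta]
    linear_combination t 0 ^ 2 * h.s1 - t 0 * h.s2 + h.s3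
  · simp only [Fin.mk_one]
    linear_combination t 1 ^ 2 * h.s1 - t 1 * h.s2 + h.s3
  · simp only [Fin.reduceFinMk]
    linear_combination t 2 ^ 2 * h.s1 - t 2 * h.s2 + h.s3

theorem disc (h : Sx L p q t s r) : dl t ^ 2 = (dg p q : ℤ) := dl_sq h.s1 h.s2 h.s3

theorem dgv (h : Sx L p q t s r) : dg p q = -44 ∨ dg p q = -76 := by
  rcases h.ok with ⟨rfl, rfl⟩ | ⟨rfl, rfl⟩ <;> simp [dg]

theorem dneg (h : Sx L p q t s r) : dg p q < 0 := by
  have := h.dgv
  omega

theorem dl0 (h : Sx L p q t s r) : dl t ≠ 0 := fun e => by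
  have := h.disc
  rw [e, zero_pow two_ne_zero, eq_comm, Int.cast_eq_zero] at this
  exact h.dneg.ne this

theorem ne (h : Sx L p q t s r) : t 0 ≠ t 1 ∧ t 0 ≠ t 2 ∧ t 1 ≠ t 2 := by
  have := h.dl0
  simp only [dl, ne_eq, mul_eq_zero, not_or, sub_eq_zero] at this
  exact ⟨this.1.1, this.1.2, this.2⟩

theorem sdl (h : Sx L p q t s r) : s (dl t) = dl t := by
  simp only [dl, map_mul, map_sub, h.st0, h.st1, h.st2]
  ring

theorem rdl (h : Sx L p q t s r) : r (dl t) = -dl t := by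
  simp only [dl, map_mul, map_sub, h.rt0, h.rt1, h.rt2]
  ring

theorem tc (h : Sx L p q t s r) : IsTotallyComplex L := ⟨fun w => by
  rw [← InfinitePlace.not_isReal_iff_isComplex, InfinitePlace.isReal_iff]
  intro k
  have h1 := congrArg (k.embedding.comp (algebraMap (𝓞 L) L)) h.disc
  rw [map_pow, map_intCast] at h1
  have h2 : (dg p q : ℝ) < 0 := by exact_mod_cast h.dneg
  nlinarith [sq_nonneg ((k.embedding.comp (algebraMap (𝓞 L) L)) (dl t))]⟩

/-- The six complex embeddings. -/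
noncomputable def emb (φ : L →+* ℂ) (s r : 𝓞 L ≃+* 𝓞 L) (i : Fin 3 ⊕ Fin 3) : L →ₐ[ℚ] ℂ :=
  (φ.comp (up (six s r i)).toRingHom).toRatAlgHom

theorem emb_coe (φ : L →+* ℂ) (i : Fin 3 ⊕ Fin 3) (x : 𝓞 L) :
    emb φ s r i x = φ (six s r i x : 𝓞 L) := by
  simp [emb, up_coe]

theorem emb_bij (h : Sx L p q t s r) (φ : L →+* ℂ) : Function.Bijective (emb φ s r) := by
  rw [Fintype.bijective_iff_injective_and_card, AlgHom.card, h.h6]
  refine ⟨fun i j e => ?_, by simp⟩
  have e0 : ∀ x, six s r i x = six s r j x := fun x => by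
    have := DFunLike.congr_fun e (x : L)
    rw [emb_coe, emb_coe] at this
    exact RingOfIntegers.coe_injective (φ.injective this)
  have a0 := e0 (t 0)
  have a1 := e0 (t 1)
  obtain ⟨n1, n2, n3⟩ := h.ne
  rcases i with i | i <;> rcases j with j | j <;> fin_cases i <;> fin_cases j <;>
    simp [six, h.st0, h.st1, h.st2, h.rt0, h.rt1, n1, n2, n3, n1.symm, n2.symm,
      n3.symm] at a0 a1 ⊢

theorem discr_fam (h : Sx L p q t s r) (θ : 𝓞 L) {n : ℤ}
    (k : ((r θ - θ) * s (r θ - θ) * s (s (r θ - θ))) ^ 2 = n) :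
    Algebra.discr ℚ (fun i => ((fam (t 0) θ i : 𝓞 L) : L)) = (n * dg p q ^ 2 : ℤ) := by
  obtain ⟨φ⟩ : Nonempty (L →+* ℂ) := inferInstance
  let ψ : 𝓞 L →+* ℂ := φ.comp (algebraMap _ _)
  have h1 := Algebra.discr_eq_det_embeddingsMatrixReindex_pow_two ℚ ℂ
    (fun i => ((fam (t 0) θ i : 𝓞 L) : L)) (Equiv.ofBijective _ (h.emb_bij φ))
  let W : Matrix (Fin 3) (Fin 3) (𝓞 L) := Matrix.of fun i j => t j ^ (i : ℕ)
  have h2 : Algebra.embeddingsMatrixReindex ℚ ℂ (fun i => ((fam (t 0) θ i : 𝓞 L) : L))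
      (Equiv.ofBijective _ (h.emb_bij φ)) = ψ.mapMatrix (fromBlocks W 0 0 W *
        fromBlocks 1 1 (diagonal ![θ, s θ, s (s θ)]) (diagonal ![r θ, s (r θ), s (s (r θ))])) := by
    ext i j
    rw [fromBlocks_multiply]
    simp only [Algebra.embeddingsMatrixReindex, reindex_apply, submatrix_apply, Equiv.symm_symm,
      Equiv.ofBijective_apply, Algebra.embeddingsMatrix_apply, Equiv.refl_symm, Equiv.refl_apply,
      emb_coe, RingHom.mapMatrix_apply, map_apply, ψ, RingHom.comp_apply]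
    congr 2
    rcases i with i | i <;> rcases j with j | j <;> fin_cases j <;>
      simp [six, fam, W, h.st0, h.st1, h.rt0]
  have h3 : W.det ^ 2 = (dg p q : ℤ) := by
    rw [← h.disc, det_fin_three, dl]
    simp [W]
    ring
  rw [h2, ← RingHom.map_det, ← map_pow, det_mul, det_fromBlocks_zero₂₁, det_fromBlocks_one₁₁,
    mul_one, diagonal_sub, det_diagonal, Fin.prod_univ_three, ← sq, h3] at h1
  simp only [map_sub] at k
  simp only [Matrix.cons_val_zero, Matrix.cons_val_one, Matrix.cons_val] at h1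
  rw [mul_pow, k, ← Int.cast_pow, ← Int.cast_mul, map_intCast, mul_comm, eq_ratCast] at h1
  exact_mod_cast h1

theorem discr_dl (h : Sx L p q t s r) :
    Algebra.discr ℚ (fun i => ((fam (t 0) (dl t) i : 𝓞 L) : L)) =
      (64 * dg p q ^ 3 * dg p q ^ 2 : ℤ) := by
  refine h.discr_fam _ ?_
  simp only [map_sub, map_neg, h.rdl, h.sdl]
  push_cast
  rw [← h.disc]
  ring

theorem coord (h : Sx L p q t s r) : ∃ n : ℤ, n ≠ 0 ∧ n ^ 2 ∣ 64 * dg p q ^ 5 ∧ ∀ x : 𝓞 L,
    ∃ a b : Fin 3 → ℤ, n * x = a 0 + a 1 * t 0 + a 2 * t 0 ^ 2 +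
      (b 0 + b 1 * t 0 + b 2 * t 0 ^ 2) * dl t := by
  obtain ⟨n, h1, h2⟩ := fa_idx (by simp [h.h6]) (fam (t 0) (dl t))
  rw [h.discr_dl, Int.cast_inj] at h1
  refine ⟨n, fun e => ?_, ⟨discr L, by linear_combination -h1⟩, fun x => ?_⟩
  · have := h.dneg.ne
    simp [e, this] at h1
  · obtain ⟨c, hc⟩ := h2 x
    refine ⟨fun i => c (.inl i), fun i => c (.inr i), ?_⟩
    rw [hc]
    simp [fam, Fin.sum_univ_three]
    ring

theorem ext (h : Sx L p q t s r) {R : Type} [CommRing R] [IsDomain R] [CharZero R]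
    {f g : 𝓞 L →+* R} (h0 : f (t 0) = g (t 0)) (h1 : f (dl t) = g (dl t)) (x : 𝓞 L) :
    f x = g x := by
  obtain ⟨n, n0, -, k⟩ := h.coord
  obtain ⟨a, b, e⟩ := k x
  have e1 := congrArg f e
  have e2 := congrArg g e
  simp only [map_add, map_mul, map_pow, map_intCast] at e1 e2
  refine mul_left_cancel₀ (Int.cast_ne_zero.2 n0) ?_
  rw [e1, e2, h0, h1]

theorem sss (h : Sx L p q t s r) (x : 𝓞 L) : s (s (s x)) = x :=
  h.ext (f := ((s.trans s).trans s).toRingHom) (g := RingHom.id _)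
    (by simp [h.st0, h.st1, h.st2]) (by simp [h.sdl]) x

theorem rr (h : Sx L p q t s r) (x : 𝓞 L) : r (r x) = x :=
  h.ext (f := (r.trans r).toRingHom) (g := RingHom.id _) (by simp [h.rt0]) (by simp [h.rdl]) x

theorem rs (h : Sx L p q t s r) (x : 𝓞 L) : r (s x) = s (s (r x)) :=
  h.ext (f := (s.trans r).toRingHom) (g := ((r.trans s).trans s).toRingHom)
    (by simp [h.rt0, h.st0, h.rt1, h.st1]) (by simp [h.rdl, h.sdl]) x

theorem rss (h : Sx L p q t s r) (x : 𝓞 L) : r (s (s x)) = s (r x) := by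
  rw [h.rs, h.rs, h.sss]

theorem norm_int (h : Sx L p q t s r) (x : 𝓞 L) :
    x * s x * s (s x) * (r x * s (r x) * s (s (r x))) = (Algebra.norm ℤ x : ℤ) := by
  obtain ⟨φ⟩ : Nonempty (L →+* ℂ) := inferInstance
  have h1 := Algebra.norm_eq_prod_embeddings ℚ ℂ (x : L)
  rw [← (h.emb_bij φ).prod_comp, ← Algebra.coe_norm_int] at h1
  refine RingOfIntegers.coe_injective (φ.injective ?_)
  simp only [emb_coe, Fintype.prod_sum_type, Fin.prod_univ_three, map_intCast] at h1
  simp only [map_intCast, map_mul, h1]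
  simp [six]

theorem norm_nonneg (h : Sx L p q t s r) (x : 𝓞 L) : 0 ≤ Algebra.norm ℤ x := by
  obtain ⟨n, n0, -, k⟩ := h.coord
  obtain ⟨a, b, e⟩ := k (x * s x * s (s x))
  have e1 := congrArg s e
  have e2 := congrArg s e1
  simp only [map_add, map_mul, map_pow, map_intCast, h.sss, h.st0, h.st1, h.sdl] at e1 e2
  obtain ⟨A, B, e3⟩ : ∃ A B : ℤ, 3 * n * (x * s x * s (s x)) = A + B * dl t := by
    refine ⟨3 * a 0 - 2 * p * a 1 + (4 * p ^ 2 - 4 * q) * a 2,
      3 * b 0 - 2 * p * b 1 + (4 * p ^ 2 - 4 * q) * b 2, ?_⟩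
    push_cast
    linear_combination e + e1 + e2 + (a 1 + b 1 * dl t) * h.s1 +
      (a 2 + b 2 * dl t) * ((t 0 + t 1 + t 2 - 2 * p) * h.s1 - 2 * h.s2)
  have e4 := congrArg r e3
  simp only [map_add, map_mul, map_intCast, map_ofNat, h.rdl, h.rss] at e4
  rw [h.rs] at e4
  have e5 : (((3 * n) ^ 2 * Algebra.norm ℤ x : ℤ) : 𝓞 L) = (A ^ 2 - B ^ 2 * dg p q : ℤ) := by
    push_cast
    rw [← h.norm_int, ← h.disc]
    linear_combination (3 * n * (r x * s (s (r x)) * s (r x))) * e3 + (A + B * dl t) * e4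
  rw [Int.cast_inj] at e5
  have := h.dneg
  have h3 : 0 < (3 * n) ^ 2 := by positivity
  exact nonneg_of_mul_nonneg_right (e5 ▸ by nlinarith [sq_nonneg A, sq_nonneg B]) h3

/-- The product of the six conjugates is the absolute norm. -/
theorem norm (h : Sx L p q t s r) (x : 𝓞 L) :
    x * s x * s (s x) * (r x * s (r x) * s (s (r x))) =
      (Ideal.absNorm (Ideal.span {x}) : ℕ) := by
  rw [h.norm_int, Ideal.absNorm_span_singleton, ← Int.cast_natCast,
    Int.natAbs_of_nonneg (h.norm_nonneg x)]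

/-- The integers fixed by the reflection. -/
theorem fix (h : Sx L p q t s r) {x : 𝓞 L} (hx : r x = x) :
    ∃ m : Fin 3 → ℤ, x = m 0 + m 1 * t 0 + m 2 * t 0 ^ 2 := by
  let K : Subfield L := RingHom.eqLocusField (up r).toRingHom (RingHom.id L)
  have mem : ∀ y : 𝓞 L, r y = y → (y : L) ∈ K := fun y hy => by
    change up r y = y
    rw [up_coe, hy]
  let j : ∀ y : 𝓞 L, r y = y → 𝓞 K := fun y hy => ⟨⟨y, mem y hy⟩,
    (isIntegral_algHom_iff K.subtype.toIntAlgHom Subtype.val_injective).1 y.2⟩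
  let ι : 𝓞 K →+* L := K.subtype.comp (algebraMap _ _)
  have ιi : Function.Injective ι := Subtype.val_injective.comp RingOfIntegers.coe_injective
  have li : LinearIndependent ℚ fun i => ((fam (t 0) (dl t) i : 𝓞 L) : L) := by
    by_contra k
    have := Algebra.discr_zero_of_not_linearIndependent ℚ k
    rw [h.discr_dl, Int.cast_eq_zero] at this
    simp [h.dneg.ne] at this
  let v : Fin 3 → K := fun i => (j _ h.rt0 : K) ^ (i : ℕ)
  have li' : LinearIndependent ℚ v :=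
    .of_comp K.subtype.toRatAlgHom.toLinearMap (by
      convert li.comp Sum.inl Sum.inl_injective using 1
      funext i
      simp [v, fam, j])
  have sp : ⊤ ≤ Submodule.span ℚ (Set.range v) := fun y _ => by
    obtain ⟨c, e⟩ : ∃ c : Fin 3 ⊕ Fin 3 → ℚ,
        ∑ i, c i • ((fam (t 0) (dl t) i : 𝓞 L) : L) = (y : L) := by
      have := (basisOfLinearIndependentOfCardEqFinrank li (by simp [h.h6])).sum_repr (y : L)
      rw [coe_basisOfLinearIndependentOfCardEqFinrank] at this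
      exact ⟨_, this⟩
    have e' := congrArg (up r) e
    have hy : up r y = y := y.2
    have a0 : up r (algebraMap _ L (t 0)) = algebraMap _ L (t 0) :=
      (up_coe _ _).trans (congrArg _ h.rt0)
    have a1 : up r (algebraMap _ L (dl t)) = -algebraMap _ L (dl t) := by
      rw [← map_neg, ← h.rdl]; exact up_coe _ _
    simp only [Fintype.sum_sum_type, Fin.sum_univ_three, Algebra.smul_def, eq_ratCast, map_add,
      map_mul, map_ratCast, hy, fam, Sum.elim_inl, Sum.elim_inr, map_pow, a0, a1] at e e'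
    refine (Submodule.mem_span_range_iff_exists_fun ℚ).2 ⟨fun i => c (.inl i), ?_⟩
    refine Subtype.ext (mul_left_cancel₀ (two_ne_zero (α := L)) ?_)
    have a2 : ((j _ h.rt0 : K) : L) = algebraMap _ L (t 0) := rfl
    simp only [Fin.sum_univ_three, v, Algebra.smul_def, eq_ratCast]
    push_cast
    rw [a2]
    linear_combination e + e'
  have cf : Cf K p q (j _ h.rt0) (Basis.mk li' sp) :=
    ⟨fun i => by simp [v], ιi (by
      have := congrArg (algebraMap _ L) (h.root 0)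
      simp only [map_add, map_mul, map_pow, map_intCast, map_ofNat, map_zero] at this ⊢
      exact this), h.dneg, by have := h.dgv; omega⟩
  obtain ⟨m, hm⟩ := cf.int (fun n k => by
    have k1 := Int.natAbs_le_of_dvd_ne_zero k h.dneg.ne
    have k2 := Int.natAbs_dvd_natAbs.2 k
    rw [Int.natAbs_pow] at k1 k2
    rw [← Int.natAbs_dvd_natAbs]
    generalize n.natAbs = N at *
    have : N ≤ 9 := by rcases h.dgv with e | e <;> rw [e] at k1 <;> norm_num at k1 <;> nlinarith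
    rcases h.dgv with e | e <;> rw [e] at k2 <;> interval_cases N <;> simp_all) (j x hx)
  refine ⟨m, RingOfIntegers.coe_injective ?_⟩
  have := congrArg ι hm
  simp only [map_add, map_mul, map_pow, map_intCast] at this ⊢
  exact this

end Sx

end Pool.Agent.Spin
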