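import Pool.Agent.Lib.MP_696deb_nt.SPN.FP
import Pool.Agent.Lib.MP_696deb_nt.Spin.IN
import Pool.Agent.Lib.MP_696deb_nt.Spin.RC

/-! Existence of the sextic fields, and the data for the spin symbol. -/

set_option autoImplicit false

open scoped Classical
open NumberField Module Finset Polynomial

namespace Pool.Agent.Spin

open Pool.Agent.B6.S.SPN (dg Cf)

/-- The cubic polynomial. -/
noncomputable def feF (p q : ℤ) : ℚ[X] := X ^ 3 + C (2 * p : ℚ) * X ^ 2 + C (2 * q : ℚ) * X + C 2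

theorem feF_deg (p q : ℤ) : (feF p q).natDegree = 3 := by
  unfold feF
  compute_degree!

theorem fe_int {R : Type} [CommRing R] {p q : ℤ} {x : R}
    (h : x ^ 3 + 2 * p * x ^ 2 + 2 * q * x + 2 = 0) : IsIntegral ℤ x :=
  ⟨X ^ 3 + C (2 * p) * X ^ 2 + C (2 * q) * X + C 2, by monicity!, by
    simp only [eval₂_add, eval₂_mul, eval₂_pow, eval₂_X, eval₂_C]
    simpa [map_ofNat] using h⟩

instance feF_irr (p q : ℤ) : Fact (Irreducible (feF p q)) :=
  ⟨irreducible_of_degree_le_three_of_not_isRoot (by simp [feF_deg]) fun x hx => by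
    have h : x ^ 3 + 2 * p * x ^ 2 + 2 * q * x + 2 = 0 := by simpa [feF] using hx
    obtain ⟨n, rfl⟩ := IsIntegrallyClosed.isIntegral_iff.1 (fe_int h)
    have h1 : n ^ 3 + 2 * p * n ^ 2 + 2 * q * n + 2 = 0 := by
      rw [eq_intCast] at h
      exact_mod_cast h
    obtain ⟨k, rfl | rfl⟩ := Int.even_or_odd' n
    · have : 2 * (2 * k ^ 3 + 2 * p * k ^ 2 + q * k) + 1 = 0 := by linarith
      omega
    · have : 2 * (4 * k ^ 3 + 6 * k ^ 2 + 3 * k + p * (2 * k + 1) ^ 2 + q * (2 * k + 1) + 1) + 1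
        = 0 := by linarith
      omega⟩

/-- The cubic field. -/
abbrev feK (p q : ℤ) : Type := AdjoinRoot (feF p q)

theorem feK_rank (p q : ℤ) : finrank ℚ (feK p q) = 3 := by
  rw [(AdjoinRoot.powerBasis (feF_irr p q).out.ne_zero).finrank, AdjoinRoot.powerBasis_dim,
    feF_deg]

theorem fe_ev {R : Type} [Field R] (i : ℚ →+* R) (p q : ℤ) (x : R) :
    (feF p q).eval₂ i x = x ^ 3 + 2 * p * x ^ 2 + 2 * q * x + 2 := by
  simp only [feF, eval₂_add, eval₂_mul, eval₂_pow, eval₂_X, eval₂_C]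
  simp only [map_mul, map_ofNat, map_intCast]

/-- The quadratic polynomial of the other two roots. -/
noncomputable def feG (p q : ℤ) : (feK p q)[X] :=
  X ^ 2 + C (AdjoinRoot.root (feF p q) + 2 * p) * X +
    C (AdjoinRoot.root (feF p q) ^ 2 + 2 * p * AdjoinRoot.root (feF p q) + 2 * q)

theorem feG_deg (p q : ℤ) : (feG p q).natDegree = 2 := by
  unfold feG
  compute_degree!

theorem feG_ev {R : Type} [Field R] {p q : ℤ} (i : feK p q →+* R) (x : R) :
    (feG p q).eval₂ i x = x ^ 2 + (i (AdjoinRoot.root _) + 2 * p) * x +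
      (i (AdjoinRoot.root _) ^ 2 + 2 * p * i (AdjoinRoot.root _) + 2 * q) := by
  simp only [feG, eval₂_add, eval₂_mul, eval₂_pow, eval₂_X, eval₂_C]
  simp [map_ofNat]

theorem fe_root (p q : ℤ) : AdjoinRoot.root (feF p q) ^ 3 + 2 * p * AdjoinRoot.root (feF p q) ^ 2 +
    2 * q * AdjoinRoot.root (feF p q) + 2 = 0 :=
  (fe_ev _ p q _).symm.trans (AdjoinRoot.eval₂_root _)

theorem feG_irr {p q : ℤ} (h : dg p q < 0) : Irreducible (feG p q) :=
  irreducible_of_degree_le_three_of_not_isRoot (by simp [feG_deg]) fun y hy => by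
    have h1 := (feG_ev (RingHom.id _) y).symm.trans hy
    have h0 := fe_root p q
    simp only [RingHom.id_apply] at h1
    generalize AdjoinRoot.root (feF p q) = x at h0 h1
    have h2 := dl_sq (t := ![x, y, -2 * p - x - y]) (p := p) (q := q) (by simp)
      (by simp; linear_combination -h1) (by simp; linear_combination h0 - x * h1)
    have h3 := congrArg (Algebra.norm ℚ) h2
    rw [map_pow, ← map_intCast (algebraMap ℚ (feK p q)) (dg p q), Algebra.norm_algebraMap,
      feK_rank] at h3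
    have : (dg p q : ℚ) ^ 3 < 0 := Odd.pow_neg (by decide) (by exact_mod_cast h)
    exact (h3 ▸ this).not_ge (sq_nonneg _)

theorem sx_of {L : Type} [Field L] [NumberField L] {p q : ℤ}
    (ok : (p = -1 ∧ q = 0) ∨ (p = 1 ∧ q = 2)) (h6 : finrank ℚ L = 6) {x y : L}
    (h0 : x ^ 3 + 2 * p * x ^ 2 + 2 * q * x + 2 = 0)
    (h1 : y ^ 2 + (x + 2 * p) * y + (x ^ 2 + 2 * p * x + 2 * q) = 0) (s r : L →+* L)
    (sx : s x = y) (sy : s y = -2 * p - x - y) (rx : r x = x) (ry : r y = -2 * p - x - y) :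
    ∃ t s r, Sx L p q t s r := by
  have h2 : y ^ 3 + 2 * p * y ^ 2 + 2 * q * y + 2 = 0 := by linear_combination h0 + (y - x) * h1
  have h3 : (-2 * p - x - y) ^ 3 + 2 * p * (-2 * p - x - y) ^ 2 + 2 * q * (-2 * p - x - y) + 2
      = 0 := by linear_combination h0 - (2 * p + 2 * x + y) * h1
  have bij : ∀ g : L →+* L, Function.Bijective g := fun g => g.toRatAlgHom.bijective
  refine ⟨![⟨x, fe_int h0⟩, ⟨y, fe_int h2⟩, ⟨_, fe_int h3⟩],
    RingOfIntegers.mapRingEquiv (.ofBijective s (bij s)),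
    RingOfIntegers.mapRingEquiv (.ofBijective r (bij r)), ok, h6, ?_, ?_, ?_, ?_, ?_, ?_, ?_, ?_,
    ?_⟩ <;> refine RingOfIntegers.coe_injective ?_
  · simp [map_ofNat]
  · simp [map_ofNat]
    linear_combination -h1
  · simp [map_ofNat]
    linear_combination h0 - x * h1
  · exact sx
  · exact sy
  · change s (-2 * p - x - y) = x
    simp [sx, sy, map_ofNat]
  · exact rx
  · exact ry
  · change r (-2 * p - x - y) = y
    simp [rx, ry, map_ofNat]

theorem exists_Sx {p q : ℤ} (ok : (p = -1 ∧ q = 0) ∨ (p = 1 ∧ q = 2)) :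
    ∃ (L : Type) (_ : Field L) (_ : NumberField L) (t : Fin 3 → 𝓞 L) (s r : 𝓞 L ≃+* 𝓞 L),
      Sx L p q t s r := by
  have : Fact (Irreducible (feG p q)) :=
    ⟨feG_irr (by rcases ok with ⟨rfl, rfl⟩ | ⟨rfl, rfl⟩ <;> simp [dg])⟩
  let L := AdjoinRoot (feG p q)
  let pb := AdjoinRoot.powerBasis (f := feG p q) this.out.ne_zero
  have : Module.Finite (feK p q) L := pb.finite
  have : NumberField L := NumberField.of_module_finite (feK p q) L
  have h6 : finrank ℚ L = 6 := by
    rw [← Module.finrank_mul_finrank ℚ (feK p q) L, feK_rank, pb.finrank,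
      AdjoinRoot.powerBasis_dim, feG_deg]
  let i : feK p q →+* L := AdjoinRoot.of _
  set x : L := i (AdjoinRoot.root _) with hx
  set y : L := AdjoinRoot.root (feG p q) with hy
  have h0 : x ^ 3 + 2 * p * x ^ 2 + 2 * q * x + 2 = 0 := by
    simpa [map_ofNat] using congrArg i (fe_root p q)
  have h1 : y ^ 2 + (x + 2 * p) * y + (x ^ 2 + 2 * p * x + 2 * q) = 0 :=
    (feG_ev i y).symm.trans (AdjoinRoot.eval₂_root _)
  have h2 : y ^ 3 + 2 * p * y ^ 2 + 2 * q * y + 2 = 0 := by linear_combination h0 + (y - x) * h1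
  let j : feK p q →+* L := AdjoinRoot.lift (algebraMap ℚ L) y ((fe_ev _ p q _).trans h2)
  have hj : j (AdjoinRoot.root _) = y := AdjoinRoot.lift_root _
  exact ⟨L, inferInstance, this, sx_of ok h6 h0 h1
    (AdjoinRoot.lift j (-2 * p - x - y) (by rw [feG_ev, hj]; linear_combination h1))
    (AdjoinRoot.lift i (-2 * p - x - y) (by rw [feG_ev, ← hx]; linear_combination h1))
    ((AdjoinRoot.lift_of _).trans hj) (AdjoinRoot.lift_root _) (AdjoinRoot.lift_of _)
    (AdjoinRoot.lift_root _)⟩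

variable {L : Type} [Field L] [NumberField L] {p q : ℤ} {t : Fin 3 → 𝓞 L} {s r : 𝓞 L ≃+* 𝓞 L}

namespace Sx

theorem up3 (h : Sx L p q t s r) (x : L) : up s (up s (up s x)) = x := by
  obtain ⟨a, b, -, rfl⟩ := IsFractionRing.div_surjective (A := 𝓞 L) x
  have e : ∀ a : 𝓞 L, up s (algebraMap _ L a) = algebraMap _ L (s a) := up_coe s
  simp only [map_div₀, e, h.sss]

theorem upne (h : Sx L p q t s r) : ∃ x, up s x ≠ x :=
  ⟨t 0, by
    rw [up_coe, h.st0]
    exact fun e => h.ne.1 (RingOfIntegers.coe_injective e).symm⟩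

/-- The data for the spin symbol. -/
@[reducible] noncomputable def dat (h : Sx L p q t s r) (M : ℕ) (M0 : M ≠ 0) (h8 : 8 ∣ M)
    (hM : 4 * dg p q ∣ (M : ℤ)) : Dat :=
  haveI := h.tc
  haveI := h.pid
  { O := 𝓞 L
    σ := s
    τ := r
    φ := (Classical.arbitrary (L →+* ℂ)).comp (algebraMap _ _)
    inj := (Classical.arbitrary (L →+* ℂ)).injective.comp RingOfIntegers.coe_injective
    σ3 := h.sss
    nrm := nrm_of h.h6 (up s).toRingHom h.up3 h.upne _ s (fun x => (up_coe s x).symm) _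
      fun _ => rfl
    ω := dl t
    t := 0
    c := -dg p q
    hω := by rw [← sq, h.disc]; simp
    σω := h.sdl
    τω := by simp [h.rdl]
    disc := by have := h.dneg; omega
    M := M
    M0 := M0
    M2 := (by norm_num : 2 ∣ 8).trans h8
    Md := by simpa using hM
    mov := fun P _ k => ⟨t 0, fun e => k (by
      obtain ⟨c, hc⟩ := hM
      have : (M : 𝓞 L) = (t 0 - s (t 0)) * (4 * c * dl t * ((t 0 - t 2) * (t 1 - t 2))) := by
        rw [← Int.cast_natCast, hc, h.st0]
        push_cast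
        rw [← h.disc, dl]
        ring
      rw [this]
      exact P.mul_mem_right _ e)⟩
    bal := bal_of h.h6 (up s).toRingHom h.up3 h.upne _ s (fun x => (up_coe s x).symm) _
      fun _ => rfl
    ε := (exists_eps (K := L) h8).choose
    ε1 := (exists_eps (K := L) h8).choose_spec.1
    εp := (exists_eps (K := L) h8).choose_spec.2.1
    rec' := (exists_eps (K := L) h8).choose_spec.2.2 }

end Sx

end Pool.Agent.Spin
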