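import Pool.Agent.Lib.MP_696deb_nt.SPN.FA

/-! The class number of the two sextic fields is one. -/

set_option autoImplicit false

open scoped Classical
open NumberField Module Finset

namespace Pool.Agent.Spin

open Pool.Agent.B6.S.SPN (dg Cf)

variable {L : Type} [Field L] [NumberField L] {p q : ℤ} {t : Fin 3 → 𝓞 L} {s r : 𝓞 L ≃+* 𝓞 L}

/-- A ring of prime order is the ring of residues. -/
theorem fp_hom {R : Type} [CommRing R] [IsDedekindDomain R] [Module.Free ℤ R] {P : Ideal R} {l : ℕ}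
    (hl : l.Prime) (h : Ideal.absNorm P = l) : Nonempty (R →+* ZMod l) := by
  have h1 : Nat.card (R ⧸ P) = l := by rw [← h, Ideal.absNorm_apply, Submodule.cardQuot_apply]
  have : Finite (R ⧸ P) := Nat.finite_of_card_ne_zero (h1 ▸ hl.ne_zero)
  have := Fintype.ofFinite (R ⧸ P)
  rw [Nat.card_eq_fintype_card] at h1
  exact ⟨(ZMod.ringEquivOfPrime (R ⧸ P) hl h1).symm.toRingHom.comp (Ideal.Quotient.mk P)⟩

theorem fp_eq {R : Type} [CommRing R] [IsDedekindDomain R] [Module.Free ℤ R] {P : Ideal R} {x : R}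
    (hx : x ∈ P) (h : Ideal.absNorm P = Ideal.absNorm (Ideal.span {x}))
    (h0 : Ideal.absNorm P ≠ 0) : P.IsPrincipal := by
  obtain ⟨Q, e⟩ := Ideal.dvd_iff_le.2 ((Ideal.span_singleton_le_iff_mem _).2 hx)
  rw [e, map_mul] at h
  have : Q = ⊤ := Ideal.absNorm_eq_one_iff.1 ((mul_right_eq_self₀.1 h.symm).resolve_right h0)
  rw [this, Ideal.mul_top] at e
  rw [← e]
  infer_instance

namespace Sx

/-- The quotient of two roots is an integer. -/
theorem eta (h : Sx L p q t s r) : ∃ η : 𝓞 L, t 0 * η = t 1 ∧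
    η ^ 2 + (q * t 1 + 1) * η + (p * t 1 ^ 2 + q * t 1 + 1) = 0 := by
  have t0 : t 0 ≠ 0 := fun e => by simpa [e] using h.s3
  have e : t 1 ^ 2 + (q * t 1 + 1) * t 0 * t 1 + (p * t 1 ^ 2 + q * t 1 + 1) * t 0 ^ 2 = 0 :=
    mul_left_cancel₀ two_ne_zero (by
      linear_combination (t 0 * t 1 + t 0 ^ 2) * h.root 1 - t 0 * t 1 ^ 3 * h.s1 + t 1 ^ 2 * h.s3)
  have a3 : algebraMap _ L (t 0) ≠ 0 := RingOfIntegers.coe_ne_zero_iff.2 t0
  have hi : IsIntegral (𝓞 L) (algebraMap _ L (t 1) / algebraMap _ L (t 0)) := by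
    generalize (p * t 1 ^ 2 + q * t 1 + 1 : 𝓞 L) = b, (q * t 1 + 1 : 𝓞 L) = a at e
    refine ⟨Polynomial.X ^ 2 + Polynomial.C a * Polynomial.X + Polynomial.C b, by monicity!, ?_⟩
    have a1 := congrArg (algebraMap _ L) e
    simp only [Polynomial.eval₂_add, Polynomial.eval₂_mul, Polynomial.eval₂_pow,
      Polynomial.eval₂_X, Polynomial.eval₂_C, map_add, map_mul, map_pow, map_zero] at a1 ⊢
    field_simp
    linear_combination a1
  obtain ⟨η, hη⟩ := IsIntegrallyClosed.isIntegral_iff.1 hi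
  have e1 : t 0 * η = t 1 := RingOfIntegers.coe_injective (by
    rw [map_mul, hη, mul_div_cancel₀ _ a3])
  refine ⟨η, e1, mul_left_cancel₀ (pow_ne_zero 2 t0) ?_⟩
  linear_combination e + (t 0 * η + t 1 + (q * t 1 + 1) * t 0) * e1

theorem discr_le (h : Sx L p q t s r) : |discr L| ≤ 109744 ∧ (p = -1 → |discr L| ≤ 21296) := by
  obtain ⟨η, e1, -⟩ := h.eta
  obtain ⟨d, hd⟩ : ∃ d, dg p q = 4 * d := by
    rcases h.dgv with e | e
    exacts [⟨-11, by omega⟩, ⟨-19, by omega⟩]
  have a0 : t 0 * (r η - η) = t 2 - t 1 := by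
    have := congrArg r e1
    rw [map_mul, h.rt0, h.rt1] at this
    linear_combination this - e1
  have a1 := congrArg s a0
  rw [map_mul, h.st0, map_sub s (t 2), h.st1, h.st2] at a1
  have a2 := congrArg s a1
  rw [map_mul, h.st1, map_sub s (t 0), h.st0, h.st2] at a2
  have k : ((r η - η) * s (r η - η) * s (s (r η - η))) ^ 2 = d := by
    have a3 : t 0 * t 1 * t 2 * ((r η - η) * s (r η - η) * s (s (r η - η))) = dl t := by
      rw [dl, show t 0 * t 1 * t 2 * ((r η - η) * s (r η - η) * s (s (r η - η))) =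
        t 0 * (r η - η) * (t 1 * s (r η - η)) * (t 2 * s (s (r η - η))) by ring, a0, a1, a2]
      ring
    have a4 := h.disc
    rw [hd, ← a3, h.s3] at a4
    push_cast at a4
    exact mul_left_cancel₀ (by norm_num : (4 : 𝓞 L) ≠ 0) (by linear_combination a4)
  obtain ⟨n, h1, -⟩ := fa_idx (by simp [h.h6]) (fam (t 0) η)
  rw [h.discr_fam η k, Int.cast_inj] at h1
  have n0 : n ≠ 0 := fun e => by
    rcases h.dgv with e' | e' <;> simp [e, e'] at h1 <;> omega
  have h2 : |discr L| ≤ |d * dg p q ^ 2| := by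
    rw [← h1, abs_mul]
    exact le_mul_of_one_le_left (abs_nonneg _) (Int.one_le_abs (pow_ne_zero 2 n0))
  rcases h.ok with ⟨rfl, rfl⟩ | ⟨rfl, rfl⟩
  · obtain rfl : d = -11 := by simp [dg] at hd; omega
    norm_num [dg] at h2
    omega
  · obtain rfl : d = -19 := by simp [dg] at hd; omega
    norm_num [dg] at h2
    omega

theorem N_s (_ : Sx L p q t s r) (g : 𝓞 L ≃+* 𝓞 L) (x : 𝓞 L) :
    Ideal.absNorm (Ideal.span {g x}) = Ideal.absNorm (Ideal.span {x}) := by
  rw [Ideal.absNorm_span_singleton, Ideal.absNorm_span_singleton]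
  exact congrArg _ (Algebra.norm_eq_of_algEquiv g.toIntAlgEquiv x)

/-- The norm of an element of the cubic subfield. -/
theorem N_fix (h : Sx L p q t s r) {x : 𝓞 L} (hx : r x = x) {n : ℤ} (e : x * s x * s (s x) = n) :
    Ideal.absNorm (Ideal.span {x}) = n.natAbs ^ 2 := by
  have := h.norm x
  rw [hx, e, ← Int.cast_mul, ← Int.cast_natCast, Int.cast_inj] at this
  zify
  rw [← this, sq_abs, sq]

theorem mink (h : Sx L p q t s r) {n : ℕ} (hn : (n : ℝ) ≤ (4 / Real.pi) ^
    InfinitePlace.nrComplexPlaces L * ((finrank ℚ L).factorial / (finrank ℚ L) ^ (finrank ℚ L) *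
      √|(discr L : ℝ)|)) : n ≤ 10 ∧ (p = -1 → n ≤ 4) := by
  have := h.tc
  have h1 : InfinitePlace.nrComplexPlaces L = 3 := by
    have := IsTotallyComplex.finrank L
    rw [h.h6] at this
    omega
  rw [h1, h.h6] at hn
  have h2 : (4 / Real.pi) ^ 3 ≤ 2.07 := by
    have : 4 / Real.pi ≤ 4 / 3.14 := div_le_div_of_nonneg_left four_pos.le (by norm_num)
      Real.pi_gt_d2.le
    refine (pow_le_pow_left₀ (by positivity) this 3).trans (by norm_num)
  have h3 : ∀ B : ℤ, ∀ c : ℝ, 0 ≤ c → |discr L| ≤ B → B ≤ c ^ 2 → (n : ℝ) ≤ 2.07 * (5 / 324 * c) :=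
    fun B c c0 k1 k2 => hn.trans (mul_le_mul h2 (mul_le_mul (by norm_num [Nat.factorial])
      (Real.sqrt_le_iff.2 ⟨c0, le_trans (by exact_mod_cast k1) k2⟩) (by positivity)
        (by norm_num)) (by positivity) (by norm_num))
  constructor
  · have := h3 _ 332 (by norm_num) h.discr_le.1 (by norm_num)
    exact Nat.lt_succ_iff.1 (by exact_mod_cast this.trans_lt (by norm_num : _ < (11 : ℝ)))
  · intro k
    have := h3 _ 146 (by norm_num) (h.discr_le.2 k) (by norm_num)
    exact Nat.lt_succ_iff.1 (by exact_mod_cast this.trans_lt (by norm_num : _ < (5 : ℝ)))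

theorem nohom (h : Sx L p q t s r) {l : ℕ} (ψ : 𝓞 L →+* ZMod l)
    (k : l = 2 ∨ l = 3 ∨ (p = 1 ∧ (l = 5 ∨ l = 7))) : False := by
  have s1 := congrArg ψ h.s1
  have s2 := congrArg ψ h.s2
  have s3 := congrArg ψ h.s3
  obtain ⟨η, e1, e2⟩ := h.eta
  replace e1 := congrArg ψ e1
  replace e2 := congrArg ψ e2
  simp only [map_add, map_mul, map_neg, map_ofNat, map_intCast, map_pow, map_one, map_zero] at *
  generalize ψ (t 0) = x, ψ (t 1) = y, ψ (t 2) = z, ψ η = w at *
  rcases h.ok with ⟨rfl, rfl⟩ | ⟨rfl, rfl⟩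
  · rcases k with rfl | rfl | ⟨k, -⟩
    · revert x y z w; decide
    · revert x y z w; decide
    · omega
  · clear e1
    rcases k with rfl | rfl | ⟨-, rfl | rfl⟩
    · revert x y z w; decide
    · revert x y z w; decide
    · clear e2; revert x y z; decide
    · clear e2; revert x y z; decide +kernel

/-- The class number is one. -/
theorem pid (h : Sx L p q t s r) : IsPrincipalIdealRing (𝓞 L) := by
  refine RingOfIntegers.isPrincipalIdealRing_of_isPrincipal_of_norm_le_of_isPrime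
    fun ⟨P, P0⟩ hP hn => ?_
  obtain ⟨b1, b2⟩ := h.mink hn
  simp only at hP b1 b2 ⊢
  have a0 : Ideal.absNorm P ≠ 0 := mt Ideal.absNorm_eq_zero_iff.1 (nonZeroDivisors.ne_zero P0)
  have a1 := mt Ideal.absNorm_eq_one_iff.1 hP.ne_top
  have a2 : ∀ l, l.Prime → (l = 2 ∨ l = 3 ∨ (p = 1 ∧ (l = 5 ∨ l = 7))) → Ideal.absNorm P ≠ l :=
    fun l hl k e => (fp_hom hl e).elim fun ψ => h.nohom ψ k
  have a3 := a2 2 Nat.prime_two (.inl rfl)
  have a4 := a2 3 Nat.prime_three (.inr (.inl rfl))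
  have am := Ideal.absNorm_mem P
  have dv : ∀ x ∈ P, Ideal.absNorm P ∣ Ideal.absNorm (Ideal.span {x}) := fun x hx =>
    Ideal.absNorm_dvd_absNorm_of_le ((Ideal.span_singleton_le_iff_mem _).2 hx)
  have two : (2 : 𝓞 L) ∈ P → P.IsPrincipal := fun k => by
    have h6 : t 0 ∈ P := hP.mem_of_pow_mem 3 (by
      rw [show t 0 ^ 3 = 2 * -(p * t 0 ^ 2 + q * t 0 + 1) by linear_combination h.root 0]
      exact Ideal.mul_mem_right _ _ k)
    have h7 : Ideal.absNorm (Ideal.span {t 0}) = 4 :=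
      (h.N_fix h.rt0 (n := -2) (by rw [h.st0, h.st1, h.s3]; simp)).trans rfl
    have h8 := dv _ h6
    refine fp_eq h6 ?_ a0
    rw [h7] at h8 ⊢
    have := Nat.le_of_dvd four_pos h8
    generalize Ideal.absNorm P = n at *
    interval_cases n <;> simp_all
  have three : p = 1 → (3 : 𝓞 L) ∈ P → P.IsPrincipal := fun k k3 => by
    obtain ⟨rfl, rfl⟩ : p = 1 ∧ q = 2 := by have := h.ok; omega
    set g := t 0 ^ 2 + 2 * t 0 + 3 with hg
    have e : g * s g * s (s g) = (3 : ℤ) := by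
      have r0 := h.root 0
      have r1 := h.root 1
      have r2 := h.root 2
      have s1 := h.s1
      have s2 := h.s2
      have s3 := h.s3
      simp only [hg, map_add, map_mul, map_pow, map_ofNat, h.st0, h.st1]
      push_cast at *
      have c : ∀ x : 𝓞 L, x ^ 3 + 2 * 1 * x ^ 2 + 2 * 2 * x + 2 = 0 →
        x * (x ^ 2 + 2 * x + 3) = -(x + 2) := fun x k => by linear_combination k
      refine mul_left_cancel₀ two_ne_zero ?_
      linear_combination (t 0 ^ 2 + 2 * t 0 + 3) * (t 1 ^ 2 + 2 * t 1 + 3) *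
        (t 2 ^ 2 + 2 * t 2 + 3) * s3 - (t 1 * (t 1 ^ 2 + 2 * t 1 + 3)) *
        (t 2 * (t 2 ^ 2 + 2 * t 2 + 3)) * c _ r0 + (t 0 + 2) * (t 2 * (t 2 ^ 2 + 2 * t 2 + 3)) *
        c _ r1 - (t 0 + 2) * (t 1 + 2) * c _ r2 + s3 + 2 * s2 + 4 * s1
    have h7 : Ideal.absNorm (Ideal.span {g}) = 9 :=
      h.N_fix (by simp only [hg, map_add, map_mul, map_pow, map_ofNat, h.rt0]) e
    have fin : ∀ x ∈ P, Ideal.absNorm (Ideal.span {x}) = 9 → P.IsPrincipal := fun x hx k => by
      have h8 := dv _ hx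
      refine fp_eq hx ?_ a0
      rw [k] at h8 ⊢
      generalize Ideal.absNorm P = n at *
      interval_cases n <;> simp_all
    rw [← Int.cast_ofNat, ← e] at k3
    rcases hP.mem_or_mem k3 with k | k
    · rcases hP.mem_or_mem k with k | k
      · exact fin _ k h7
      · exact fin _ k (by rw [h.N_s, h7])
    · exact fin _ k (by rw [h.N_s, h.N_s, h7])
  have p1 : 4 < Ideal.absNorm P → p = 1 := fun k => by have := h.ok; omega
  have a5 := fun k => a2 5 Nat.prime_five (.inr (.inr ⟨k, .inl rfl⟩))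
  have a7 := fun k => a2 7 (by norm_num) (.inr (.inr ⟨k, .inr rfl⟩))
  have a6 : (5 : 𝓞 L) ∈ P → Ideal.absNorm P ∣ 125 ^ 2 := fun k => (dv _ k).trans
    (h.N_fix (map_ofNat r 5) (n := 125) (by simp only [map_ofNat]; norm_num)).dvd
  generalize Ideal.absNorm P = n at *
  interval_cases n
  any_goals omega
  · exact two (hP.mem_of_pow_mem 2 (by convert am using 1; norm_num))
  · exact (hP.mem_or_mem (x := 2) (y := 3) (by convert am using 1; norm_num)).elim two
      (three (p1 (by norm_num)))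
  · exact two (hP.mem_of_pow_mem 3 (by convert am using 1; norm_num))
  · exact three (p1 (by norm_num)) (hP.mem_of_pow_mem 2 (by convert am using 1; norm_num))
  · exact (hP.mem_or_mem (x := 2) (y := 5) (by convert am using 1; norm_num)).elim two
      fun k => absurd (a6 k) (by norm_num)

end Sx

end Pool.Agent.Spin
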