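import Mathlib

/-! Cubic fields of small negative discriminant in which two is totally ramified. -/

set_option autoImplicit false

open scoped Classical NNReal
open NumberField Module Finset

namespace Pool.Agent.B6.S.SPN

/-- The discriminant of `t ^ 3 + 2 p t ^ 2 + 2 q t + 2`. -/
def dg (p q : ℤ) : ℤ := 16 * p ^ 2 * q ^ 2 - 32 * q ^ 3 - 64 * p ^ 3 - 108 + 144 * p * q

/-- A cubic field with a generator. -/
structure Cf (K : Type) [Field K] [NumberField K] (p q : ℤ) (t : 𝓞 K) (b : Basis (Fin 3) ℚ K) :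
    Prop where
  pw : ∀ i, b i = (t : K) ^ (i : ℕ)
  eq : t ^ 3 + 2 * p * t ^ 2 + 2 * q * t + 2 = 0
  neg : dg p q < 0
  ge : -100 ≤ dg p q

variable {K : Type} [Field K] [NumberField K] {p q : ℤ} {t : 𝓞 K} {b : Basis (Fin 3) ℚ K}

theorem Cf.rank (_ : Cf K p q t b) : finrank ℚ K = 3 := by simp [finrank_eq_card_basis b]

theorem Cf.mat (h : Cf K p q t b) :
    Algebra.leftMulMatrix b (t : K) = !![0, 0, -2; 1, 0, -2 * (q : ℚ); 0, 1, -2 * (p : ℚ)] := by
  have e : (t : K) ^ 3 + 2 * p * (t : K) ^ 2 + 2 * q * t + 2 = 0 := by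
    simpa [map_ofNat] using congrArg (algebraMap (𝓞 K) K) h.eq
  have h0 : (t : K) * b 0 = b 1 := by simp [h.pw]
  have h1 : (t : K) * b 1 = b 2 := by simp [h.pw, sq]
  have h2 : (t : K) * b 2 = (-2 : ℚ) • b 0 + (-2 * q : ℚ) • b 1 + (-2 * p : ℚ) • b 2 := by
    simp only [h.pw, Algebra.smul_def, eq_ratCast]
    push_cast
    simp
    linear_combination e
  ext i j
  rw [Algebra.leftMulMatrix_eq_repr_mul]
  fin_cases j
  · fin_cases i <;> simp [h0]
  · fin_cases i <;> simp [h1]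
  · fin_cases i <;> simp [h2]

theorem Cf.discr_b (h : Cf K p q t b) : Algebra.discr ℚ b = dg p q := by
  have e : ∀ n : ℕ, Algebra.trace ℚ K ((t : K) ^ n) =
      (!![0, 0, -2; 1, 0, -2 * (q : ℚ); 0, 1, -2 * (p : ℚ)] ^ n).trace := fun n => by
    rw [Algebra.trace_eq_matrix_trace b, map_pow, h.mat]
  rw [Algebra.discr_def, Matrix.det_fin_three]
  simp only [Algebra.traceMatrix_apply, Algebra.traceForm_apply, h.pw, ← pow_add, e, dg]
  simp [pow_succ, Matrix.trace_fin_three]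
  ring

theorem Cf.norm_t (h : Cf K p q t b) : Algebra.norm ℤ t = -2 := by
  have : (Algebra.norm ℤ t : ℚ) = -2 := by
    rw [Algebra.coe_norm_int, Algebra.norm_eq_matrix_det b, h.mat, Matrix.det_fin_three]
    simp
  exact_mod_cast this

/-- The powers of the generator in an integral basis. -/
theorem Cf.idx (h : Cf K p q t b) : ∃ (B : Basis (Fin 3) ℤ (𝓞 K)) (P : Matrix (Fin 3) (Fin 3) ℤ),
    (∀ j : Fin 3, t ^ (j : ℕ) = ∑ i, P i j • B i) ∧ P.det ^ 2 * discr K = dg p q := by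
  have r : finrank ℤ (𝓞 K) = 3 := by rw [RingOfIntegers.rank, h.rank]
  let B := Module.finBasisOfFinrankEq ℤ (𝓞 K) r
  let v : Fin 3 → 𝓞 K := fun j => t ^ (j : ℕ)
  refine ⟨B, B.toMatrix v, fun j => (B.sum_toMatrix_smul_self v j).symm, ?_⟩
  rw [← discr_eq_discr K B, ← Algebra.discr_of_matrix_vecMul, B.toMatrix_map_vecMul]
  have : (Algebra.discr ℤ v : ℚ) = Algebra.discr ℚ b := by
    rw [Algebra.discr_def, Algebra.discr_def, Int.cast_det]
    congr 1
    ext i j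
    simp [Algebra.traceForm_apply, Algebra.coe_trace_int, h.pw, v]
  exact_mod_cast this.trans h.discr_b

theorem Cf.discr_neg (h : Cf K p q t b) : discr K < 0 ∧ dg p q ≤ discr K := by
  obtain ⟨B, P, -, e⟩ := h.idx
  have h1 := h.neg
  have h2 : P.det ≠ 0 := fun k => by simp [k] at e; omega
  have h3 : 1 ≤ P.det ^ 2 := (one_le_sq_iff_one_le_abs _).2 (Int.one_le_abs h2)
  have h4 : discr K < 0 := by nlinarith
  exact ⟨h4, by nlinarith⟩

theorem Cf.places (h : Cf K p q t b) :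
    InfinitePlace.nrComplexPlaces K = 1 ∧ InfinitePlace.nrRealPlaces K = 1 := by
  have h1 := InfinitePlace.card_add_two_mul_card_eq_rank K
  have h2 := sign_discr K
  rw [h.rank] at h1
  rw [Int.sign_eq_neg_one_of_neg h.discr_neg.1] at h2
  have h3 : InfinitePlace.nrComplexPlaces K ≠ 0 := fun e => by simp [e] at h2
  omega

theorem Cf.pid (h : Cf K p q t b) : IsPrincipalIdealRing (𝓞 K) := by
  refine RingOfIntegers.isPrincipalIdealRing_of_isPrincipal_of_norm_le_of_isPrime fun I hI hn => ?_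
  rw [h.places.1, h.rank] at hn
  have h1 : √|(discr K : ℝ)| ≤ 10 := Real.sqrt_le_iff.2 ⟨by norm_num, by
    have := h.discr_neg
    have := h.ge
    rw [← Int.cast_abs, abs_of_neg h.discr_neg.1]
    exact_mod_cast (by omega : -discr K ≤ 100)⟩
  have h2 : 4 / Real.pi < 4 / 3 := div_lt_div_of_pos_left four_pos three_pos Real.pi_gt_three
  have h3 : (Ideal.absNorm (I : Ideal (𝓞 K)) : ℝ) < 3 := by
    refine hn.trans_lt ?_
    have : (0 : ℝ) ≤ √|(discr K : ℝ)| := Real.sqrt_nonneg _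
    have : 0 < 4 / Real.pi := by positivity
    norm_num [Nat.factorial]
    nlinarith
  have h4 : Ideal.absNorm (I : Ideal (𝓞 K)) = 2 := by
    have a : Ideal.absNorm (I : Ideal (𝓞 K)) < 3 := by exact_mod_cast h3
    have a0 := mt Ideal.absNorm_eq_zero_iff.1 (nonZeroDivisors.coe_ne_zero I)
    have a1 := mt Ideal.absNorm_eq_one_iff.1 hI.ne_top
    omega
  have h5 : (2 : 𝓞 K) ∈ (I : Ideal (𝓞 K)) := by simpa [h4] using Ideal.absNorm_mem (I : Ideal (𝓞 K))
  have h6 : t ∈ (I : Ideal (𝓞 K)) := hI.mem_of_pow_mem 3 (by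
    rw [show t ^ 3 = 2 * -(p * t ^ 2 + q * t + 1) by linear_combination h.eq]
    exact Ideal.mul_mem_right _ _ h5)
  have h7 : Ideal.absNorm (Ideal.span {t}) = 2 := by rw [Ideal.absNorm_span_singleton, h.norm_t]; rfl
  have h8 : (Ideal.span {t}).IsMaximal :=
    (Ideal.isPrime_of_irreducible_absNorm (h7 ▸ Nat.prime_two)).isMaximal
      fun e => by simp [e] at h7
  rw [← h8.eq_of_le hI.ne_top ((Ideal.span_singleton_le_iff_mem _).2 h6)]
  infer_instance

theorem Cf.units (h : Cf K p q t b) {ε : (𝓞 K)ˣ} (hε : ∀ v, ε ≠ v ^ 2 ∧ ε ≠ -v ^ 2) (u : (𝓞 K)ˣ) :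
    ∃ v, u = v ^ 2 ∨ u = -v ^ 2 ∨ u = ε * v ^ 2 ∨ u = -(ε * v ^ 2) := by
  have r : Units.rank K = 1 := by
    rw [Units.rank, InfinitePlace.card_eq_nrRealPlaces_add_nrComplexPlaces, h.places.1, h.places.2]
  obtain ⟨η, hη⟩ : ∃ η : (𝓞 K)ˣ, ∀ x : (𝓞 K)ˣ, ∃ n : ℤ, x = η ^ n ∨ x = -η ^ n := by
    have : Unique (Fin (Units.rank K)) := r ▸ inferInstance
    refine ⟨Units.fundSystem K default, fun x => ?_⟩
    obtain ⟨⟨ζ, e⟩, h1, -⟩ := Units.exist_unique_eq_mul_prod K x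
    rw [Fintype.prod_unique] at h1
    refine ⟨e default, ?_⟩
    rcases Units.torsion_eq_one_or_neg_one_of_odd_finrank (h.rank ▸ by decide) ζ with k | k
    · exact .inl (by rw [h1, k, one_mul])
    · exact .inr (by rw [h1, k, neg_one_mul])
  have sq : ∀ n : ℤ, η ^ (2 * n) = (η ^ n) ^ 2 := fun n => by
    rw [mul_comm, zpow_mul, zpow_ofNat]
  obtain ⟨m, hm⟩ := hη ε
  obtain ⟨n, hn⟩ := hη u
  obtain ⟨k, rfl | rfl⟩ := Int.even_or_odd' m
  · rw [sq] at hm
    exact (hm.elim (hε _).1 (hε _).2).elim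
  obtain ⟨l, rfl | rfl⟩ := Int.even_or_odd' n
  · rw [sq] at hn
    exact ⟨_, hn.imp_right .inl⟩
  · have e : η ^ (2 * l + 1) = η ^ (2 * k + 1) * (η ^ (l - k)) ^ 2 := by
      rw [← sq, ← zpow_add]
      congr 1
      ring
    refine ⟨η ^ (l - k), .inr (.inr ?_)⟩
    rcases hm with rfl | rfl <;> rcases hn with rfl | rfl <;> simp [e]

/-- The generator generates the integers. -/
theorem Cf.int (h : Cf K p q t b) (h4 : ∀ n : ℤ, n ^ 2 ∣ dg p q → n ∣ 2) (x : 𝓞 K) :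
    ∃ m : Fin 3 → ℤ, x = m 0 + m 1 * t + m 2 * t ^ 2 := by
  obtain ⟨B, P, h1, h2⟩ := h.idx
  obtain ⟨d, hd⟩ := h4 _ ⟨_, h2.symm⟩
  have h3 : ∀ k, (P.det : 𝓞 K) * B k = ∑ j : Fin 3, P.adjugate j k * t ^ (j : ℕ) := fun k => by
    simp only [h1, mul_sum, zsmul_eq_mul, ← mul_assoc, ← Int.cast_mul]
    rw [sum_comm]
    simp only [← sum_mul, ← Int.cast_sum, mul_comm (P.adjugate _ _), ← Matrix.mul_apply,
      Matrix.mul_adjugate]
    simp [Matrix.one_apply]
  obtain ⟨m, hm⟩ : ∃ m : Fin 3 → ℤ, 2 * x = m 0 + m 1 * t + m 2 * t ^ 2 := by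
    refine ⟨fun j => d * ∑ k, P.adjugate j k * B.repr x k, ?_⟩
    have e : (2 : 𝓞 K) = d * P.det := by
      exact_mod_cast congrArg (Int.cast (R := 𝓞 K)) (hd.trans (mul_comm _ _))
    have e1 := B.sum_repr x
    have a0 := h3 0
    have a1 := h3 1
    have a2 := h3 2
    simp only [zsmul_eq_mul, Fin.sum_univ_three, Fin.val_zero, Fin.val_one, Fin.val_two] at *
    push_cast
    linear_combination x * e - d * P.det * e1 + d * (B.repr x 0 * a0 + B.repr x 1 * a1 +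
      B.repr x 2 * a2)
  have t0 : t ≠ 0 := fun e => by simpa [e] using h.norm_t
  have e3 : t ^ 3 = 2 * -(p * t ^ 2 + q * t + 1) := by linear_combination h.eq
  have ev : ∀ n : ℤ, t ∣ n → ∃ k, n = 2 * k := fun n k => by
    obtain ⟨l, rfl | rfl⟩ := Int.even_or_odd' n
    · exact ⟨l, rfl⟩
    · have k2 : t ∣ 2 := ⟨-t ^ 2 - 2 * p * t - 2 * q, by linear_combination h.eq⟩
      push_cast at k
      have := ((isUnit_of_dvd_one ((dvd_add_right (k2.mul_right _)).1 k)).map (Algebra.norm ℤ))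
      rw [h.norm_t, Int.isUnit_iff] at this
      omega
  obtain ⟨a, ha⟩ := ev (m 0) ⟨(-t ^ 2 - 2 * p * t - 2 * q) * x - m 1 - m 2 * t, by
    linear_combination x * h.eq - hm⟩
  obtain ⟨c, hc⟩ := ev (m 1) ⟨-t * (x - a) - m 2 - (m 1 + m 2 * t) * (p * t + q),
    mul_left_cancel₀ t0 (by
      rw [ha] at hm
      push_cast at hm
      linear_combination (x - a) * e3 - (p * t ^ 2 + q * t + 1) * hm)⟩
  obtain ⟨f, hf⟩ := ev (m 2) ⟨-(x - a - c * t) - m 2 * (p * t + q),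
    mul_left_cancel₀ (pow_ne_zero 2 t0) (by
      rw [ha, hc] at hm
      push_cast at hm
      linear_combination (x - a - c * t) * e3 - (p * t ^ 2 + q * t + 1) * hm)⟩
  refine ⟨![a, c, f], mul_left_cancel₀ two_ne_zero ?_⟩
  rw [hm, ha, hc, hf]
  simp
  ring

theorem la_pow {R : Type} [CommRing R] [IsDomain R] [WfDvdMonoid R] (V : R → ℝ≥0)
    (hV : ∀ x y, V (x * y) = V x * V y) {l : R} (hl : Prime l) (h1 : ∀ x, ¬ l ∣ x → V x = 1)
    {x : R} (h : x ≠ 0) : ∃ n : ℕ, V x = V l ^ n := by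
  obtain ⟨n, a, k, rfl⟩ := WfDvdMonoid.max_power_factor h hl.irreducible
  refine ⟨n, ?_⟩
  rw [hV, h1 a k, mul_one]
  induction n with
  | zero => rw [pow_zero, pow_zero, h1 1 hl.not_dvd_one]
  | succ n ih => rw [pow_succ, pow_succ, hV, ih fun e => h (by simp_all)]

/-- Elements whose valuations are even are squares up to units. -/
theorem la_sq {R : Type} [CommRing R] [IsDomain R] [UniqueFactorizationMonoid R] {x : R}
    (h0 : x ≠ 0) (h : ∀ l : R, Prime l → ∃ V : R → ℝ≥0, (∀ x y, V (x * y) = V x * V y) ∧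
      (∀ x, ¬ l ∣ x → V x = 1) ∧ V l < 1 ∧ V l ≠ 0 ∧
      ∃ y z, y ≠ 0 ∧ z ≠ 0 ∧ V x * V z ^ 2 = V y ^ 2) : ∃ (u : Rˣ) (a : R), x = u * a ^ 2 := by
  obtain ⟨s, a, rfl, hs⟩ : ∃ s a : R, x = s * a ^ 2 ∧ Squarefree s := by
    clear h
    induction x using WfDvdMonoid.induction_on_irreducible with
    | zero => exact absurd rfl h0
    | unit u hu => exact ⟨u, 1, by simp, hu.squarefree⟩
    | mul a i ha hi ih =>
      obtain ⟨s, c, rfl, hs⟩ := ih ha
      by_cases k : i ∣ s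
      · obtain ⟨s, rfl⟩ := k
        exact ⟨s, i * c, by ring, hs.of_mul_right⟩
      · exact ⟨i * s, c, by ring, squarefree_mul_iff.2
          ⟨hi.isRelPrime_iff_not_dvd.2 k, hi.squarefree, hs⟩⟩
  by_cases u : IsUnit s
  · exact ⟨u.unit, a, rfl⟩
  obtain ⟨l, hl, s, rfl⟩ := WfDvdMonoid.exists_irreducible_factor u hs.ne_zero
  have pl := UniqueFactorizationMonoid.irreducible_iff_prime.1 hl
  obtain ⟨V, v1, v2, v3, v4, y, z, y0, z0, e⟩ := h l pl
  obtain ⟨i, hi⟩ := la_pow V v1 pl v2 y0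
  obtain ⟨j, hj⟩ := la_pow V v1 pl v2 z0
  obtain ⟨k, hk⟩ := la_pow V v1 pl v2 (x := a) fun e => h0 (by simp [e])
  rw [v1, v1, sq a, v1, v2 s fun d => hl.not_isUnit (hs l (mul_dvd_mul_left l d)), hi, hj, hk, mul_one,
    ← pow_add, ← pow_succ', ← pow_mul, ← pow_mul, ← pow_add] at e
  have := pow_right_injective₀ (pos_iff_ne_zero.2 v4) v3.ne e
  omega

end Pool.Agent.B6.S.SPN
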