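import Pool.Agent.Lib.MP_696deb_nt.Spin.RC
import Pool.Agent.Lib.MP_696deb_nt.Spin.J1

/-! Jacobi symbols and involutions. -/

set_option autoImplicit false

open scoped Classical NumberTheorySymbols

namespace Pool.Agent.Spin

variable {O : Type} [CommRing O] [IsDomain O] [IsPrincipalIdealRing O] {M l : ℕ} {x y β δ : O}

theorem lb_sq {F : Type} [Field F] [Finite F] (f : F →+* F) {y d : F} (hy : f y = y)
    (hd : f d = -d) (h : 2 * d ≠ 0) : IsSquare y := by
  let S := f.eqLocusField (RingHom.id F)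
  let _ := Fintype.ofFinite S
  have d0 : d ≠ 0 := right_ne_zero_of_mul h
  let a : S := ⟨y, hy⟩
  let b : S := ⟨d * d, show f (d * d) = d * d by rw [map_mul, hd, neg_mul_neg]⟩
  by_cases k : IsSquare a
  · exact k.map S.subtype
  have k' : ¬ IsSquare b := fun ⟨c, hc⟩ => by
    have h1 : f c = c := c.2
    rcases mul_self_eq_mul_self_iff.1 (congrArg Subtype.val hc : d * d = c * c) with e | e
    · exact h (by rw [← e, hd] at h1; linear_combination -h1)
    · exact h (by rw [e, map_neg, h1] at hd; rw [e]; linear_combination hd)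
  have h1 := quadraticChar_neg_one_iff_not_isSquare.2 k
  have h2 := quadraticChar_neg_one_iff_not_isSquare.2 k'
  have h3 : quadraticChar S (a * b) = 1 := by rw [map_mul, h1, h2]; rfl
  obtain ⟨c, hc⟩ := (quadraticChar_one_iff_isSquare fun e => by simp [e] at h3).1 h3
  have h4 : y * (d * d) = c * c := congrArg Subtype.val hc
  exact ⟨c / d, by field_simp; linear_combination h4⟩

theorem jac_assoc (a : O) {b b' : O} (h : Associated b b') : jac M a b = jac M a b' := by
  rw [jac, jac, Ideal.span_singleton_eq_span_singleton.2 h]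

variable [Module.Free ℤ O] [Module.Finite ℤ O]

theorem jac_inert (r : O ≃+* O) (hy : r y = y) (hδ : r δ = -δ) (hx : Prime x) (h : x ∣ r x)
    (k : IsCoprime (2 * δ * y) x) : jac M y x = 1 := by
  let P := Ideal.span {x}
  have : P.IsMaximal := PrincipalIdealRing.isMaximal_of_irreducible hx.irreducible
  let _ := Ideal.Quotient.field P
  have : Finite (O ⧸ P) := Ideal.finiteQuotientOfFreeOfNeBot _ (by simp [P, hx.ne_zero])
  have n : ∀ a, IsCoprime a x → a ∉ P := fun a ha e =>
    hx.not_isUnit (ha.isUnit_of_dvd' (Ideal.mem_span_singleton.1 e) dvd_rfl)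
  obtain ⟨c, hc⟩ := lb_sq (Ideal.quotientMap P (r : O →+* O) (by
    rw [Ideal.span_le, Set.singleton_subset_iff]
    exact Ideal.mem_span_singleton.2 h)) (y := Ideal.Quotient.mk P y) (d := Ideal.Quotient.mk P δ)
    (by rw [Ideal.quotientMap_mk]; exact congrArg _ hy)
    (by rw [Ideal.quotientMap_mk, ← map_neg]; exact congrArg _ hδ)
    fun e => n _ k.of_mul_left_left (Ideal.Quotient.eq_zero_iff_mem.1 (by rw [map_mul]; exact e))
  obtain ⟨c, rfl⟩ := Ideal.Quotient.mk_surjective c
  have e : ∃ t, t * t - y ∈ P := ⟨c, Ideal.Quotient.eq.1 (by rw [map_mul]; exact hc.symm)⟩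
  rw [jac_prime y hx, leg, if_neg (n _ k.of_mul_left_right), if_pos e, ite_self]

/-- The symbol of two elements that are fixed by an involution. -/
theorem jac_fix (r : O ≃+* O) (rr : ∀ a, r (r a) = a) (hy : r y = y) (hδ : r δ = -δ) (β : O) :
    Associated (r β) β → IsCoprime (2 * δ * y) β → jac M y β = 1 := by
  induction β using (wellFounded_dvdNotUnit (α := O)).induction with | _ β ih => ?_
  intro h k
  by_cases h0 : β = 0
  · rw [h0, jac_zero]
  by_cases h1 : IsUnit β
  · exact jac_unit _ h1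
  obtain ⟨z, hz, b, rfl⟩ := WfDvdMonoid.exists_irreducible_factor h1 h0
  have hz := hz.prime
  have b0 := right_ne_zero_of_mul h0
  have hr : Prime (r z) := (MulEquiv.prime_iff r.toMulEquiv).2 hz
  rw [map_mul] at h
  rw [jac_mul_right y hz.ne_zero b0]
  by_cases a : Associated (r z) z
  · rw [jac_inert r hy hδ hz a.symm.dvd k.of_mul_right_left, one_mul]
    exact ih b ⟨b0, z, hz.not_isUnit, mul_comm _ _⟩ (h.of_mul_left a hr.ne_zero) k.of_mul_right_right
  obtain ⟨c, rfl⟩ := (hr.dvd_or_dvd ((dvd_mul_right _ _).trans h.dvd)).resolve_left fun e =>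
    a (hr.associated_of_dvd hz e)
  have c0 := right_ne_zero_of_mul b0
  rw [map_mul, rr, mul_left_comm] at h
  rw [jac_mul_right y hr.ne_zero c0, ← mul_assoc, jac_prime y hr]
  nth_rw 2 [← hy]
  rw [j1_leg_map, ← jac_prime y hz, jac_sq k.of_mul_right_left.of_mul_left_right, one_mul]
  exact ih c ⟨c0, z * r z, fun e => hz.not_isUnit (isUnit_of_mul_isUnit_left e), by ring⟩
    ((h.of_mul_left (.refl _) hz.ne_zero).of_mul_left (.refl _) hr.ne_zero)
    k.of_mul_right_right.of_mul_right_right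

omit [Module.Free ℤ O] [Module.Finite ℤ O] in
theorem jac_chg {M' : ℕ} (h : M' ∣ M) (a : O) {b : O} (k : IsCoprime b (M : O)) :
    jac M a b = jac M' a b := by
  induction b using UniqueFactorizationMonoid.induction_on_prime with
  | h₁ => simp [jac_zero]
  | h₂ x hx => simp [jac_unit _ hx]
  | h₃ x p hx hp ih =>
    have n : (M : O) ∉ Ideal.span {p} := fun e => hp.not_isUnit
      (k.of_mul_left_left.isUnit_of_dvd' dvd_rfl (Ideal.mem_span_singleton.1 e))
    rw [jac_mul_right a hp.ne_zero hx, jac_mul_right a hp.ne_zero hx, ih k.of_mul_left_right,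
      jac_prime a hp, jac_prime a hp, leg, leg, if_neg n,
      if_neg fun e => n (Ideal.mem_of_dvd _ (Nat.cast_dvd_cast h) e)]

theorem jac_eq_of {a b c : O} (h : jac M (a * b) c = 1) : jac M a c = jac M b c := by
  rw [jac_mul_left] at h
  rcases jac_tri (M := M) a c with k | k | k <;> rw [k] at h ⊢ <;> omega

omit [Module.Finite ℤ O] in
/-- Reduction modulo an element of prime norm. -/
theorem exists_psi (hl : l.Prime) (h : Ideal.absNorm (Ideal.span {x}) = l) :
    ∃ ψ : O →+* ZMod l, ∀ a, ψ a = 0 ↔ x ∣ a := by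
  have h1 : Nat.card (O ⧸ Ideal.span {x}) = l := h
  have := Nat.finite_of_card_ne_zero (h1 ▸ hl.ne_zero)
  let _ := Fintype.ofFinite (O ⧸ Ideal.span {x})
  refine ⟨(ZMod.ringEquivOfPrime _ hl (Nat.card_eq_fintype_card.symm.trans h1)).symm.toRingHom.comp
    (Ideal.Quotient.mk _), fun a => ?_⟩
  simp [Ideal.Quotient.eq_zero_iff_mem, Ideal.mem_span_singleton]

omit [Module.Free ℤ O] [Module.Finite ℤ O] in
theorem jac_psi [Fact l.Prime] (hx : Prime x) (hM : ¬ x ∣ M) (ψ : O →+* ZMod l)
    (h : ∀ a, ψ a = 0 ↔ x ∣ a) {a : O} {k : ℤ} (e : ψ a = k) : jac M a x = J(k | l) := by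
  have h1 : (∃ t, t * t - a ∈ Ideal.span {x}) ↔ IsSquare (k : ZMod l) := by
    simp only [Ideal.mem_span_singleton, ← h, map_sub, map_mul, e, sub_eq_zero]
    refine ⟨fun ⟨t, ht⟩ => ⟨_, ht.symm⟩, fun ⟨t, ht⟩ => ?_⟩
    obtain ⟨t, rfl⟩ := ZMod.intCast_surjective t
    exact ⟨t, by rw [map_intCast, ht]⟩
  rw [jac_prime a hx, leg, if_neg (mt Ideal.mem_span_singleton.1 hM),
    ← jacobiSym.legendreSym.to_jacobiSym, legendreSym, quadraticChar_apply, quadraticCharFun]
  simp only [h1]
  simp only [Ideal.mem_span_singleton, ← h, e]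

omit [Module.Finite ℤ O] in
theorem prime_of_norm (hl : l.Prime) (h : Ideal.absNorm (Ideal.span {x}) = l) : Prime x :=
  Ideal.prime_of_irreducible_absNorm_span (fun e => hl.ne_zero (by simp [← h, e])) (h ▸ hl)

omit [Module.Finite ℤ O] in
/-- Primes with prime residue field have prime norm. -/
theorem norm_of_int (hl : l.Prime) (hx : Prime x) (h : x ∣ l) (k : ∀ a, ∃ n : ℤ, x ∣ a - n) :
    Ideal.absNorm (Ideal.span {x}) = l := by
  let P := Ideal.span {x}
  have : Nontrivial (O ⧸ P) := Ideal.Quotient.nontrivial_iff.2 fun e =>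
    hx.not_isUnit (Ideal.span_singleton_eq_top.1 e)
  have := Fact.mk hl
  have : CharP (O ⧸ P) l := (CharP.charP_iff_prime_eq_zero hl).2 (by
    rw [← map_natCast (Ideal.Quotient.mk P), Ideal.Quotient.eq_zero_iff_mem]
    exact Ideal.mem_span_singleton.2 h)
  change Nat.card (O ⧸ P) = l
  rw [← Nat.card_eq_of_bijective (ZMod.castHom dvd_rfl (O ⧸ P)) ⟨RingHom.injective _, fun a => ?_⟩,
    Nat.card_zmod]
  obtain ⟨a, rfl⟩ := Ideal.Quotient.mk_surjective a
  obtain ⟨n, hn⟩ := k a
  exact ⟨n, by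
    rw [map_intCast, ← map_intCast (Ideal.Quotient.mk P)]
    exact (Ideal.Quotient.eq.2 (Ideal.mem_span_singleton.2 hn)).symm⟩

end Pool.Agent.Spin
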