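import Pool.Agent.Lib.MP_696deb_nt.SPN.LP
import Pool.Agent.Lib.MP_696deb_nt.B7.Top7
import Pool.Agent.Lib.MP_696deb_nt.B7.GZ7z
import Pool.Agent.Lib.MP_696deb_nt.B7.GK7w

/-! Twists by a prime of the curves of conductor eleven and nineteen. -/

set_option autoImplicit false

open scoped Classical NumberTheorySymbols
open Function

namespace Pool.Agent.B6.S.SPN

open Pool.Agent.Lib.MP_696deb_nt Pool.Agent.Lib.MP_696deb_nt.Sm Pool.Agent.B4.GE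

/-- The change of model, with the coefficients. -/
theorem model [Cw] (h1 : WZ.Δ < 0) (h2 : ∀ x : ℚ, cub x ≠ 0) :
    ∃ C : Cv, C.a = WZ.b₂ ∧ C.b = 8 * WZ.b₄ ∧ C.c = 16 * WZ.b₆ ∧
      ∀ D : ℤ, D ≠ 0 → (C.AA D 0).ncard < 4 → Cork D := by
  obtain ⟨C, ha, hb, hc⟩ := exists_Cv (a := WZ.b₂) (b := 8 * WZ.b₄) (c := 16 * WZ.b₆)
    (by
      have e : dsc WZ.b₂ (8 * WZ.b₄) (16 * WZ.b₆) = 256 * WZ.Δ := by
        rw [dsc, WeierstrassCurve.Δ]
        linear_combination (64 * WZ.b₂ ^ 2) * WZ.b_relation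
      rw [e]
      omega)
    fun x hx => h2 (x / 4) (by
      have := congrArg (Int.cast (R := ℚ)) hx
      push_cast at this
      rw [cub]
      linear_combination this / 16)
  have h : VC (RingHom.id Qb) (Wu.baseChange Qb) (C.W Qb) 2 0 WZ.a₁ (4 * WZ.a₃) := by
    refine ⟨two_ne_zero, ?_, ?_, ?_, ?_, ?_⟩ <;>
      simp only [RingHom.id_apply, Wu_a₁, Wu_a₂, Wu_a₃, Wu_a₄, Wu_a₆, Cv.W, ha, hb, hc,
        WeierstrassCurve.b₂, WeierstrassCurve.b₄, WeierstrassCurve.b₆] <;> push_cast <;> ring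
  refine ⟨C, ha, hb, hc, fun D hD => cork_of (ψ := h.hom) h.hom_injective (fun g P => ?_) hD⟩
  rcases P with _ | ⟨x, y, hP⟩
  · exact (map_zero (C.act g)).symm
  · obtain ⟨h', e⟩ := C.act_some g ((h.nonsingular x y).2 hP)
    refine Eq.trans ?_ e.symm
    change WeierstrassCurve.Affine.Point.some _ _ _ = _
    congr 1 <;> simp [map_ofNat]

/-- All the data of a curve. -/
structure Pk [Cw] (C : Cv) (p q s : ℤ) (t : Fin 3 → Qb) (E : Fin 3 → ℤ) : Prop where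
  ok : Ok C
  tf : Tf C p q s t
  he : ∀ i, C.e i = ev (t i) E
  h4 : ∀ n : ℤ, n ^ 2 ∣ dg p q → n ∣ 2
  ck : ∀ D : ℤ, D ≠ 0 → (C.AA D 0).ncard < 4 → Cork D

/-- The twists by large primes that do not split completely, or whose symbol is minus one, have the
property `P`. -/
def Link (p q : ℤ) (E : Fin 3 → ℤ) (P : ℤ → Prop) : Prop := ∃ N : ℕ, ∀ l : ℕ, l.Prime → N < l →
  (∀ D : ℤ, D.natAbs = l →
    (∀ r r' : ℤ, (l : ℤ) ∣ gv p q r → (l : ℤ) ∣ gv p q r' → (l : ℤ) ∣ r - r') → P D) ∧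
  ∀ (m : Fin 3 → ℤ) (r r' : ℤ), (nm p q m).natAbs = l → Even (m 1) → (l : ℤ) ∣ gv p q r →
    (l : ℤ) ∣ gv p q r' → ¬ (l : ℤ) ∣ r - r' → (l : ℤ) ∣ ev r m →
    J((ev r E - ev r' E) * ev r' m | l) = -1 → P (nm p q m)

variable {C : Cv} {p q s : ℤ} {t : Fin 3 → Qb} {E m : Fin 3 → ℤ} {P Q : ℤ → Prop}

theorem Pk.link [Cw] (h : Pk C p q s t E) : Link p q E Cork :=
  ⟨C.N0, fun _ hl hN => ⟨fun D hD k => h.ck D (d_ne ⟨hl, hN⟩ hD) (h.tf.lk0 h.ok h.he ⟨hl, hN⟩ hD k),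
    fun _ _ _ hD e hr hr' hne hm hJ => h.ck _ (d_ne ⟨hl, hN⟩ hD)
      (h.tf.lk1 h.ok h.he ⟨hl, hN⟩ hD e hr hr' hne hm hJ)⟩⟩

theorem Link.mono (h : Link p q E P) (N : ℕ)
    (k : ∀ D : ℤ, D.natAbs.Prime → N < D.natAbs → P D → Q D) : Link p q E Q := by
  obtain ⟨N', h⟩ := h
  refine ⟨max N N', fun l hl hN => ?_⟩
  obtain ⟨h1, h2⟩ := h l hl (lt_of_le_of_lt (le_max_right _ _) hN)
  have h3 : ∀ D : ℤ, D.natAbs = l → P D → Q D := fun D hD =>
    k D (hD ▸ hl) (hD ▸ lt_of_le_of_lt (le_max_left _ _) hN)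
  exact ⟨fun D hD a => h3 D hD (h1 D hD a), fun m r r' hD e a b c d f =>
    h3 _ hD (h2 m r r' hD e a b c d f)⟩

theorem Tf.ev_zero (h : Tf C p q s t) (k : ∀ i, ev (t i) m = 0) (i : Fin 3) : m i = 0 := by
  obtain ⟨n1, n2, n3⟩ := h.ne
  have k0 := k 0
  have k1 := k 1
  have k2 := k 2
  rw [Cv.ev3] at k0 k1 k2
  have a : (m 1 : Qb) + m 2 * (t 0 + t 1) = 0 :=
    (mul_eq_zero.1 (by linear_combination k0 - k1)).resolve_left n1
  have b : (m 1 : Qb) + m 2 * (t 1 + t 2) = 0 :=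
    (mul_eq_zero.1 (by linear_combination k1 - k2)).resolve_left n2
  have c : (m 2 : Qb) = 0 := (mul_eq_zero.1 (by linear_combination b - a)).resolve_left n3
  have d : (m 1 : Qb) = 0 := by linear_combination a - (t 0 + t 1) * c
  have e : (m 0 : Qb) = 0 := by linear_combination k0 - t 0 * d - t 0 ^ 2 * c
  rcases fin3 i with rfl | rfl | rfl
  exacts [Int.cast_eq_zero.1 e, Int.cast_eq_zero.1 d, Int.cast_eq_zero.1 c]

/-- Elements of norm one with even middle coordinate are squares, in every ring. -/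
theorem Pk.sq [Cw] (h : Pk C p q s t E) (k : nm p q m = 1) (e : Even (m 1)) :
    ∃ m' : Fin 3 → ℤ, ∀ (R : Type) [CommRing R] (x : R), gv p q x = 0 → ev x m = ev x m' ^ 2 := by
  obtain ⟨u, hu⟩ := h.tf.sq_unit h.ok h.h4 k e
  have a : ∀ (R : Type) [CommRing R] (x : R), gv p q x = 0 → ev x m - ev x u ^ 2 = ev x
      ![m 0 - (u 0 ^ 2 - 4 * u 1 * u 2 + 4 * p * u 2 ^ 2),
        m 1 - (2 * u 0 * u 1 - 4 * q * u 1 * u 2 + (4 * p * q - 2) * u 2 ^ 2),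
        m 2 - (2 * u 0 * u 2 + u 1 ^ 2 - 4 * p * u 1 * u 2 + (4 * p ^ 2 - 2 * q) * u 2 ^ 2)] :=
    fun R _ x hx => by
      simp only [Cv.ev3, gv, Matrix.cons_val] at hx ⊢
      push_cast
      linear_combination -((u 2 : R) ^ 2 * x + 2 * u 1 * u 2 - 2 * p * u 2 ^ 2) * hx
  refine ⟨u, fun R _ x hx => sub_eq_zero.1 ?_⟩
  have b := h.tf.ev_zero fun i => (a Qb (t i) (h.tf.root i)).symm.trans (sub_eq_zero.2 (hu i))
  rw [a R x hx, Cv.ev3, b 0, b 1, b 2]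
  simp

theorem tf_quad {A B K : ℤ} (a b c d : ℤ) (ha : C.a = A) (hb : C.b = B) (hc : C.c = K) (hd : d ≠ 0)
    (h1 : 3 * a - b * A + c * (A ^ 2 - 2 * B) = -2 * p * d)
    (h2 : 3 * a ^ 2 - 2 * a * b * A + 2 * a * c * (A ^ 2 - 2 * B) + b ^ 2 * B +
      b * c * (3 * K - A * B) + c ^ 2 * (B ^ 2 - 2 * A * K) = 2 * q * d ^ 2)
    (h3 : a ^ 3 - a ^ 2 * b * A + a ^ 2 * c * (A ^ 2 - 2 * B) + a * b ^ 2 * B +
      a * b * c * (3 * K - A * B) + a * c ^ 2 * (B ^ 2 - 2 * A * K) - b ^ 3 * K + b ^ 2 * c * A * K -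
      b * c ^ 2 * B * K + c ^ 3 * K ^ 2 = -2 * d ^ 3)
    (n : dg p q < 0) (g : -100 ≤ dg p q) (o : Odd s) (u : s ^ 2 + p = q * s) :
    Tf C p q s fun i => (a + b * C.e i + c * C.e i ^ 2) / d := by
  subst ha hb hc
  have d0 : (d : Qb) ≠ 0 := Int.cast_ne_zero.2 hd
  have k1 := congrArg (Int.cast (R := Qb)) h1
  have k2 := congrArg (Int.cast (R := Qb)) h2
  have k3 := congrArg (Int.cast (R := Qb)) h3
  push_cast at k1 k2 k3
  simp only [C.ha, C.hb, C.hc] at k1 k2 k3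
  refine ⟨fun g _ i => by simp [C.e_pm], ?_, ?_, ?_, n, g, o, u⟩ <;> field_simp
  · linear_combination k1
  · linear_combination k2
  · linear_combination k3

theorem ok_of {a b c : ℤ} {N k : ℕ} (ha : C.a = 4 * a) (hb : C.b = 16 * b) (hc : C.c = 16 * c)
    (o : Odd c) (hN : N.Prime) (hk : Odd k) (hd : dsc (4 * a) (16 * b) (16 * c) = -(2 ^ 8 * N ^ k))
    (h : ¬ (N : ℤ) ∣ (4 * a) ^ 2 - 3 * (16 * b)) : Ok C := by
  refine ⟨⟨a, b, c, ha, hb, hc, o⟩, fun v hv h2 hv' => ?_⟩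
  rw [Cv.disc, ha, hb, hc, hd] at hv' ⊢
  have n2 : ¬ v ∣ 2 ^ 8 := fun e =>
    h2 ((Nat.prime_dvd_prime_iff_eq hv Nat.prime_two).1 (hv.dvd_of_dvd_pow e))
  have h3 : v ∣ 2 ^ 8 * N ^ k := by exact_mod_cast dvd_neg.1 hv'
  obtain rfl : v = N := (Nat.prime_dvd_prime_iff_eq hv hN).1
    (hv.dvd_of_dvd_pow ((hv.dvd_mul.1 h3).resolve_left n2))
  have := Fact.mk hv
  refine ⟨?_, h⟩
  rw [padicValInt, Int.natAbs_neg, Int.natAbs_mul, Int.natAbs_pow, Int.natAbs_pow,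
    Int.natAbs_natCast, padicValNat.mul (by norm_num) (pow_ne_zero _ hv.ne_zero),
    padicValNat.prime_pow, padicValNat.eq_zero_of_not_dvd (n := Int.natAbs 2 ^ 8) n2, zero_add]
  exact hk

theorem h4_of {N : ℤ} (hN : Prime N) (h2 : ¬ N ∣ 2) (n : ℤ) (h : n ^ 2 ∣ -(2 ^ 2 * N)) : n ∣ 2 := by
  have a : IsCoprime n N := (hN.coprime_iff_not_dvd.2 fun e => by
    have := ((pow_dvd_pow_of_dvd e 2).trans (dvd_neg.1 h))
    rw [sq, mul_dvd_mul_iff_right hN.ne_zero] at this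
    exact h2 (hN.dvd_of_dvd_pow this)).symm
  exact (Int.pow_dvd_pow_iff two_ne_zero).1 (a.pow_left.dvd_of_dvd_mul_right (dvd_neg.1 h))

theorem pk11 : ∃ C t, @Pk cs11.toCw C (-1) 0 (-1) t ![0, -14, 8] := by
  obtain ⟨C, ha, hb, hc, k⟩ := @model cs11.toCw (@WZ_neg cs11) (@cub_irr cs11)
  replace ha : C.a = 4 * -1 := ha
  replace hb : C.b = 16 * -10 := hb
  replace hc : C.c = 16 * -79 := hc
  refine ⟨C, _, @Pk.mk cs11.toCw _ _ _ _ _ _ (ok_of ha hb hc (by decide) Nat.prime_eleven (k := 5)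
    (by decide) (by decide) (by decide)) (tf_quad 384 1 (-2) 242 ha hb hc (by decide) (by decide)
    (by decide) (by decide) (by decide) (by decide) (by decide) (by decide)) (fun i => ?_)
    (h4_of (N := 11) (Int.prime_iff_natAbs_prime.2 Nat.prime_eleven) (by decide)) k⟩
  have h := C.root i
  simp only [Cv.ev3, Matrix.cons_val, ha, hb, hc] at h ⊢
  push_cast at h ⊢
  linear_combination -(8 * C.e i + 24) / 14641 * h

theorem pk19 : ∃ C t, @Pk cs19.toCw C 1 2 1 t ![16, 10, 8] := by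
  obtain ⟨C, ha, hb, hc, k⟩ := @model cs19.toCw (@WZ_neg cs19) (@cub_irr cs19)
  replace ha : C.a = 4 * 1 := ha
  replace hb : C.b = 16 * -9 := hb
  replace hc : C.c = 16 * -59 := hc
  refine ⟨C, _, @Pk.mk cs19.toCw _ _ _ _ _ _ (ok_of ha hb hc (by decide) (N := 19) (by norm_num)
    (k := 3) (by decide) (by decide) (by decide)) (tf_quad (-240) (-9) 2 38 ha hb hc (by decide)
    (by decide) (by decide) (by decide) (by decide) (by decide) (by decide) (by decide))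
    (fun i => ?_) (h4_of (N := 19) (Int.prime_iff_natAbs_prime.2 (by norm_num)) (by decide)) k⟩
  have h := C.root i
  simp only [Cv.ev3, Matrix.cons_val, ha, hb, hc] at h ⊢
  push_cast at h ⊢
  linear_combination -(8 * C.e i - 104) / 361 * h

/-- The conclusion for the twist by `D`: both ranks are equal to the parity given by the sign. -/
def Fine (N : ℕ) (c₄ c₆ D : ℤ) : Prop := ∀ a b : ℤ, a = -27 * c₄ * D ^ 2 → b = -54 * c₆ * D ^ 3 →
  Both a b (if D.sign * J(D | N) = 1 then 0 else 1)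

theorem fine_of [Cs] {M : MD Wu NN} (n : G5.Nw M) (hp : NN.Prime)
    (k : ∀ d, Squarefree d → B7.Cnv M.c d) (D : ℤ) (h1 : D.natAbs.Prime) (h2 : NN < D.natAbs)
    (h : Cork D) : Fine NN WZ.c₄ WZ.c₆ D := fun a b ha hb => by
  obtain ⟨G, g1, g2, g3, g4, g5⟩ := res_of (k D (Int.squarefree_natAbs.1 h1.squarefree) h) ha hb
  refine ⟨G, g1, g2, g3, g4, g5.trans ?_⟩
  rw [B7.rootNo_pr n hp, if_neg fun e =>
    h2.ne ((Nat.prime_dvd_prime_iff_eq hp h1).1 (Int.natCast_dvd.1 e))]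
  split_ifs <;> rfl

theorem fine11 (D : ℤ) (h1 : D.natAbs.Prime) (h2 : 11 < D.natAbs) (h : @Cork cs11.toCw D) :
    Fine 11 496 20008 D :=
  let ⟨_, n, k⟩ := @B7.cnv_new cs11 G7.gz_stmt G7.gk_stmt _ _
    (@B7.Sq.mk cs11 _ (by norm_num) rfl (by decide) (by decide)) (by decide) B7.md11h
  @fine_of cs11 _ n Nat.prime_eleven k D h1 h2 h

theorem fine19 (D : ℤ) (h1 : D.natAbs.Prime) (h2 : 19 < D.natAbs) (h : @Cork cs19.toCw D) :
    Fine 19 448 10088 D :=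
  let ⟨_, n, k⟩ := @B7.cnv_new cs19 G7.gz_stmt G7.gk_stmt _ _
    (@B7.Sq.mk cs19 _ (by norm_num) rfl (by decide) (by decide)) (by decide) B7.md19h
  @fine_of cs19 _ n (by norm_num : Nat.Prime 19) k D h1 h2 h

theorem top11 : Link (-1) 0 ![0, -14, 8] (Fine 11 496 20008) :=
  let ⟨_, _, h⟩ := pk11
  (@Pk.link _ _ _ _ _ _ cs11.toCw h).mono 11 fine11

theorem top19 : Link 1 2 ![16, 10, 8] (Fine 19 448 10088) :=
  let ⟨_, _, h⟩ := pk19
  (@Pk.link _ _ _ _ _ _ cs19.toCw h).mono 19 fine19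

/-- The symbol for conductor eleven. -/
theorem jac11 {l : ℕ} (hl : l.Prime) (h : 11 < l) {r r' : ℤ} (hr : (l : ℤ) ∣ gv (-1) 0 r)
    (hr' : (l : ℤ) ∣ gv (-1) 0 r') (hne : ¬ (l : ℤ) ∣ r - r') (x : ℤ) :
    J((ev r ![0, -14, 8] - ev r' ![0, -14, 8]) * x | l) = J(2 * (r - r') * x | l) := by
  have hp : Prime (l : ℤ) := Nat.prime_iff_prime_int.1 hl
  obtain ⟨z, hz⟩ : ∃ z, z = 2 - r - r' := ⟨_, rfl⟩
  have a : (l : ℤ) ∣ r ^ 2 + r * r' + r' ^ 2 - 2 * (r + r') :=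
    (hp.dvd_or_dvd ((hr.sub hr').trans (dvd_of_eq (by simp only [gv]; push_cast; ring)))).resolve_left
      hne
  have b : (l : ℤ) ∣ z ^ 3 - 2 * z ^ 2 + 2 := (hr.add (a.mul_left (z - r))).trans
    (dvd_of_eq (by simp only [gv, hz]; push_cast; ring))
  have c : (l : ℤ) ∣ (1 + 2 * z - 2 * z ^ 2) ^ 2 - (1 - 4 * z) :=
    (b.mul_left (4 * z)).trans (dvd_of_eq (by ring))
  have d : (1 + 2 * z - 2 * z ^ 2).gcd l = 1 := by
    rw [← Int.isCoprime_iff_gcd_eq_one, isCoprime_comm, hp.coprime_iff_not_dvd]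
    intro e
    have f : (l : ℤ) ∣ 1 - 4 * z := by simpa using (dvd_pow e two_ne_zero).sub c
    have g : (l : ℤ) ∣ 11 ^ 2 := ((b.mul_left 64).add (f.mul_left (16 * z ^ 2 - 28 * z - 7))).trans
      (dvd_of_eq (by ring))
    have := Int.le_of_dvd (by norm_num) (hp.dvd_of_dvd_pow g)
    omega
  rw [← mul_one J(2 * (r - r') * x | l), ← jacobiSym.sq_one' d, ← jacobiSym.mul_left]
  refine jacobiSym.mod_left' (Int.modEq_iff_dvd.2
    ((c.mul_left (2 * (r - r') * x)).trans (dvd_of_eq ?_)))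
  simp only [Cv.ev3, Matrix.cons_val, hz]
  push_cast
  ring

/-- The statement for conductor eleven in plain form. -/
theorem link11 : ∃ N : ℕ, ∀ l : ℕ, l.Prime → N < l →
    (∀ D : ℤ, D.natAbs = l → (∀ r r' : ℤ, (l : ℤ) ∣ gv (-1) 0 r → (l : ℤ) ∣ gv (-1) 0 r' →
      (l : ℤ) ∣ r - r') → Fine 11 496 20008 D) ∧
    ∀ (m : Fin 3 → ℤ) (r r' : ℤ), (nm (-1) 0 m).natAbs = l → Even (m 1) → (l : ℤ) ∣ gv (-1) 0 r →
      (l : ℤ) ∣ gv (-1) 0 r' → ¬ (l : ℤ) ∣ r - r' → (l : ℤ) ∣ ev r m →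
      J(2 * (r - r') * ev r' m | l) = -1 → Fine 11 496 20008 (nm (-1) 0 m) := by
  obtain ⟨N, h⟩ := top11
  refine ⟨max N 11, fun l hl hN => ?_⟩
  obtain ⟨h1, h2⟩ := h l hl (lt_of_le_of_lt (le_max_left _ _) hN)
  exact ⟨h1, fun m r r' hD e a b c d f => h2 m r r' hD e a b c d
    ((jac11 hl (lt_of_le_of_lt (le_max_right _ _) hN) a b c _).trans f)⟩

end Pool.Agent.B6.S.SPN
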