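import Pool.Agent.Lib.MP_696deb_nt.SPN.LB
import Pool.Agent.Lib.MP_696deb_nt.SPN.LT

/-! The sextic ring and the symbol of the descent. -/

set_option autoImplicit false

open scoped Classical NumberTheorySymbols
open NumberField Ideal

namespace Pool.Agent.B6.S.SPN

open Pool.Agent.Spin

variable {K : Type} [Field K] [NumberField K]

/-- The integers of the splitting field of `t ^ 3 + 2 p t ^ 2 + 2 q t + 2`. -/
structure Bx (p q s : ℤ) (t : Fin 3 → 𝓞 K) (σ ρ : 𝓞 K ≃+* 𝓞 K) : Prop where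
  s1 : t 0 + t 1 + t 2 = -2 * p
  s2 : t 0 * t 1 + t 0 * t 2 + t 1 * t 2 = 2 * q
  s3 : t 0 * t 1 * t 2 = -2
  σ0 : σ (t 0) = t 1
  σ1 : σ (t 1) = t 2
  ρ0 : ρ (t 0) = t 0
  sss : ∀ x, σ (σ (σ x)) = x
  rr : ∀ x, ρ (ρ x) = x
  rs : ∀ x, ρ (σ x) = σ (σ (ρ x))
  fix : ∀ x, ρ x = x → ∃ m : Fin 3 → ℤ, x = m 0 + m 1 * t 0 + m 2 * t 0 ^ 2
  norm : ∀ x, x * σ x * σ (σ x) * ρ x * ρ (σ x) * ρ (σ (σ x)) = (absNorm (span {x}) : ℕ)
  odd : Odd s
  unit : s ^ 2 + p = q * s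
  h8 : 4 * p ^ 2 - 6 * q ∣ 8

variable {p q s : ℤ} {t : Fin 3 → 𝓞 K} {σ ρ : 𝓞 K ≃+* 𝓞 K} {x y β : 𝓞 K} {m E : Fin 3 → ℤ}
  {l M : ℕ}

theorem two_nu : ¬ IsUnit (2 : 𝓞 K) := fun h => ne_of_odd (isCoprime_zero_left.2 h) rfl

theorem map_ev {R S F : Type} [CommRing R] [CommRing S] [FunLike F R S] [RingHomClass F R S]
    (f : F) (x : R) (m : Fin 3 → ℤ) : f (ev x m) = ev (f x) m := by simp [Cv.ev3]

theorem int_dvd (hl : l.Prime) (hx : Prime x) (k : x ∣ l) {a : ℤ} (e : x ∣ a) : (l : ℤ) ∣ a := by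
  by_contra n
  obtain ⟨u, v, c⟩ := (Nat.prime_iff_prime_int.1 hl).coprime_iff_not_dvd.2 n
  refine hx.not_dvd_one (((k.mul_left u).add (e.mul_left v)).trans (dvd_of_eq ?_))
  exact_mod_cast c

omit [NumberField K] in
theorem cast_dvd (k : x ∣ l) {a : ℤ} (e : (l : ℤ) ∣ a) : x ∣ a := by
  obtain ⟨c, rfl⟩ := e
  push_cast
  exact k.mul_right _

namespace Bx

variable (h : Bx p q s t σ ρ)
include h

theorem ρ1 : ρ (t 1) = t 2 := by rw [← h.σ0, h.rs, h.ρ0, h.σ0, h.σ1]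

theorem ρ2 : ρ (t 2) = t 1 := by rw [← h.ρ1, h.rr]

theorem σ2 : σ (t 2) = t 0 := by rw [← h.σ1, ← h.σ0, h.sss]

theorem r0 : ρ.trans σ (t 0) = t 1 := by simp [h.ρ0, h.σ0]

theorem r1 : ρ.trans σ (t 1) = t 0 := by simp [h.ρ1, h.σ2]

theorem r2 : ρ.trans σ (t 2) = t 2 := by simp [h.ρ2, h.σ1]

theorem rr' (x : 𝓞 K) : ρ.trans σ (ρ.trans σ x) = x := by simp [h.rs, h.sss, h.rr]

theorem fix0 (k : ρ x = x) : ∃ m, x = ev (t 0) m := by simpa only [Cv.ev3] using h.fix x k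

theorem fix2 (k : ρ.trans σ x = x) : ∃ m, x = ev (t 2) m := by
  obtain ⟨m, hm⟩ := h.fix0 (x := σ x) (by rw [h.rs]; exact congrArg σ k)
  exact ⟨m, by rw [← h.sss x, hm, map_ev, map_ev, h.σ0, h.σ1]⟩

theorem root (i : Fin 3) : gv p q (t i) = 0 := by
  rw [gv]
  rcases fin3 i with rfl | rfl | rfl
  · linear_combination t 0 ^ 2 * h.s1 - t 0 * h.s2 + h.s3
  · linear_combination t 1 ^ 2 * h.s1 - t 1 * h.s2 + h.s3
  · linear_combination t 2 ^ 2 * h.s1 - t 2 * h.s2 + h.s3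

theorem prod_ev (m : Fin 3 → ℤ) : ev (t 0) m * ev (t 1) m * ev (t 2) m = (nm p q m : ℤ) := by
  have a : ∀ a b c : 𝓞 K, ev a m * ev b m * ev c m = m 0 ^ 3 + m 0 ^ 2 * m 1 * (a + b + c) +
      m 0 * m 1 ^ 2 * (a * b + a * c + b * c) + m 1 ^ 3 * (a * b * c) +
      m 0 ^ 2 * m 2 * ((a + b + c) ^ 2 - 2 * (a * b + a * c + b * c)) +
      m 0 * m 1 * m 2 * ((a + b + c) * (a * b + a * c + b * c) - 3 * (a * b * c)) +
      m 1 ^ 2 * m 2 * (a + b + c) * (a * b * c) +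
      m 0 * m 2 ^ 2 * ((a * b + a * c + b * c) ^ 2 - 2 * (a + b + c) * (a * b * c)) +
      m 1 * m 2 ^ 2 * (a * b + a * c + b * c) * (a * b * c) + m 2 ^ 3 * (a * b * c) ^ 2 :=
    fun a b c => by simp only [Cv.ev3]; ring
  rw [a, h.s1, h.s2, h.s3, nm]
  push_cast
  ring

theorem cube (i : Fin 3) : t i ^ 3 = 2 * -(1 + q * t i + p * t i ^ 2) := by
  have := h.root i
  rw [gv] at this
  linear_combination this

theorem two_dvd (i : Fin 3) : 2 ∣ t i ^ 3 := ⟨_, h.cube i⟩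

theorem cube_dvd (i : Fin 3) : t i ^ 3 ∣ 2 := by
  have a : -(1 + q * t 0 + p * t 0 ^ 2) * -(1 + q * t 1 + p * t 1 ^ 2) *
      -(1 + q * t 2 + p * t 2 ^ 2) = -1 := mul_left_cancel₀ (a := 8) (by norm_num) (by
    have := congrArg (· ^ 3) h.s3
    simp only [mul_pow, h.cube] at this
    linear_combination this)
  have b : -(1 + q * t i + p * t i ^ 2) ∣ -1 := by
    refine Dvd.dvd.trans ?_ a.dvd
    rcases fin3 i with rfl | rfl | rfl
    exacts [(dvd_mul_right _ _).mul_right _, (dvd_mul_left _ _).mul_right _, dvd_mul_left _ _]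
  rw [h.cube]
  simpa using mul_dvd_mul_left (2 : 𝓞 K) b

theorem dvd (i j : Fin 3) : t i ∣ t j := (IsIntegrallyClosed.pow_dvd_pow_iff three_ne_zero).1
  ((h.cube_dvd i).trans (h.two_dvd j))

theorem sq_dvd (i : Fin 3) : t i ^ 2 ∣ 2 := (pow_dvd_pow _ (by norm_num)).trans (h.cube_dvd i)

theorem dvd_two (i : Fin 3) : t i ∣ 2 := (dvd_pow_self _ two_ne_zero).trans (h.sq_dvd i)

theorem ne (i : Fin 3) : t i ≠ 0 := ne_zero_of_dvd_ne_zero two_ne_zero (h.dvd_two i)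

theorem nu (i : Fin 3) : ¬ t i ∣ 1 := fun k =>
  two_nu (isUnit_of_dvd_unit (h.two_dvd i) ((isUnit_of_dvd_one k).pow 3))

theorem ev_par (i : Fin 3) (m : Fin 3 → ℤ) :
    t i ^ 2 ∣ ev (t i) m - ((m 0 % 2 : ℤ) + (m 1 % 2 : ℤ) * t i) := by
  obtain ⟨w, hw⟩ := h.sq_dvd i
  refine ⟨w * ((m 0 / 2 : ℤ) + (m 1 / 2 : ℤ) * t i) + m 2, ?_⟩
  rw [Cv.ev3, Int.emod_def, Int.emod_def]
  push_cast
  linear_combination (((m 0 / 2 : ℤ) : 𝓞 K) + (m 1 / 2 : ℤ) * t i) * hw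

theorem odd0 {i : Fin 3} (k : ¬ t i ∣ ev (t i) m) : m 0 % 2 = 1 :=
  (Int.emod_two_eq_zero_or_one _).resolve_left fun e => k (by
    have := (dvd_pow_self _ two_ne_zero).trans (h.ev_par i m)
    rw [e, Int.cast_zero, zero_add] at this
    exact (dvd_sub_left (dvd_mul_left _ _)).1 this)

theorem cop2 (k : ρ.trans σ β = β) (n : ¬ t 2 ∣ β) : IsCoprime β 2 := by
  obtain ⟨m, rfl⟩ := h.fix2 k
  obtain ⟨w, hw⟩ := h.ev_par 2 m
  rw [h.odd0 n] at hw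
  refine IsCoprime.of_isCoprime_of_dvd_right (IsCoprime.pow_right ?_) (h.two_dvd 2)
  exact ⟨1, -(t 2 * w + (m 1 % 2 : ℤ)), by push_cast at hw ⊢; linear_combination hw⟩

theorem even1 (k : t 0 ^ 2 ∣ ev (t 0) m - 1) : Even (m 1) := by
  have a := h.ev_par 0 m
  rw [h.odd0 fun e => h.nu 0 ((dvd_sub_right e).1 ((dvd_pow_self _ two_ne_zero).trans k))] at a
  refine Int.even_iff.2 ((Int.emod_two_eq_zero_or_one _).resolve_right fun e => h.nu 0 ?_)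
  have b : t 0 * t 0 ∣ t 0 * 1 := by simpa [e, sq] using k.sub a
  exact (mul_dvd_mul_iff_left (h.ne 0)).1 b

theorem norm1 (k : ρ x = x) (c : IsCoprime x 2) :
    t 0 ^ 2 ∣ (if t 0 ^ 2 ∣ x - 1 then 1 else 1 + s * t 0) * x - 1 := by
  split_ifs with a
  · rwa [one_mul]
  obtain ⟨m, rfl⟩ := h.fix0 k
  have b := h.ev_par 0 m
  rw [h.odd0 fun e => h.nu 0 (c.isUnit_of_dvd' e (h.dvd_two 0)).dvd] at b
  rcases Int.emod_two_eq_zero_or_one (m 1) with e | e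
  · exact absurd (by simpa [e] using b) a
  obtain ⟨u, hu⟩ := h.odd
  obtain ⟨v, hv⟩ := h.sq_dvd 0
  obtain ⟨w, hw⟩ := b
  refine ⟨(1 + s * t 0) * w + s + (u + 1) * t 0 * v, ?_⟩
  rw [e] at hw
  rw [hu]
  push_cast at hw ⊢
  linear_combination (1 + (2 * u + 1) * t 0) * hw + (u + 1) * t 0 * hv

theorem eps : (1 + s * t 0) * (1 + s * t 1) * (1 + s * t 2) = 1 := by
  have := congrArg (Int.cast (R := 𝓞 K)) h.unit
  push_cast at this
  linear_combination (s : 𝓞 K) * h.s1 + s ^ 2 * h.s2 + s ^ 3 * h.s3 - 2 * s * this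

theorem exists_eta : ∃ η : 𝓞 K, IsUnit η ∧ ∀ x, IsCoprime x 2 → t 2 ∣ x + ρ.trans σ x →
    ¬ t 2 ∣ η * x + ρ.trans σ (η * x) := by
  obtain ⟨η, e⟩ := h.dvd 0 1
  have a : η * ρ.trans σ η = 1 := mul_left_cancel₀ (h.ne 0) (by
    rw [← mul_assoc, ← e, ← h.r0, ← map_mul, ← e, h.r1, mul_one])
  have b : t 0 ∣ 1 + η + η ^ 2 := by
    rw [← mul_dvd_mul_iff_left (pow_ne_zero 2 (h.ne 0)), ← pow_succ]
    refine (h.cube_dvd 0).trans ⟨-(p * (t 0 + t 1) + q), ?_⟩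
    linear_combination (t 0 + t 1) * h.s1 - h.s2 - (t 0 + t 0 * η + t 1 + t 0) * e + t 0 * e
  refine ⟨η, .of_mul_eq_one _ a, fun x c k n => h.nu 2 ?_⟩
  have c' : IsCoprime (t 2) x := (c.of_isCoprime_of_dvd_right (h.dvd_two 2)).symm
  have d : t 2 ∣ (η - ρ.trans σ η) * x :=
    (n.sub (k.mul_left (ρ.trans σ η))).trans (dvd_of_eq (by rw [map_mul]; ring))
  refine ((((h.dvd 2 0).trans b).mul_left (ρ.trans σ η)).sub
    ((c'.dvd_of_dvd_mul_right d).add ((h.dvd_two 2).mul_right (ρ.trans σ η)))).trans (dvd_of_eq ?_)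
  linear_combination (1 + η) * a

theorem gen (y : 𝓞 K) : ∃ m m', 2 * (t 1 - t 2) * y = (t 1 - t 2) * ev (t 0) m + ev (t 0) m' := by
  obtain ⟨m, e⟩ := h.fix0 (x := y + ρ y) (by rw [map_add, h.rr, add_comm])
  obtain ⟨m', e'⟩ := h.fix0 (x := (t 1 - t 2) * (y - ρ y)) (by
    rw [map_mul, map_sub, map_sub, h.rr, h.ρ1, h.ρ2]
    ring)
  exact ⟨m, m', by rw [← e, ← e']; ring⟩

theorem del_dvd (y : 𝓞 K) : t 0 - t 1 ∣ 16 * (y - ρ.trans σ y) := by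
  obtain ⟨m, m', e⟩ := h.gen y
  have e' := congrArg (ρ.trans σ) e
  simp only [map_mul, map_add, map_sub, map_ofNat, map_ev, h.r0, h.r1, h.r2] at e'
  obtain ⟨c, hc⟩ := h.h8
  have hc' := congrArg (Int.cast (R := 𝓞 K)) hc
  have a : t 0 - t 1 ∣ 2 * (t 1 - t 2) * (y - ρ.trans σ y) :=
    ⟨2 * ρ.trans σ y - ev (t 0) m + (t 0 - t 2) * (m 1 + m 2 * (t 0 + t 1)) +
      (m' 1 + m' 2 * (t 0 + t 1)), by
      simp only [Cv.ev3] at e e' ⊢
      linear_combination e - e'⟩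
  refine ((a.mul_left (c * (t 1 - t 2))).add ((dvd_refl _).mul_right
    (2 * c * (t 0 - t 2) * (y - ρ.trans σ y)))).trans (dvd_of_eq ?_)
  push_cast at hc'
  linear_combination (2 * (y - ρ.trans σ y)) * (c * ((t 0 + t 1 + t 2 - 2 * p) * h.s1 - 3 * h.s2) - hc')

theorem norm' (x : 𝓞 K) :
    x * ρ x * σ (x * ρ x) * σ (σ (x * ρ x)) = (absNorm (span {x}) : ℕ) := by
  rw [← h.norm]
  simp only [map_mul, h.rs, h.sss]
  ring

theorem norm_mod (k : 4 ∣ x - y) : absNorm (span {x}) % 4 = absNorm (span {y}) % 4 := by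
  have a : ∀ n : ℤ, (2 : 𝓞 K) ∣ n → 2 ∣ n := fun n hn => by
    rcases Int.even_or_odd' n with ⟨c, rfl | rfl⟩
    · exact dvd_mul_right _ _
    · push_cast at hn
      exact absurd (isUnit_of_dvd_one ((dvd_add_right (dvd_mul_right _ _)).1 hn)) two_nu
  have g : ∀ (g : 𝓞 K ≃+* 𝓞 K) {x y : 𝓞 K}, 4 ∣ x - y → 4 ∣ g x - g y := fun g _ _ k => by
    simpa only [map_sub, map_ofNat] using map_dvd g k
  have b := dvd_mul_sub_mul k (g ρ k)
  have c := dvd_mul_sub_mul (dvd_mul_sub_mul b (g σ b)) (g σ (g σ b))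
  rw [h.norm', h.norm', ← Int.cast_natCast, ← Int.cast_natCast (absNorm (span {y})),
    ← Int.cast_sub] at c
  obtain ⟨n, hn⟩ := a _ (Dvd.dvd.trans ⟨2, by norm_num⟩ c)
  rw [hn, show (4 : 𝓞 K) = 2 * 2 by norm_num, Int.cast_mul, Int.cast_ofNat,
    mul_dvd_mul_iff_left two_ne_zero] at c
  have := a _ c
  omega

variable [IsPrincipalIdealRing (𝓞 K)]

theorem spl (hl : l.Prime) (hM : ¬ l ∣ M) (h8 : 8 * (t 0 - t 1) ∣ (M : 𝓞 K)) {r r' : ℤ}
    (hr : (l : ℤ) ∣ gv p q r) (hr' : (l : ℤ) ∣ gv p q r') (hne : ¬ (l : ℤ) ∣ r - r') :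
    ∃ x : 𝓞 K, absNorm (span {x}) = l := by
  obtain ⟨z, hz, k⟩ := WfDvdMonoid.exists_irreducible_factor (a := (l : 𝓞 K)) (fun e => by
    have := e.map (Algebra.norm ℤ)
    rw [show (l : 𝓞 K) = algebraMap ℤ _ l by simp, Algebra.norm_algebraMap,
      isUnit_pow_iff Module.finrank_pos.ne'] at this
    exact (Nat.prime_iff_prime_int.1 hl).not_isUnit this) (Nat.cast_ne_zero.2 hl.ne_zero)
  have hz := hz.prime
  have a : ∀ r : ℤ, (l : ℤ) ∣ gv p q r → ∃ i, z ∣ t i - r := fun r hr => by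
    have : z ∣ (t 0 - r) * (t 1 - r) * (t 2 - r) := by
      refine (cast_dvd k hr.neg_right).trans (dvd_of_eq ?_)
      rw [gv]
      push_cast
      linear_combination (r : 𝓞 K) * h.s2 - r ^ 2 * h.s1 - h.s3
    rcases hz.dvd_or_dvd this with e | e
    exacts [(hz.dvd_or_dvd e).elim (⟨0, ·⟩) (⟨1, ·⟩), ⟨2, e⟩]
  obtain ⟨i, hi⟩ := a r hr
  obtain ⟨j, hj⟩ := a r' hr'
  have b : ∀ k, ∃ n : ℤ, z ∣ t k - n := fun k' => by
    have ij : j ≠ i := fun e => hne (int_dvd hl hz k ((hj.sub hi).trans (dvd_of_eq (by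
      rw [e]; push_cast; ring))))
    by_cases c : k' = i
    · exact ⟨r, c ▸ hi⟩
    by_cases d : k' = j
    · exact ⟨r', d ▸ hj⟩
    refine ⟨-2 * p - r - r', (hi.add hj).neg_right.trans (dvd_of_eq ?_)⟩
    have := h.s1
    push_cast
    rcases fin3 i with rfl | rfl | rfl <;> rcases fin3 j with rfl | rfl | rfl <;>
      rcases fin3 k' with rfl | rfl | rfl <;> first | contradiction | linear_combination -this
  choose n hn using b
  refine ⟨z, norm_of_int hl hz k fun y => ?_⟩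
  obtain ⟨u, v, e⟩ := (Nat.prime_iff_prime_int.1 hl).coprime_iff_not_dvd.2
    (show ¬ (l : ℤ) ∣ 2 * (n 1 - n 2) from fun e => hM (Int.natCast_dvd_natCast.1 (int_dvd hl hz k (by
      have c := map_dvd σ h8
      rw [map_mul, map_sub, h.σ0, h.σ1, map_natCast, map_ofNat] at c
      refine Dvd.dvd.trans ?_ (c.trans (by simp))
      refine (((cast_dvd k e).mul_left 4).add (((hn 1).sub (hn 2)).mul_left 8)).trans (dvd_of_eq ?_)
      push_cast
      ring))))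
  obtain ⟨m, m', e'⟩ := h.gen y
  refine ⟨v * ((n 1 - n 2) * ev (n 0) m + ev (n 0) m'), mem_span_singleton.1 (Ideal.Quotient.eq.1 ?_)⟩
  have c : ∀ i, Ideal.Quotient.mk (span {z}) (t i) = n i := fun i =>
    (Ideal.Quotient.eq.2 (mem_span_singleton.2 (hn i))).trans (map_intCast _ _)
  have d : (l : 𝓞 K ⧸ span {z}) = 0 :=
    (map_natCast _ l).symm.trans (Ideal.Quotient.eq_zero_iff_mem.2 (mem_span_singleton.2 k))
  have e1 := congrArg (Int.cast (R := 𝓞 K ⧸ span {z})) e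
  have e2 := congrArg (Ideal.Quotient.mk (span {z})) e'
  simp only [map_mul, map_add, map_sub, map_ofNat, c, Cv.ev3, map_intCast, map_pow] at e2 ⊢
  push_cast at e1 ⊢
  linear_combination (v : 𝓞 K ⧸ span {z}) * e2 - Ideal.Quotient.mk (span {z}) y * (e1 - u * d)

theorem inv_sym {e : 𝓞 K → 𝓞 K → ℤ}
    (e3 : ∀ a b, IsCoprime a 2 → IsCoprime b 2 → jac 2 a b = e a b * jac 2 b a)
    (k : IsCoprime y (ρ.trans σ y)) (c : IsCoprime y 2) (c' : IsCoprime (y + ρ.trans σ y) 2) :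
    jac 2 (ρ.trans σ y) y =
      e (y + ρ.trans σ y) y * jac 2 (2 * (t 0 - t 1)) (y + ρ.trans σ y) := by
  have a : IsCoprime y (y + ρ.trans σ y) := by simpa [add_comm] using k.add_mul_left_right 1
  have b : IsCoprime (t 0 - t 1) (y + ρ.trans σ y) := by
    obtain ⟨w, hw⟩ := h.del_dvd y
    have := ((c'.symm.pow_left (m := 5)).mul_left a).add_mul_left_left (-16)
    rw [show 2 ^ 5 * y + (y + ρ.trans σ y) * -16 = (t 0 - t 1) * w by linear_combination hw] at this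
    exact this.of_mul_left_left
  rw [jac_congr (a' := y + ρ.trans σ y) ⟨-1, by ring⟩, e3 _ _ c' c, jac_eq_of (b := 2 * (t 0 - t 1))]
  rw [jac_congr (a' := (t 0 - t 1) * (y - ρ.trans σ y)) ⟨t 0 - t 1, by ring⟩]
  refine jac_fix (δ := t 0 - t 1) (ρ.trans σ) h.rr' ?_ ?_ _ ?_ ((c'.symm.mul_left b).mul_left ?_)
  · rw [map_mul, map_sub, map_sub, h.r0, h.r1, h.rr']
    ring
  · rw [map_sub, h.r0, h.r1, neg_sub]
  · rw [map_add, h.rr', add_comm]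
  · have := ((c'.symm.mul_left b).mul_left a).add_mul_left_left (-(t 0 - t 1))
    rwa [show 2 * (t 0 - t 1) * y + (y + ρ.trans σ y) * -(t 0 - t 1) =
      (t 0 - t 1) * (y - ρ.trans σ y) by ring] at this

end Bx

end Pool.Agent.B6.S.SPN
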