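import Pool.Agent.Lib.MP_696deb_nt.SPN.LN

/-! Even valuations at the odd primes. -/

set_option autoImplicit false

open scoped Classical NNReal
open Finset Function

namespace Pool.Agent.B6.S.SPN

open Pool.Agent.Lib.MP_696deb_nt Pool.Agent.Lib.MP_696deb_nt.Sm

variable {C : Cv} {F F' y w : Fin 3 → Qb} {x : Qb} {g : GQ} {D : ℤ} {v : ℕ} {c : GQ → C.A}
  {i : Fin 3}

/-- The root `i` is apart from the other two. -/
def Ap (C : Cv) (v : ℕ) (i : Fin 3) : Prop := ∀ j, j ≠ i → nrm v (C.e i - C.e j) = 1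

theorem Ev.mul (h : Ev C v F) (k : Ev C v F') : Ev C v fun i => F i * F' i := fun i => by
  obtain ⟨a, h1, h2⟩ := h i
  obtain ⟨b, k1, k2⟩ := k i
  exact ⟨a * b, fun g hg => by rw [map_mul, h1 g hg, k1 g hg], by
    rw [map_mul, h2, k2, map_mul, mul_pow]⟩

theorem ev_unit (h : ∀ i, nrm v (F i) = 1) : Ev C v F := fun i =>
  ⟨1, fun g _ => map_one g, by rw [h, map_one, one_pow]⟩

theorem nrm_p (hv : v.Prime) : nrm v v = (v : ℝ≥0)⁻¹ := by
  have := (pl v).hV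
  rwa [pl_p hv] at this

theorem nrm_zp (hv : v.Prime) (k : ℤ) : nrm v ((v : Qb) ^ k) = ((v : ℝ≥0) ^ k)⁻¹ := by
  rw [map_zpow₀, nrm_p hv, inv_zpow]

theorem nrm_sub_le (C : Cv) (v : ℕ) (i j : Fin 3) : nrm v (C.e i - C.e j) ≤ 1 :=
  (nrm v).map_sub_le (C.nrm_e v i) (C.nrm_e v j)

theorem Ap.fix (h : Ap C v i) (hg : g ∈ Iv v) : C.pm g i = i := by
  by_contra k
  have h1 := hg.2 _ (C.nrm_e v i)
  rw [C.e_pm, Valuation.map_sub_swap] at h1
  exact h1.ne (h _ k)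

theorem prod_rot (F : Fin 3 → Qb) (i : Fin 3) : F 0 * F 1 * F 2 = F i * F (i + 1) * F (i + 2) := by
  rcases fin3 i with rfl | rfl | rfl
  · rfl
  · change _ = F 1 * F 2 * F 0
    ring
  · change _ = F 2 * F 0 * F 1
    ring

theorem ne_rot (i : Fin 3) : i + 1 ≠ i ∧ i + 2 ≠ i := by revert i; decide

theorem Ap.pt (h : Ap C v i) {H : Subgroup GQ} (hi : B2.Fx H (C.e i)) (hD : nrm v D = 1) {X Z : Qb}
    (hX : B2.Fx H X) (hZ : B2.Fx H Z)
    (e : Z ^ 2 = D * ((X - C.e 0) * (X - C.e 1) * (X - C.e 2))) (h0 : X ≠ C.e i) :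
    ∃ z, B2.Fx H z ∧ nrm v (X - C.e i) = nrm v z ^ 2 := by
  have v0 : nrm v (X - C.e i) ≠ 0 := (Valuation.ne_zero_iff _).2 (sub_ne_zero.2 h0)
  have k : ∀ j, X - C.e j = (X - C.e i) + (C.e i - C.e j) := fun e => by ring
  have u1 := h _ (ne_rot i).1
  have u2 := h _ (ne_rot i).2
  have e1 := congrArg (nrm v) e
  rw [prod_rot (fun j => X - C.e j) i, map_mul, map_mul, map_mul, map_pow, hD, one_mul] at e1
  rcases lt_trichotomy (nrm v (X - C.e i)) 1 with c | c | c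
  · refine ⟨Z, hZ, ?_⟩
    rw [e1, k (i + 1), k (i + 2), (nrm v).map_add_eq_of_lt_right (by rwa [u1]),
      (nrm v).map_add_eq_of_lt_right (by rwa [u2]), u1, u2, mul_one, mul_one]
  · exact ⟨1, fun k _ => map_one k, by rw [c, map_one, one_pow]⟩
  · refine ⟨Z / (X - C.e i), fx_div hZ (fx_sub hX hi), ?_⟩
    rw [map_div₀, div_pow, e1, k (i + 1), k (i + 2), (nrm v).map_add_eq_of_lt_left (by rwa [u1]),
      (nrm v).map_add_eq_of_lt_left (by rwa [u2]), mul_assoc, ← sq,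
      mul_div_cancel_right₀ _ (pow_ne_zero 2 v0)]

theorem Ap.even (h : Ap C v i) (hv : v.Prime) (hD : nrm v D = 1) (h0 : ∀ i, F i ≠ 0) {q : Qb}
    (hq : B2.Fx ⊤ q) (e : F 0 * F 1 * F 2 = q ^ 2) (k : Ku C (Gv v) D F) :
    ∃ n : ℤ, nrm v (F i) = (((v : ℝ≥0) ^ n)⁻¹) ^ 2 := by
  have le := Iv_le hv
  suffices s : ∃ z, B2.Fx (Iv v) z ∧ nrm v (F i) = nrm v z ^ 2 by
    obtain ⟨z, hz, s⟩ := s
    obtain ⟨n, hn⟩ := nrm_fx hv hz fun e => h0 i (by simpa [e] using s)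
    exact ⟨n, hn ▸ s⟩
  obtain ⟨y, hy, k⟩ := k
  have fy : B2.Fx (Iv v) (y i) := fun g hg => by rw [hy g (le hg), h.fix hg]
  rcases k with k | ⟨X, Z, hX, hZ, e', k⟩
  · exact ⟨y i, fy, by rw [k, map_pow]⟩
  by_cases hi : X = C.e i
  · have k1 : ∀ j, j ≠ i → nrm v (F j) = nrm v (y j) ^ 2 := fun j hj => by
      rw [k j (hi ▸ C.e_inj.ne hj.symm), map_mul, map_mul, hD, hi, h j hj, map_pow, mul_one, mul_one]
    have y0 : ∀ j, j ≠ i → nrm v (y j) ≠ 0 := fun j hj a => h0 j (by simpa [a] using k1 j hj)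
    refine ⟨q / (y (i + 1) * y (i + 2)), fx_div (fun g _ => hq g trivial) fun g hg => ?_, ?_⟩
    · have a : ∀ (f : Fin 3 → Fin 3) (i : Fin 3), Injective f → f i = i →
        f (i + 1) = i + 1 ∧ f (i + 2) = i + 2 ∨ f (i + 1) = i + 2 ∧ f (i + 2) = i + 1 := by decide
      rw [map_mul, hy g (le hg), hy g (le hg)]
      rcases a _ i (C.pm_inj g) (h.fix hg) with ⟨a, b⟩ | ⟨a, b⟩ <;> rw [a, b]
      exact mul_comm _ _
    · have := y0 _ (ne_rot i).1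
      have := y0 _ (ne_rot i).2
      rw [map_div₀, div_pow, ← map_pow, ← e, prod_rot F i, map_mul, map_mul, map_mul,
        k1 _ (ne_rot i).1, k1 _ (ne_rot i).2]
      field_simp
  · obtain ⟨z, hz, e1⟩ := h.pt (H := Iv v) (fun g hg => by rw [C.e_pm, h.fix hg]) hD
      (fun g hg => hX g (le hg)) (fun g hg => hZ g (le hg)) e' hi
    exact ⟨y i * z, fx_mul fy hz, by
      rw [k i hi, map_mul, map_mul, hD, e1, map_pow, map_mul, one_mul, mul_pow]⟩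

theorem ap_of_not_dvd (hv : v.Prime) (h : ¬ (v : ℤ) ∣ C.disc) (i : Fin 3) : Ap C v i := by
  intro j k
  have h0 := nrm_sub_le C v
  have h1 : nrm v C.del * nrm v C.del = 1 := by
    rw [← map_mul, C.del_sq]
    exact (nrm_int_eq_one hv).2 h
  have h2 : nrm v C.del = nrm v (C.e 0 - C.e 1) * nrm v (C.e 0 - C.e 2) * nrm v (C.e 1 - C.e 2) := by
    rw [Cv.del, map_mul, map_mul]
  have h3 := mul_le_one' (h0 0 1) (h0 0 2)
  have h4 : nrm v C.del ≤ 1 := h2 ▸ mul_le_one' h3 (h0 1 2)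
  obtain ⟨h5, h6⟩ := Cv.sa2_one h3 (h0 1 2) (h2 ▸ (Cv.sa2_one h4 h4 h1).1)
  obtain ⟨h7, h8⟩ := Cv.sa2_one (h0 0 1) (h0 0 2) h5
  rcases fin3 i with rfl | rfl | rfl <;> rcases fin3 j with rfl | rfl | rfl <;>
    first | exact absurd rfl k | assumption | rwa [Valuation.map_sub_swap]

theorem exists_ap (hv : v.Prime) (h : ¬ (v : ℤ) ∣ C.a ^ 2 - 3 * C.b) : ∃ i, Ap C v i := by
  have key : ∀ i j k : Fin 3, i ≠ j → i ≠ k → j ≠ k → nrm v (C.e i - C.e j) < 1 →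
      nrm v (C.e i - C.e k) = 1 := fun i j k h1 h2 h3 a => by
    refine ((nrm_sub_le C v i k).lt_or_eq).resolve_left fun b => h ((nrm_int_lt hv).1 ?_)
    have s := C.split' h1 h2 h3
    have s1 : (C.a : Qb) = _ := s.a2
    have s2 : (C.b : Qb) = _ := s.a4
    rw [show ((C.a ^ 2 - 3 * C.b : ℤ) : Qb) = (C.e i - C.e j) * (C.e j - C.e k) * (-1) +
      (C.e i - C.e k) * (C.e i - C.e k) by push_cast; rw [s1, s2]; ring]
    refine (nrm v).map_add_lt ?_ ?_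
    · rw [mul_neg_one, Valuation.map_neg, map_mul]
      exact mul_lt_one_of_nonneg_of_lt_one_left zero_le a (nrm_sub_le C v j k)
    · rw [map_mul]
      exact mul_lt_one_of_nonneg_of_lt_one_left zero_le b b.le
  have sw : ∀ i j, nrm v (C.e i - C.e j) = nrm v (C.e j - C.e i) := fun i j =>
    Valuation.map_sub_swap _ _ _
  rcases (nrm_sub_le C v 0 1).lt_or_eq with a | a
  · refine ⟨2, fun j hj => ?_⟩
    rcases fin3 j with rfl | rfl | rfl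
    · rw [sw, key 0 1 2 (by decide) (by decide) (by decide) a]
    · rw [sw, key 1 0 2 (by decide) (by decide) (by decide) (sw 0 1 ▸ a)]
    · exact absurd rfl hj
  rcases (nrm_sub_le C v 0 2).lt_or_eq with b | b
  · refine ⟨1, fun j hj => ?_⟩
    rcases fin3 j with rfl | rfl | rfl
    · rw [sw, a]
    · exact absurd rfl hj
    · rw [sw, key 2 0 1 (by decide) (by decide) (by decide) (sw 0 2 ▸ b)]
  · refine ⟨0, fun j hj => ?_⟩
    rcases fin3 j with rfl | rfl | rfl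
    exacts [absurd rfl hj, a, b]

theorem ev_rat (hv : v.Prime) {n : ℤ} (h : nrm v x = (((v : ℝ≥0) ^ n)⁻¹) ^ 2) :
    ∃ y : Qb, (∀ g : GQ, C.pm g i = i → g y = y) ∧ nrm v x = nrm v y ^ 2 :=
  ⟨(v : Qb) ^ n, fun g _ => by rw [map_zpow₀, map_natCast], by rw [nrm_zp hv, h]⟩

/-- The local condition at an odd prime that does not divide the twist. -/
theorem Ok.ev_odd (h : Ok C) (hv : v.Prime) (h2 : v ≠ 2) (hD : ¬ (v : ℤ) ∣ D) (hF : Eq3 C ⊤ F)
    (h0 : ∀ i, F i ≠ 0) {q : Qb} (hq : B2.Fx ⊤ q) (e : F 0 * F 1 * F 2 = q ^ 2)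
    (k : Ku C (Gv v) D F) : Ev C v F := by
  have hD' := (nrm_int_eq_one hv).2 hD
  have ap : ∀ i, Ap C v i →
      ∃ y : Qb, (∀ g : GQ, C.pm g i = i → g y = y) ∧ nrm v (F i) = nrm v y ^ 2 := fun i a =>
    let ⟨_, hn⟩ := a.even hv hD' h0 hq e k
    ev_rat hv hn
  by_cases hd : (v : ℤ) ∣ C.disc
  swap
  · exact fun i => ap i (ap_of_not_dvd hv hd i)
  obtain ⟨⟨m, hm⟩, h3⟩ := h.bad v hv h2 hd
  obtain ⟨t, ht⟩ := exists_ap hv h3
  intro i
  by_cases hi : i = t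
  · exact ap i (hi ▸ ht)
  have s1 := sig_ine hv h2
  obtain ⟨s, hs⟩ := (C.chi_disc (sig v)).1 (by
    rw [chi_sig hv h2 C.disc_neg.ne, hm]
    push_cast
    rw [show (2 : F2) = 0 from rfl, zero_mul, zero_add])
  have a : ∀ (f : Fin 3 → Fin 3) (s t i : Fin 3), Injective f → (∀ i, f i = i ↔ i = s) → f t = t →
      i ≠ t → f i ≠ t ∧ f i ≠ i := by decide
  obtain ⟨a1, a2⟩ := a _ s t i (C.pm_inj _) hs (ht.fix s1) hi
  have pr : ∀ G : Fin 3 → Qb, Eq3 C ⊤ G →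
      nrm v (G 0 * G 1 * G 2) = nrm v (G t) * nrm v (G i) ^ 2 := fun G hG => by
    have b : nrm v (G (C.pm (sig v) i)) = nrm v (G i) := by
      rw [← hG _ trivial]
      exact B2.mem_Dec.1 s1.1 _
    have b' : ∀ t i j : Fin 3, i ≠ t → j ≠ t → j ≠ i →
        i = t + 1 ∧ j = t + 2 ∨ i = t + 2 ∧ j = t + 1 := by decide
    rw [prod_rot G t, map_mul, map_mul, mul_assoc, sq]
    rcases b' t i _ hi a1 a2 with ⟨b1, b2⟩ | ⟨b1, b2⟩
    · rw [← b1, ← b2, b]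
    · rw [← b1, ← b2, b]
  have v0 : (v : ℝ≥0) ≠ 0 := by exact_mod_cast hv.ne_zero
  obtain ⟨n, hn⟩ := ht.even hv hD' h0 hq e k
  obtain ⟨l, hl⟩ := nrm_fx hv (x := q) (fun g _ => hq g trivial) fun z =>
    mul_ne_zero (mul_ne_zero (h0 0) (h0 1)) (h0 2) (by rw [e, z]; simp)
  have f1 : nrm v (F i) = ((v : ℝ≥0) ^ (l - n))⁻¹ := by
    have := pr F hF
    rw [e, map_pow, hl, hn, ← mul_pow, pow_left_inj₀ zero_le zero_le two_ne_zero] at this
    rw [zpow_sub₀ v0, inv_div, div_eq_mul_inv, this, mul_inv_cancel_left₀ (zpow_ne_zero _ v0)]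
  obtain ⟨δ, hδ⟩ : ∃ δ : Fin 3 → Qb, δ = fun i => 3 * C.e i ^ 2 + 2 * C.a * C.e i + C.b := ⟨_, rfl⟩
  have d1 : Eq3 C ⊤ δ := fun g _ i => by simp [hδ, C.e_pm, map_ofNat]
  have d2 : ∀ i, δ i = (C.e i - C.e (i + 1)) * (C.e i - C.e (i + 2)) := fun i =>
    hδ ▸ Cv.der (C.split i)
  have d3 : nrm v (δ i) ^ 2 = ((v : ℝ≥0) ^ (2 * m + 1))⁻¹ := by
    have := pr δ d1
    rw [d2 t, map_mul (nrm v) (_ - _), ht _ (ne_rot t).1, ht _ (ne_rot t).2, one_mul, one_mul] at this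
    rw [← this, ← hm, ← nrm_int hv C.disc_neg.ne, ← C.del_sq, ← Valuation.map_neg, d2, d2, d2, Cv.del]
    congr 1
    change -((C.e 0 - C.e 1) * (C.e 0 - C.e 2) * ((C.e 1 - C.e 2) * (C.e 1 - C.e 0)) *
      ((C.e 2 - C.e 0) * (C.e 2 - C.e 1))) = _
    ring
  refine ⟨(δ i / v ^ m) ^ (l - n), fun g hg => by
    rw [map_zpow₀, map_div₀, d1 g trivial, hg, map_pow, map_natCast], ?_⟩
  rw [f1, map_zpow₀, ← zpow_natCast, ← zpow_mul, mul_comm, zpow_mul, zpow_natCast, map_div₀,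
    div_pow, d3, map_pow, nrm_p hv, ← inv_zpow, inv_pow]
  congr 1
  field_simp
  ring

/-- The parity of the valuation at a good prime is read off from the inertia element. -/
theorem Kw.par (h : Kw C c w) (hv : C.Gp v) (i : Fin 3) :
    ∃ k : ℤ, nrm v (w i ^ 2) = ((v : ℝ≥0) ^ k)⁻¹ ∧ (k : F2) = C.ep (c (sig v)) (C.T i) := by
  have s1 := sig_ine hv.1 hv.ne_two
  have f : B2.Fx (Iv v) (w i ^ 2) := fun g hg => by
    have := h.eq3 (H := ⊤) g trivial i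
    rwa [hv.pm_ine hg] at this
  obtain ⟨k, hk⟩ := nrm_fx hv.1 f (pow_ne_zero 2 (h.ne i))
  refine ⟨k, hk, ?_⟩
  have h1 := chB_ine hv.1 hv.ne_two s1 (f _ s1) hk
  have h2 := h.act (sig v) i
  rw [hv.pm_ine s1] at h2
  rw [← chB_eq (pow_ne_zero 2 (h.ne i)) (sq _).symm h2, h1, chi_sig_self hv.1 hv.ne_two, mul_one]

theorem ev_of_even (hv : v.Prime) {k : ℤ} (h : nrm v x = ((v : ℝ≥0) ^ k)⁻¹) (e : (k : F2) = 0) :
    ∃ y : Qb, (∀ g : GQ, C.pm g i = i → g y = y) ∧ nrm v x = nrm v y ^ 2 := by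
  obtain ⟨n, rfl⟩ := (ZMod.intCast_zmod_eq_zero_iff_dvd k 2).1 e
  exact ev_rat hv (n := n) (by rw [h, inv_pow, ← zpow_natCast, ← zpow_mul, mul_comm])

end Pool.Agent.B6.S.SPN
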