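import Pool.Agent.Lib.MP_696deb_nt.SPN.LE
import Pool.Agent.Lib.MP_696deb_nt.SPN.LA
import Pool.Agent.Lib.MP_696deb_nt.B2.CFa

/-! The global step: normalised families with even valuations are squares. -/

set_option autoImplicit false

open scoped Classical NNReal
open Finset Function NumberField

namespace Pool.Agent.B6.S.SPN

open Pool.Agent.Lib.MP_696deb_nt Pool.Agent.Lib.MP_696deb_nt.Sm

/-- The roots of `t ^ 3 + 2 p t ^ 2 + 2 q t + 2`, permuted like the roots of the cubic of the curve;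
`1 + s t` is a unit. -/
structure Tf (C : Cv) (p q s : ℤ) (t : Fin 3 → Qb) : Prop where
  eq3 : Eq3 C ⊤ t
  s1 : t 0 + t 1 + t 2 = -2 * p
  s2 : t 0 * t 1 + t 0 * t 2 + t 1 * t 2 = 2 * q
  s3 : t 0 * t 1 * t 2 = -2
  neg : dg p q < 0
  ge : -100 ≤ dg p q
  odd : Odd s
  unit : s ^ 2 + p = q * s

/-- The group of the cubic field. -/
noncomputable def Hc (C : Cv) : Subgroup GQ := MulAction.stabilizer GQ (C.e 0)

/-- The cubic field. -/
noncomputable abbrev Kc (C : Cv) : IntermediateField ℚ Qb := B2.Kf (Hc C)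

instance (C : Cv) : NumberField (Kc C) := B2.nf_Kf (B2.b3a_op _)

variable {C : Cv} {p q s : ℤ} {t F G : Fin 3 → Qb} {x : Qb} {g : GQ}

theorem mem_Hc : g ∈ Hc C ↔ C.pm g 0 = 0 :=
  show g (C.e 0) = C.e 0 ↔ _ by rw [C.e_pm, C.e_inj.eq_iff]

theorem Eq3.fx (h : Eq3 C ⊤ F) : B2.Fx (Hc C) (F 0) := fun g hg => by
  rw [h g trivial, mem_Hc.1 hg]

theorem exists_pm (C : Cv) (i : Fin 3) : ∃ g, C.pm g 0 = i := by
  rcases fin3 i with rfl | rfl | rfl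
  · exact ⟨1, C.pm_one 0⟩
  · exact ⟨C.g0, C.pm_g0 0⟩
  · exact ⟨C.g0 * C.g0, by rw [C.pm_mul, C.pm_g0, C.pm_g0]; rfl⟩

theorem Eq3.ext (h : Eq3 C ⊤ F) (k : Eq3 C ⊤ G) (e : F 0 = G 0) (i : Fin 3) : F i = G i := by
  obtain ⟨g, rfl⟩ := exists_pm C i
  rw [← h g trivial, ← k g trivial, e]

theorem exists_fam (h : B2.Fx (Hc C) x) : ∃ F, Eq3 C ⊤ F ∧ F 0 = x := by
  choose k hk using exists_pm C
  refine ⟨fun i => k i x, fun g _ i => ?_, h _ (mem_Hc.2 (hk 0))⟩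
  have := h ((k (C.pm g i))⁻¹ * (g * k i)) (mem_Hc.2 (by
    have := C.inv_pm (k (C.pm g i)) 0
    rw [hk] at this
    rw [C.pm_mul, C.pm_mul, hk, this]))
  beta_reduce
  conv_rhs => rw [← this, ← AlgEquiv.mul_apply, mul_inv_cancel_left]
  rfl

theorem Eq3.fx_sum (h : Eq3 C ⊤ F) : B2.Fx ⊤ (F 0 + F 1 + F 2) := fun g hg => by
  rw [← Fin.sum_univ_three, map_sum]
  exact Fintype.sum_bijective _ (C.pm_bij g) _ _ fun i => h g hg i

theorem Tf.root (h : Tf C p q s t) (i : Fin 3) :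
    t i ^ 3 + 2 * p * t i ^ 2 + 2 * q * t i + 2 = 0 := by
  rcases fin3 i with rfl | rfl | rfl
  · linear_combination t 0 ^ 2 * h.s1 - t 0 * h.s2 + h.s3
  · linear_combination t 1 ^ 2 * h.s1 - t 1 * h.s2 + h.s3
  · linear_combination t 2 ^ 2 * h.s1 - t 2 * h.s2 + h.s3

theorem Tf.root' (h : Tf C p q s t) (i : Fin 3) :
    t i ^ 3 + (2 * p : ℤ) * t i ^ 2 + (2 * q : ℤ) * t i + (2 * 1 : ℤ) = 0 := by
  push_cast
  linear_combination h.root i

theorem Tf.int (h : Tf C p q s t) (i : Fin 3) : IsIntegral ℤ (t i) := sa1_int (h.root' i)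

theorem Tf.disc (h : Tf C p q s t) :
    ((t 0 - t 1) * (t 1 - t 2) * (t 2 - t 0)) ^ 2 = (dg p q : ℤ) := by
  have h1 : (p : Qb) = -(t 0 + t 1 + t 2) / 2 := by linear_combination h.s1 / 2
  have h2 : (q : Qb) = (t 0 * t 1 + t 0 * t 2 + t 1 * t 2) / 2 := by linear_combination -h.s2 / 2
  have h3 := h.s3
  rw [dg]
  push_cast
  rw [h1, h2]
  linear_combination (-4 * (t 0 + t 1 + t 2) ^ 3 - 27 * (t 0 * t 1 * t 2 - 2) +
    18 * (t 0 + t 1 + t 2) * (t 0 * t 1 + t 0 * t 2 + t 1 * t 2)) * h3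

theorem Tf.ne (h : Tf C p q s t) : t 0 - t 1 ≠ 0 ∧ t 1 - t 2 ≠ 0 ∧ t 2 - t 0 ≠ 0 := by
  have h1 : (t 0 - t 1) * (t 1 - t 2) * (t 2 - t 0) ≠ 0 := fun e => h.neg.ne (by
    have := h.disc
    rw [e] at this
    exact_mod_cast (by simpa using this.symm : ((dg p q : ℤ) : Qb) = 0))
  exact ⟨left_ne_zero_of_mul (left_ne_zero_of_mul h1),
    right_ne_zero_of_mul (left_ne_zero_of_mul h1), right_ne_zero_of_mul h1⟩

theorem Tf.poly (h : Tf C p q s t) (a b c : ℚ) : Eq3 C ⊤ fun i => a + b * t i + c * t i ^ 2 :=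
  fun g hg i => by simp [h.eq3 g hg]

theorem Tf.coord (h : Tf C p q s t) (hx : B2.Fx (Hc C) x) :
    ∃ a b c : ℚ, x = a + b * t 0 + c * t 0 ^ 2 := by
  obtain ⟨F, hF, rfl⟩ := exists_fam hx
  have k : ∀ a b c : ℚ, ∃ r : ℚ, ∑ i, F i * (a + b * t i + c * t i ^ 2) /
      ((2 * q : ℚ) + (4 * p : ℚ) * t i + (3 : ℚ) * t i ^ 2) = r := fun a b c => by
    rw [Fin.sum_univ_three]
    exact B2.fx_top ((hF.mul (h.poly a b c)).div (h.poly _ _ _)).fx_sum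
  obtain ⟨a, ha⟩ := k (2 * q) (2 * p) 1
  obtain ⟨b, hb⟩ := k (2 * p) 1 0
  obtain ⟨c, hc⟩ := k 1 0 0
  refine ⟨a, b, c, ?_⟩
  obtain ⟨n1, n2, n3⟩ := h.ne
  have h1 : (p : Qb) = -(t 0 + t 1 + t 2) / 2 := by linear_combination h.s1 / 2
  have h2 : (q : Qb) = (t 0 * t 1 + t 0 * t 2 + t 1 * t 2) / 2 := by linear_combination -h.s2 / 2
  have d0 : 2 * (q : Qb) + 4 * p * t 0 + 3 * t 0 ^ 2 = -((t 0 - t 1) * (t 2 - t 0)) := by
    rw [h1, h2]; ring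
  have d1 : 2 * (q : Qb) + 4 * p * t 1 + 3 * t 1 ^ 2 = -((t 0 - t 1) * (t 1 - t 2)) := by
    rw [h1, h2]; ring
  have d2 : 2 * (q : Qb) + 4 * p * t 2 + 3 * t 2 ^ 2 = -((t 1 - t 2) * (t 2 - t 0)) := by
    rw [h1, h2]; ring
  rw [← ha, ← hb, ← hc]
  simp only [Fin.sum_univ_three]
  push_cast
  rw [d0, d1, d2, h1, h2]
  field_simp
  ring

/-- The generator as an integer of the cubic field. -/
noncomputable def Tf.gen (h : Tf C p q s t) : 𝓞 (Kc C) :=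
  ⟨⟨t 0, B2.b3a_fx.1 h.eq3.fx⟩,
    (isIntegral_algHom_iff (Kc C).val.toRingHom.toIntAlgHom Subtype.val_injective).1 (h.int 0)⟩

theorem Tf.gen_coe (h : Tf C p q s t) : ((h.gen : Kc C) : Qb) = t 0 := rfl

/-- The integers of the cubic field as algebraic numbers. -/
noncomputable def jK (C : Cv) : 𝓞 (Kc C) →+* Qb := (Kc C).val.toRingHom.comp (algebraMap _ _)

theorem jK_inj : Injective (jK C) := fun _ _ h => Subtype.ext (Subtype.ext h)

theorem Tf.jK_gen (h : Tf C p q s t) : jK C h.gen = t 0 := rfl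

theorem Tf.cf (h : Tf C p q s t) : ∃ b, Cf (Kc C) p q h.gen b := by
  have li : LinearIndependent ℚ fun i : Fin 3 => (h.gen : Kc C) ^ (i : ℕ) := by
    refine Fintype.linearIndependent_iff.2 fun r hr => ?_
    have h1 : (r 0 : Qb) + r 1 * t 0 + r 2 * t 0 ^ 2 = 0 := by
      simpa [Fin.sum_univ_three, Algebra.smul_def, h.gen_coe] using congrArg (Kc C).val hr
    have h2 := (h.poly (r 0) (r 1) (r 2)).ext (eq3_const fun g _ => map_zero g) h1
    obtain ⟨n1, n2, n3⟩ := h.ne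
    have a2 : (r 2 : Qb) = 0 := mul_left_cancel₀ (mul_ne_zero (mul_ne_zero n1 n2) n3) (by
      linear_combination -(t 1 - t 2) * h2 0 - (t 2 - t 0) * h2 1 - (t 0 - t 1) * h2 2)
    have a1 : (r 1 : Qb) = 0 := mul_left_cancel₀ n1 (by
      linear_combination h2 0 - h2 1 - (t 0 ^ 2 - t 1 ^ 2) * a2)
    have a0 : (r 0 : Qb) = 0 := by linear_combination h1 - t 0 * a1 - t 0 ^ 2 * a2
    intro i
    rcases fin3 i with rfl | rfl | rfl
    exacts [by exact_mod_cast a0, by exact_mod_cast a1, by exact_mod_cast a2]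
  refine ⟨Module.Basis.mk li fun x _ => ?_, fun i => Module.Basis.mk_apply _ _ _, ?_, h.neg, h.ge⟩
  · obtain ⟨a, b, c, e⟩ := h.coord (B2.fx_Kf x)
    refine (Submodule.mem_span_range_iff_exists_fun ℚ).2 ⟨![a, b, c], Subtype.ext ?_⟩
    simpa [Fin.sum_univ_three, Algebra.smul_def, h.gen_coe] using e.symm
  · refine jK_inj ?_
    simpa [h.jK_gen, map_ofNat] using h.root 0

/-- Integers of the cubic field have integral coordinates. -/
theorem Tf.coord_int (h : Tf C p q s t) (h4 : ∀ n : ℤ, n ^ 2 ∣ dg p q → n ∣ 2)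
    (hx : B2.Fx (Hc C) x) (hi : IsIntegral ℤ x) : ∃ m : Fin 3 → ℤ, x = ev (t 0) m := by
  obtain ⟨b, cf⟩ := h.cf
  obtain ⟨m, hm⟩ := cf.int h4 ⟨⟨x, B2.b3a_fx.1 hx⟩,
    (isIntegral_algHom_iff (Kc C).val.toRingHom.toIntAlgHom Subtype.val_injective).1 hi⟩
  refine ⟨m, ?_⟩
  rw [Cv.ev3]
  have := congrArg (jK C) hm
  simp only [map_add, map_mul, map_pow, map_intCast, h.jK_gen] at this
  exact this

theorem Tf.not_nz (h : Tf C p q s t) (ok : Ok C) : ¬ Nz fun i => 1 + s * t i := by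
  have h1 := ok.nrm_cube (F := fun i => t i - t (i + 1)) (fun g hg i => by
    rw [map_sub, h.eq3 g trivial, h.eq3 g trivial, ok.rot hg]) 0
  have h2 : nrm 2 ((t 0 - t 1) * (t 1 - t 2) * (t 2 - t 0)) = 2⁻¹ := by
    refine (pow_left_inj₀ zero_le zero_le two_ne_zero).1 ?_
    rw [← map_pow, h.disc, show dg p q = 2 * (2 * (2 * (2 * p ^ 2 * q ^ 2 - 4 * q ^ 3 - 8 * p ^ 3 -
      14 + 18 * p * q) + 1)) by rw [dg]; ring, Int.cast_mul, Int.cast_mul, map_mul, map_mul,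
      n_odd (odd_two_mul_add_one _), Int.cast_ofNat, n2, mul_one, sq]
  refine SPN.not_nz ?_ (nrm_of_close (map_one _) ?_)
  · rw [add_sub_add_left_eq_sub, ← mul_sub, map_mul, n_odd h.odd, one_mul]
    exact h1.trans h2
  · rw [add_sub_cancel_left, map_mul, n_odd h.odd, one_mul]
    exact lt_of_cube (eis odd_one (h.root' 1)).le (by norm_num)

theorem gl_unit (hF : Eq3 C ⊤ F) (x : 𝓞 (Kc C)) (x0 : x ≠ 0) (e : ((x : Kc C) : Qb) = F 0)
    (ev : ∀ v : ℕ, v.Prime → Ev C v F) [IsPrincipalIdealRing (𝓞 (Kc C))] :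
    ∃ (u : (𝓞 (Kc C))ˣ) (a : 𝓞 (Kc C)), x = u * a ^ 2 := by
  refine la_sq x0 fun l hl => ?_
  obtain ⟨w, hw⟩ := B2.exists_over (H := Hc C)
    ⟨Ideal.span {l}, (Ideal.span_singleton_prime hl.ne_zero).2 hl, by simp [hl.ne_zero]⟩
  have h1 : ∀ z : 𝓞 (Kc C), w.V ((z : Kc C) : Qb) < 1 ↔ l ∣ z := fun z => by
    have := hw z 1
    rw [map_one, OneMemClass.coe_one, map_one] at this
    rw [← this, ← Ideal.mem_span_singleton]
    exact IsDedekindDomain.HeightOneSpectrum.valuation_lt_one_iff_mem _ _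
  have h2 : ∀ z : 𝓞 (Kc C), w.V ((z : Kc C) : Qb) ≤ 1 := fun z =>
    w.V_le_one_of_isIntegral (B2.cfaHom (Hc C) z).2
  refine ⟨fun z => w.V ((z : Kc C) : Qb), fun a b => by simp,
    fun z hz => (h2 z).lt_or_eq.resolve_left (mt (h1 z).1 hz), (h1 l).2 dvd_rfl,
    by simp [hl.ne_zero], ?_⟩
  obtain ⟨g, hg⟩ := B2.plc_conj (w := pl w.p) (v := w) (pl_p w.prime)
  obtain ⟨y, y1, y2⟩ := ev w.p w.prime (C.pm g⁻¹ 0)
  have y3 : B2.Fx (Hc C) (g y) := fun k hk => by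
    have := y1 (g⁻¹ * (k * g)) (by rw [C.pm_mul, C.pm_mul, C.pm_inv, mem_Hc.1 hk])
    conv_rhs => rw [← this, ← AlgEquiv.mul_apply, mul_inv_cancel_left]
    rfl
  have y4 : w.V (F 0) = w.V (g y) ^ 2 := by
    rw [← hg, B2.smul_V, B2.smul_V, hF _ trivial, ← AlgEquiv.mul_apply, inv_mul_cancel]
    exact y2
  obtain ⟨a, b, hb, hab⟩ := IsFractionRing.div_surjective (A := 𝓞 (Kc C))
    (⟨g y, B2.b3a_fx.1 y3⟩ : Kc C)
  have b0 := nonZeroDivisors.ne_zero hb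
  have b1 : ((b : Kc C) : Qb) ≠ 0 := by simpa using b0
  have e1 : ((a : Kc C) : Qb) = g y * ((b : Kc C) : Qb) := by
    rw [← div_eq_iff b1]
    simpa using congrArg (Kc C).val hab
  refine ⟨a, b, fun a0 => x0 ?_, b0, by beta_reduce; rw [e, y4, e1, map_mul, mul_pow]⟩
  have : g y = 0 := by simpa [a0, b1] using e1.symm
  rw [this, ← e] at y4
  simpa using y4

/-- The global step. -/
theorem Tf.gl (h : Tf C p q s t) (ok : Ok C) (hF : Eq3 C ⊤ F) (h0 : ∀ i, F i ≠ 0)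
    (hi : IsIntegral ℤ (F 0)) {r : Qb} (hr : B2.Fx ⊤ r) (e : F 0 * F 1 * F 2 = r ^ 2)
    (ev : ∀ v : ℕ, v.Prime → Ev C v F) (nz : Nz F) : ∃ u, Eq3 C ⊤ u ∧ ∀ i, F i = u i ^ 2 := by
  obtain ⟨b, cf⟩ := h.cf
  have := cf.pid
  have he : Eq3 C ⊤ fun i => 1 + s * t i := fun g hg i => by simp [h.eq3 g hg]
  have fam : ∀ (F G : Fin 3 → Qb) (σ : ℤ) (z : Kc C), Eq3 C ⊤ F → Eq3 C ⊤ G →
      F 0 = σ * (G 0 * z ^ 2) → ∃ Z, Eq3 C ⊤ Z ∧ ∀ i, F i = σ * (G i * Z i ^ 2) :=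
    fun F G σ z hF hG e => by
      obtain ⟨Z, h1, h2⟩ := exists_fam (B2.fx_Kf z)
      exact ⟨Z, h1, hF.ext ((eq3_const (fx_int _ σ)).mul (hG.mul (h1.pow 2))) (h2 ▸ e)⟩
  have one : Eq3 C ⊤ fun _ => 1 := eq3_const fun g _ => map_one g
  have bad : ∀ (G : Fin 3 → Qb) (σ : ℤ) (z : Kc C), Eq3 C ⊤ G → Nz G →
      1 + s * t 0 ≠ σ * (G 0 * z ^ 2) := fun G σ z hG nG k => by
    obtain ⟨Z, h1, h2⟩ := fam _ G σ z he hG k
    have n : ∀ i, (σ : Qb) * (G i * Z i ^ 2) ≠ 0 := fun i a => by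
      have := eis odd_one (h.root' i)
      have h3 := n_odd h.odd
      rw [← h2, add_eq_zero_iff_neg_eq] at a
      have h4 := congrArg (nrm 2) a
      rw [map_mul, h3, one_mul, Valuation.map_neg, map_one] at h4
      rw [← h4] at this
      norm_num at this
    refine h.not_nz ok ?_
    rw [funext h2]
    exact (nz_const (left_ne_zero_of_mul (n 0))).mul (nG.mul (ok.nz_sq (h1.mono le_top)
      fun i a => n i (by simp [a])))
  have hs : (s : 𝓞 (Kc C)) ^ 2 + p = q * s := by exact_mod_cast congrArg Int.cast h.unit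
  let ε : (𝓞 (Kc C))ˣ := Units.mkOfMulEqOne (1 + s * h.gen)
    (1 - 2 * p * s + 2 * q * s ^ 2 + (2 * p * s ^ 2 - s) * h.gen + s ^ 2 * h.gen ^ 2)
    (by linear_combination s ^ 3 * cf.eq - 2 * s * hs)
  let j := jK C
  have jε : j ε = 1 + s * t 0 := by simp [j, ε, h.jK_gen]
  have jc : ∀ z : 𝓞 (Kc C), ((z : Kc C) : Qb) = j z := fun _ => rfl
  obtain ⟨u, a, ha⟩ := gl_unit hF ⟨⟨F 0, B2.b3a_fx.1 hF.fx⟩,
    (isIntegral_algHom_iff (Kc C).val.toRingHom.toIntAlgHom Subtype.val_injective).1 hi⟩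
    (fun k => h0 0 (congrArg j k |>.trans (map_zero j))) rfl ev
  have ja : F 0 = j u * j a ^ 2 := by rw [← map_pow, ← map_mul, ← ha]; rfl
  obtain ⟨v, hv⟩ := cf.units (ε := ε) (fun v => ⟨fun k =>
    bad _ 1 (v : 𝓞 (Kc C)) one (nz_const one_ne_zero) (by rw [← jε, k]; simp [jc]), fun k =>
    bad _ (-1) (v : 𝓞 (Kc C)) one (nz_const one_ne_zero) (by rw [← jε, k]; simp [jc])⟩) u
  have z0 : j v * j a ≠ 0 := mul_ne_zero (v.isUnit.map j).ne_zero fun k => h0 0 (by simp [ja, k])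
  have jz : (((v * a : 𝓞 (Kc C)) : Kc C) : Qb) = j v * j a := map_mul j _ _
  rcases hv with rfl | rfl | rfl | rfl
  · obtain ⟨Z, h1, h2⟩ := fam F _ 1 (v * a : 𝓞 (Kc C)) hF one (by rw [ja, jz]; simp [mul_pow])
    exact ⟨Z, h1, fun i => by simpa using h2 i⟩
  · obtain ⟨Z, h1, h2⟩ := fam F _ (-1) (v * a : 𝓞 (Kc C)) hF one (by rw [ja, jz]; simp [mul_pow])
    have n : Z 0 * Z 1 * Z 2 ≠ 0 := by
      refine mul_ne_zero (mul_ne_zero ?_ ?_) ?_ <;> exact fun k => h0 _ (by rw [h2, k]; simp)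
    obtain ⟨ρ, hρ⟩ := B2.fx_top (fx_div hr h1.fx_prod)
    have : (ρ : Qb) ^ 2 = -1 := by
      rw [← hρ, div_pow, ← e, h2, h2, h2, div_eq_iff (pow_ne_zero 2 n)]
      push_cast
      ring
    have : ρ ^ 2 = -1 := by exact_mod_cast this
    nlinarith
  · refine (bad F 1 ((v * a : 𝓞 (Kc C)) : Kc C)⁻¹ hF nz ?_).elim
    rw [ja, IntermediateField.coe_inv, jz, ← jε, inv_pow]
    push_cast
    rw [map_mul, map_pow, mul_assoc (j ε), ← mul_pow, one_mul,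
      mul_inv_cancel_right₀ (pow_ne_zero 2 z0)]
  · refine (bad F (-1) ((v * a : 𝓞 (Kc C)) : Kc C)⁻¹ hF nz ?_).elim
    rw [ja, IntermediateField.coe_inv, jz, ← jε, inv_pow]
    push_cast
    rw [map_neg, map_mul, map_pow, neg_mul, neg_mul, neg_mul, one_mul, neg_neg, mul_assoc (j ε),
      ← mul_pow, mul_inv_cancel_right₀ (pow_ne_zero 2 z0)]

end Pool.Agent.B6.S.SPN
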