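import Pool.Agent.Lib.MP_696deb_nt.B6.SLk

/-! Families permuted like the roots, and the Kummer description of the local conditions. -/

set_option autoImplicit false

open scoped Classical
open Finset Function

namespace Pool.Agent.B6.S.SPN

open Pool.Agent.Lib.MP_696deb_nt Pool.Agent.Lib.MP_696deb_nt.Sm

/-- Families that are permuted like the roots. -/
def Eq3 (C : Cv) (H : Subgroup GQ) (F : Fin 3 → Qb) : Prop :=
  ∀ g ∈ H, ∀ i, g (F i) = F (C.pm g i)

/-- Square roots that describe a cocycle. -/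
structure Kw (C : Cv) (c : GQ → C.A) (w : Fin 3 → Qb) : Prop where
  two : ∀ g, 2 • c g = 0
  ne : ∀ i, w i ≠ 0
  act : ∀ g i, g (w i) = (sn (C.ep (c g) (C.T (C.pm g i))) : Qb) * w (C.pm g i)

/-- The family `A` comes from a point of the twist that is fixed by `H`. -/
def Ku (C : Cv) (H : Subgroup GQ) (D : ℤ) (A : Fin 3 → Qb) : Prop :=
  ∃ y, Eq3 C H y ∧ ((∀ i, A i = y i ^ 2) ∨ ∃ X Z : Qb, B2.Fx H X ∧ B2.Fx H Z ∧
    Z ^ 2 = D * ((X - C.e 0) * (X - C.e 1) * (X - C.e 2)) ∧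
    ∀ i, X ≠ C.e i → A i = y i ^ 2 * (D * (X - C.e i)))

variable {C : Cv} {H H' : Subgroup GQ} {F F' w : Fin 3 → Qb} {c : GQ → C.A} {D : ℤ} {v : ℕ}

theorem Eq3.mono (h : Eq3 C H F) (k : H' ≤ H) : Eq3 C H' F := fun g hg => h g (k hg)

theorem Eq3.mul (h : Eq3 C H F) (k : Eq3 C H F') : Eq3 C H fun i => F i * F' i := fun g hg i => by
  rw [map_mul, h g hg, k g hg]

theorem Eq3.div (h : Eq3 C H F) (k : Eq3 C H F') : Eq3 C H fun i => F i / F' i := fun g hg i => by
  rw [map_div₀, h g hg, k g hg]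

theorem Eq3.pow (h : Eq3 C H F) (n : ℕ) : Eq3 C H fun i => F i ^ n := fun g hg i => by
  rw [map_pow, h g hg]

theorem eq3_const {x : Qb} (h : B2.Fx H x) : Eq3 C H fun _ => x := fun g hg _ => h g hg

theorem eq3_e : Eq3 C H C.e := fun g _ i => C.e_pm g i

theorem Eq3.fx_prod (h : Eq3 C H F) : B2.Fx H (F 0 * F 1 * F 2) := fun g hg => by
  rw [← Fin.prod_univ_three, map_prod]
  exact Fintype.prod_bijective _ (C.pm_bij g) _ _ fun i => h g hg i

theorem Kw.eq3 (h : Kw C c w) : Eq3 C H fun i => w i ^ 2 := fun g _ i => by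
  rw [map_pow, h.act, mul_pow, sq (sn _ : Qb), Cv.sk2_sn, one_mul]

theorem Kw.fx_prod (h : Kw C c w) : B2.Fx H (w 0 * w 1 * w 2) := fun g _ => by
  have h1 : ∏ i, (sn (C.ep (c g) (C.T i)) : Qb) = 1 := by
    rw [Fin.prod_univ_three, ← Int.cast_mul, ← Int.cast_mul, ← sn_add, ← sn_add,
      ← Fin.sum_univ_three fun i => C.ep (c g) (C.T i), C.sum_ep (h.two g), sn_zero, Int.cast_one]
  rw [← Fin.prod_univ_three, map_prod, ← one_mul (∏ i, w i), ← h1, ← prod_mul_distrib]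
  exact Fintype.prod_bijective _ (C.pm_bij g) _ _ fun i => h.act g i

theorem kw_of (h : c ∈ C.U D) : ∃ w, Kw C c w ∧ ∀ i, IsIntegral ℤ (w i) := by
  obtain ⟨_, w, h1, h2⟩ := Cv.exists_KD h
  exact ⟨w, ⟨fun g => h.1.two g trivial, fun i => (h1 i).1, h2⟩, fun i => (h1 i).2.1⟩

/-- A normalised cocycle whose family is a family of squares vanishes. -/
theorem Kw.eq_zero (h : Kw C c w) (h0 : c C.g0 = 0) {u : Fin 3 → Qb} (hu : Eq3 C ⊤ u)
    (e : ∀ i, w i ^ 2 = u i ^ 2) : c = 0 := by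
  have s : ∀ i, ∃ b : F2, w i = (sn b : Qb) * u i := fun i => by
    rcases sq_eq_sq_iff_eq_or_eq_neg.1 (e i) with k | k
    · exact ⟨0, by rw [k, sn_zero, Int.cast_one, one_mul]⟩
    · exact ⟨1, by rw [k, sn_one, Int.cast_neg, Int.cast_one, neg_one_mul]⟩
  choose b hb using s
  have u0 : ∀ i, u i ≠ 0 := fun i k => h.ne i (by rw [hb, k, mul_zero])
  have si : ∀ x y : F2, (sn x : Qb) = sn y → x = y := fun x y k => by
    have : sn x = sn y := by exact_mod_cast k
    clear k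
    revert this x y
    decide
  have k : ∀ g i, b i = C.ep (c g) (C.T (C.pm g i)) + b (C.pm g i) := fun g i => si _ _ (by
    have := h.act g i
    rw [hb i, hb (C.pm g i), map_mul, map_intCast, hu g trivial, ← mul_assoc, ← Int.cast_mul,
      ← sn_add] at this
    exact mul_right_cancel₀ (u0 _) this)
  have k1 : ∀ i, b i = b (i + 1) := fun i => by
    rw [k C.g0 i, h0, C.ep_zero_left, zero_add, C.pm_g0]
  have k2 : ∀ i j, b i = b j := fun i j => by
    have a := k1 0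
    have a' := k1 1
    rcases fin3 i with rfl | rfl | rfl <;> rcases fin3 j with rfl | rfl | rfl <;>
      first | rfl | exact a | exact a' | exact a.symm | exact a'.symm | exact a.trans a' |
        exact (a.trans a').symm
  funext g
  refine C.eq_zero_of_ep fun j => ?_
  obtain ⟨i, rfl⟩ := (C.pm_bij g).2 j
  have := k g i
  rwa [k2 (C.pm g i) i, right_eq_add] at this

theorem ell_act (g : GQ) (i : Fin 3) (Q : C.A) :
    ell_s (C.W Qb) (C.e (C.pm g i)) (C.act g Q) = g (ell_s (C.W Qb) (C.e i) Q) := by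
  rcases Q with _ | ⟨u, z, hR⟩
  · rw [← WeierstrassCurve.Affine.Point.zero_def, map_zero]
    exact (map_zero g).symm
  · obtain ⟨k, e'⟩ := C.act_some g hR
    rw [e', ell_s_some, ell_s_some, ← C.e_pm]
    simp [Cv.W, map_ofNat]

theorem ell_two {Q S : C.A} (hQ : 2 • Q ≠ 0) (hS : 2 • S = 0) (j : Fin 3) :
    ell_s (C.W Qb) (C.e j) (Q + S) = (sn (C.ep S (C.T j)) : Qb) * ell_s (C.W Qb) (C.e j) Q := by
  rcases C.tors2 hS with rfl | ⟨i, rfl⟩
  · rw [add_zero, C.ep_zero_left, sn_zero, Int.cast_one, one_mul]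
  rw [C.ep_T]
  have n : ∀ i j : Fin 3, i ≠ j → j = i + 1 ∨ j = i + 2 := by decide
  split_ifs with k
  · rw [sn_zero, Int.cast_one, one_mul, ← k]
    exact (ell_add_T (C.split i) hQ).1
  · rw [sn_one, Int.cast_neg, Int.cast_one, neg_one_mul]
    rcases n i j k with rfl | rfl
    · exact (ell_add_T (C.split i) hQ).2
    · exact (ell_add_T (C.split i).swap23 hQ).2

theorem Kw.ku (h : Kw C c w) (hD : D ≠ 0) (k : C.Loc v D c) : Ku C (Gv v) D fun i => w i ^ 2 := by
  obtain ⟨Q, hQ⟩ := k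
  have r0 : rt (D : Qb) ≠ 0 := fun e => hD (by
    have := rt_mul_self (D : Qb)
    rw [e, mul_zero] at this
    exact_mod_cast this.symm)
  have ra : ∀ g : GQ, g (rt (D : Qb)) = (sn (chi D g) : Qb) * rt (D : Qb) := fun g =>
    chB_spec (rt_mul_self _) (map_intCast g D)
  rcases hP : 2 • Q with _ | ⟨X, Y, hn⟩
  · refine ⟨fun i => (sn (C.ep Q (C.T i)) : Qb) * w i, fun g hg i => ?_, .inl fun i => ?_⟩
    · rw [map_mul, map_intCast, h.act, hQ g hg, Cv.cob, C.tw_two D g hP, Cv.sk2_cob hP, sn_add,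
        Int.cast_mul, ← mul_assoc, ← mul_assoc, Cv.sk2_sn, one_mul]
    · rw [mul_pow, sq (sn _ : Qb), Cv.sk2_sn, one_mul]
  have h0 : 2 • Q ≠ 0 := hP ▸ WeierstrassCurve.Affine.Point.some_ne_zero _
  have hf : ∀ g ∈ Gv v, g X = X ∧ (sn (chi D g) : Qb) * g Y = Y := fun g hg => by
    have h1 := h.two g
    rw [hQ g hg, Cv.cob, smul_sub, ← C.tw_nsmul, hP, sub_eq_zero, Cv.tw] at h1
    obtain ⟨h', e⟩ := C.act_some g hn
    rw [e] at h1
    rcases F2_cases (chi D g) with a | a <;> rw [a] at h1 ⊢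
    · rw [sn_zero, one_zsmul] at h1
      simpa [sn_zero] using WeierstrassCurve.Affine.Point.some.inj h1
    · rw [sn_one, neg_one_zsmul, WeierstrassCurve.Affine.Point.neg_some] at h1
      have := WeierstrassCurve.Affine.Point.some.inj h1
      rw [(C.split 0).negY_eq] at this
      simpa [sn_one] using this
  refine ⟨fun i => w i / (rt (D : Qb) * ell_s (C.W Qb) (C.e i) Q), fun g hg i => ?_,
    .inr ⟨X, rt (D : Qb) * Y, fun g hg => (hf g hg).1, fun g hg => ?_, ?_, fun i hi => ?_⟩⟩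
  · have h1 : C.tw D g Q = Q + c g := by rw [hQ g hg, Cv.cob, add_sub_cancel]
    have h2 := ell_two h0 (h.two g) (C.pm g i)
    rw [← h1, Cv.tw, ell_s_sn (C.split 0), ell_act] at h2
    rw [map_div₀, map_mul, h.act, ra, mul_right_comm (sn _ : Qb), h2, mul_assoc,
      mul_div_mul_left _ _ (left_ne_zero_of_mul_eq_one (Cv.sk2_sn _)), mul_comm _ (rt _)]
  · rw [map_mul, ra, mul_right_comm, (hf g hg).2, mul_comm]
  · rw [mul_pow, sq (rt _), rt_mul_self, ((C.split 0).nonsingular_iff X Y).1 hn]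
    rfl
  · have h1 := ell_sq (C.split i) hP
    have h2 : ell_s (C.W Qb) (C.e i) Q ≠ 0 := fun e => hi (by
      rw [e, mul_zero] at h1
      exact sub_eq_zero.1 h1.symm)
    have h3 := rt_mul_self (D : Qb)
    generalize rt (D : Qb) = r at r0 h3 ⊢
    rw [← h1, ← h3]
    field_simp

end Pool.Agent.B6.S.SPN
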