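import Pool.Agent.Lib.MP_696deb_nt.SPN.LK

/-! The local condition at two. -/

set_option autoImplicit false

open scoped Classical NNReal
open Finset Function

namespace Pool.Agent.B6.S.SPN

open Pool.Agent.Lib.MP_696deb_nt Pool.Agent.Lib.MP_696deb_nt.Sm

/-- Supersingular reduction at two, multiplicative reduction of odd type at the bad primes. -/
structure Ok (C : Cv) : Prop where
  two : ∃ a b c : ℤ, C.a = 4 * a ∧ C.b = 16 * b ∧ C.c = 16 * c ∧ Odd c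
  bad : ∀ v : ℕ, v.Prime → v ≠ 2 → (v : ℤ) ∣ C.disc →
    Odd (padicValInt v C.disc) ∧ ¬ (v : ℤ) ∣ C.a ^ 2 - 3 * C.b

/-- The valuations at `v` are even. -/
def Ev (C : Cv) (v : ℕ) (F : Fin 3 → Qb) : Prop :=
  ∀ i, ∃ y : Qb, (∀ g : GQ, C.pm g i = i → g y = y) ∧ nrm v (F i) = nrm v y ^ 2

/-- Congruent to one modulo the square of the prime above two. -/
def Cl (x : Qb) : Prop := nrm 2 (x - 1) ^ 3 ≤ 4⁻¹

/-- The normalisation at two. -/
def Nz (F : Fin 3 → Qb) : Prop := Cl ((F 0 / F 1) ^ 3)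

variable {C : Cv} {F F' y : Fin 3 → Qb} {x x' : Qb} {g : GQ} {D : ℤ}

theorem n2 : nrm 2 2 = 2⁻¹ := by
  have := (pl 2).hV
  rw [pl_p Nat.prime_two] at this
  exact_mod_cast this

theorem n_odd {a : ℤ} (h : Odd a) : nrm 2 a = 1 :=
  (nrm_int_eq_one Nat.prime_two).2 fun k => Int.not_even_iff_odd.2 h (even_iff_two_dvd.2 k)

theorem lt_of_cube {a b : ℝ≥0} (h : a ^ 3 ≤ b) (k : b < 1) : a < 1 :=
  lt_of_pow_lt_pow_left₀ 3 zero_le_one (by rw [one_pow]; exact h.trans_lt k)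

theorem cube_add {a b : Qb} {r : ℝ≥0} (h : nrm 2 a ^ 3 ≤ r) (k : nrm 2 b ^ 3 ≤ r) :
    nrm 2 (a + b) ^ 3 ≤ r := by
  rcases le_max_iff.1 ((nrm 2).map_add a b) with e | e
  · exact (pow_le_pow_left₀ zero_le e 3).trans h
  · exact (pow_le_pow_left₀ zero_le e 3).trans k

theorem cube_mul {a b : Qb} {r : ℝ≥0} (h : nrm 2 a ≤ 1) (k : nrm 2 b ^ 3 ≤ r) :
    nrm 2 (a * b) ^ 3 ≤ r := by
  rw [map_mul]
  exact (pow_le_pow_left₀ zero_le (mul_le_of_le_one_left' h) 3).trans k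

theorem nrm_of_close {v : ℕ} {a b : Qb} (h : nrm v a = 1) (k : nrm v (b - a) < 1) :
    nrm v b = 1 := by
  rw [← sub_add_cancel b a, (nrm v).map_add_eq_of_lt_right (by rwa [h]), h]

theorem Cl.unit (h : Cl x) : nrm 2 x = 1 :=
  nrm_of_close (map_one _) (lt_of_cube h (by norm_num))

theorem Cl.mul (h : Cl x) (k : Cl x') : Cl (x * x') := by
  rw [Cl, show x * x' - 1 = x * (x' - 1) + (x - 1) by ring]
  exact cube_add (cube_mul h.unit.le k) h

theorem Cl.cube (h : Cl x) : Cl (x ^ 3) := by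
  rw [pow_three]
  exact h.mul (h.mul h)

theorem cl_div {a : Qb} (ha : nrm 2 a = 1) (h : nrm 2 (x - a) ^ 3 ≤ 4⁻¹)
    (k : nrm 2 (x' - a) ^ 3 ≤ 4⁻¹) : Cl (x / x') := by
  have u := nrm_of_close ha (lt_of_cube k (by norm_num))
  have x0 : x' ≠ 0 := fun e => by simp [e] at u
  rw [Cl, show x / x' - 1 = x'⁻¹ * ((x - a) + -(x' - a)) by field_simp; ring]
  exact cube_mul (by rw [map_inv₀, u, inv_one]) (cube_add h (by rwa [Valuation.map_neg]))

theorem Nz.mul (h : Nz F) (k : Nz F') : Nz fun i => F i * F' i := by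
  rw [Nz, mul_div_mul_comm, mul_pow]
  exact Cl.mul h k

theorem nz_const (h : x ≠ 0) : Nz fun _ => x := by simp [Nz, Cl, h]

theorem nz_close {a : Qb} (ha : nrm 2 a = 1) (h : ∀ i, nrm 2 (F i - a) ^ 3 ≤ 4⁻¹) : Nz F :=
  (cl_div ha (h 0) (h 1)).cube

theorem not_nz (h : nrm 2 (F 0 - F 1) ^ 3 = 2⁻¹) (k : nrm 2 (F 1) = 1) : ¬ Nz F := fun e => by
  have x0 : F 1 ≠ 0 := fun e => by simp [e] at k
  have h1 : nrm 2 (F 0 / F 1 - 1) ^ 3 = 2⁻¹ := by
    rw [div_sub_one x0, map_div₀, k, div_one, h]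
  rw [Nz, Cl] at e
  generalize F 0 / F 1 = r at e h1
  have h2 : nrm 2 (r - 1) < 1 := lt_of_cube h1.le (by norm_num)
  have h3 : nrm 2 (r ^ 2 + r + 1) = 1 := by
    refine nrm_of_close (a := (3 : ℤ)) (n_odd (by decide)) ?_
    rw [show r ^ 2 + r + 1 - (3 : ℤ) = (r - 1) * ((r - 1) + (3 : ℤ)) by push_cast; ring, map_mul]
    exact mul_lt_one_of_nonneg_of_lt_one_left zero_le h2
      ((nrm 2).map_add_le h2.le (nrm_int_le _))
  rw [show r ^ 3 - 1 = (r - 1) * (r ^ 2 + r + 1) by ring, map_mul, h3, mul_one, h1] at e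
  exact absurd e (not_le.2 (by rw [← NNReal.coe_lt_coe]; norm_num))

/-- Roots of Eisenstein cubics. -/
theorem eis {a b c : ℤ} (hc : Odd c)
    (h : x ^ 3 + (2 * a : ℤ) * x ^ 2 + (2 * b : ℤ) * x + (2 * c : ℤ) = 0) :
    nrm 2 x ^ 3 = 2⁻¹ := by
  have h1 : nrm 2 x ≤ 1 := (pl 2).V_le_one_of_isIntegral (sa1_int h)
  have h2 : x ^ 3 = -(2 * (x * (a * x + b) + c)) := by
    push_cast at h
    linear_combination h
  have h3 : nrm 2 (a * x + b) ≤ 1 := (nrm 2).map_add_le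
    (by rw [map_mul]; exact mul_le_one' (nrm_int_le _) h1) (nrm_int_le _)
  have h4 : nrm 2 x ^ 3 = 2⁻¹ * nrm 2 (x * (a * x + b) + c) := by
    rw [← map_pow, h2, Valuation.map_neg, map_mul, n2]
  have h5 : nrm 2 x < 1 := lt_of_cube (b := 2⁻¹) (by
    rw [h4]
    exact mul_le_of_le_one_right' ((nrm 2).map_add_le
      (by rw [map_mul]; exact mul_le_one' h1 h3) (nrm_int_le _))) (by norm_num)
  rw [h4, (nrm 2).map_add_eq_of_lt_right, n_odd hc, mul_one]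
  rw [n_odd hc, map_mul]
  exact mul_lt_one_of_nonneg_of_lt_one_left zero_le h5 h3

theorem Ok.half (h : Ok C) (i : Fin 3) : nrm 2 (C.e i / 2) ^ 3 = 2⁻¹ := by
  obtain ⟨a, b, c, ha, hb, hc, o⟩ := h.two
  refine eis (a := a) (b := 2 * b) o ?_
  have := C.root i
  rw [ha, hb, hc] at this
  push_cast at this ⊢
  linear_combination this / 8

theorem Ok.nrm_e (h : Ok C) (i : Fin 3) : nrm 2 (C.e i) ^ 3 = 16⁻¹ := by
  rw [show C.e i = 2 * (C.e i / 2) by ring, map_mul, mul_pow, h.half, n2]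
  norm_num

theorem two_zpow {a b : ℤ} (h : ((2 : ℝ≥0) ^ a)⁻¹ = ((2 : ℝ≥0) ^ b)⁻¹) : a = b :=
  zpow_right_injective₀ two_pos (by norm_num) (inv_injective h)

theorem fx2 (h : B2.Fx (Iv 2) x) (h0 : x ≠ 0) : ∃ k : ℤ, nrm 2 x = ((2 : ℝ≥0) ^ k)⁻¹ := by
  simpa using nrm_fx Nat.prime_two h h0

theorem Ok.not_fx (h : Ok C) (i : Fin 3) : ¬ B2.Fx (Iv 2) (C.e i) := fun k => by
  have h1 := h.nrm_e i
  obtain ⟨n, hn⟩ := fx2 k fun e => by simp [e] at h1
  rw [hn, inv_pow, ← zpow_natCast, ← zpow_mul, show (16 : ℝ≥0) = 2 ^ (4 : ℤ) by norm_num] at h1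
  have := two_zpow h1
  omega

/-- The inertia group acts on the roots by rotations. -/
theorem Ok.rot (h : Ok C) (hg : g ∈ Iv 2) (i : Fin 3) : C.pm g (i + 1) = C.pm g i + 1 := by
  obtain ⟨a, b, c, ha, hb, hc, k, rfl⟩ := h.two
  have h1 : C.del / 16 * (C.del / 16) = ((4 * (4 * a ^ 2 * b ^ 2 - 16 * b ^ 3 -
      4 * a ^ 3 * (2 * k + 1) + 18 * a * b * (2 * k + 1) - 27 * (k ^ 2 + k) - 7) + 1 : ℤ) : Qb) := by
    have := C.del_sq
    rw [Cv.disc, dsc, ha, hb, hc] at this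
    push_cast at this ⊢
    linear_combination this / 256
  have h2 := chB_spec h1 (map_intCast g _)
  have h3 := C.act_del g
  rw [show chB _ g = 0 from B2.xi_eq_zero.2
    (B2.chi_ine_two (pl_p Nat.prime_two) (by omega) hg), sn_zero, Int.cast_one, one_mul, map_div₀,
    map_ofNat, div_left_inj' (by norm_num)] at h2
  have h4 : chi C.disc g ≠ 1 := fun e => C.del_ne (by
    rw [h2, e, sn_one] at h3
    push_cast at h3
    linear_combination h3 / 2)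
  have e : ∀ f : Fin 3 → Fin 3, Injective f → (¬ ∃ t, ∀ i, f i = i ↔ i = t) →
      ∀ i, f (i + 1) = f i + 1 := by decide
  exact e _ (C.pm_inj g) (fun k => h4 ((C.chi_disc g).2 k)) i

theorem Ok.trans (h : Ok C) (i j : Fin 3) : ∃ g ∈ Iv 2, C.pm g i = j := by
  obtain ⟨g, hg⟩ := not_forall.1 (h.not_fx i)
  obtain ⟨hg, k⟩ := Classical.not_imp.1 hg
  have k1 : C.pm g i ≠ i := fun e => k (by rw [C.e_pm, e])
  have e : ∀ (f : Fin 3 → Fin 3) (i j : Fin 3), (∀ i, f (i + 1) = f i + 1) → f i ≠ i →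
      i = j ∨ f i = j ∨ f (f i) = j := by decide
  rcases e _ i j (h.rot hg) k1 with a | a | a
  · exact ⟨1, one_mem _, (C.pm_one i).trans a⟩
  · exact ⟨g, hg, a⟩
  · exact ⟨g * g, mul_mem hg hg, (C.pm_mul g g i).trans a⟩

theorem Ok.nrm_eq (h : Ok C) (k : Eq3 C (Iv 2) F) (i j : Fin 3) : nrm 2 (F i) = nrm 2 (F j) := by
  obtain ⟨g, hg, rfl⟩ := h.trans i j
  rw [← k g hg]
  exact (B2.mem_Dec.1 hg.1 _).symm

theorem Ok.nrm_cube (h : Ok C) (k : Eq3 C (Iv 2) F) (i : Fin 3) :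
    nrm 2 (F i) ^ 3 = nrm 2 (F 0 * F 1 * F 2) := by
  rw [map_mul, map_mul, h.nrm_eq k 0 i, h.nrm_eq k 1 i, h.nrm_eq k 2 i, pow_three']

theorem Ok.small (h : Ok C) (k : Eq3 C (Iv 2) F) (h1 : nrm 2 (F 0) < 1) :
    nrm 2 (F 0) ^ 3 ≤ 2⁻¹ := by
  have h2 := h.nrm_cube k 0
  by_cases e : F 0 * F 1 * F 2 = 0
  · rw [h2, e, map_zero]
    exact zero_le
  obtain ⟨n, hn⟩ := fx2 k.fx_prod e
  have h3 : nrm 2 (F 0) ^ 3 < 1 := pow_lt_one₀ zero_le h1 three_ne_zero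
  rw [h2, hn] at h3 ⊢
  rw [inv_lt_one₀ (by positivity), one_lt_zpow_iff_right₀ one_lt_two] at h3
  refine inv_anti₀ two_pos ?_
  simpa using zpow_le_zpow_right₀ (one_le_two (α := ℝ≥0)) (show (1 : ℤ) ≤ n from h3)

theorem Ok.nz_sq (h : Ok C) (k : Eq3 C (Iv 2) y) (h0 : ∀ i, y i ≠ 0) : Nz fun i => y i ^ 2 := by
  have n0 : y 0 * y 1 * y 2 ≠ 0 := mul_ne_zero (mul_ne_zero (h0 0) (h0 1)) (h0 2)
  obtain ⟨u, hu⟩ : ∃ u : Fin 3 → Qb, u = fun i => y i ^ 3 / (y 0 * y 1 * y 2) := ⟨_, rfl⟩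
  have u1 : Eq3 C (Iv 2) u := hu ▸ (k.pow 3).div (eq3_const k.fx_prod)
  have u2 : nrm 2 (u 1) = 1 := by
    rw [hu, map_div₀, map_pow, h.nrm_cube k, div_self ((Valuation.ne_zero_iff _).2 n0)]
  have u3 : nrm 2 (u 0 - u 1) < 1 := by
    obtain ⟨g, hg, e⟩ := h.trans 1 0
    rw [← e, ← u1 g hg]
    exact hg.2 _ u2.le
  have u4 := h.small (F := fun i => u i - u (i + 1))
    (fun g hg i => by rw [map_sub, u1 g hg, u1 g hg, h.rot hg]) u3
  have u0 : u 1 ≠ 0 := fun e => by simp [e] at u2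
  have u5 : nrm 2 (u 0 / u 1 - 1) ^ 3 ≤ 2⁻¹ := by
    rw [div_sub_one u0, map_div₀, u2, div_one]
    exact u4
  have u6 : (y 0 ^ 2 / y 1 ^ 2) ^ 3 - 1 = (u 0 / u 1 - 1) * ((u 0 / u 1 - 1) + 2) := by
    have := h0 0
    have := h0 1
    have := h0 2
    rw [hu]
    field_simp
    ring
  rw [Nz, Cl, u6, map_mul, mul_pow, show (4⁻¹ : ℝ≥0) = 2⁻¹ * 2⁻¹ by norm_num]
  exact mul_le_mul' u5 (cube_add u5 (by rw [n2, ← NNReal.coe_le_coe]; norm_num))

theorem Ok.nz_e (h : Ok C) : Nz C.e := by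
  obtain ⟨a, b, c, ha, hb, hc, o⟩ := h.two
  have k : ∀ i, nrm 2 (-(C.e i ^ 3 / 16) - c) ^ 3 ≤ 4⁻¹ := fun i => by
    have h1 := C.root i
    rw [ha, hb, hc] at h1
    push_cast at h1
    rw [show -(C.e i ^ 3 / 16) - c = a * (C.e i / 2) ^ 2 + b * C.e i by
      linear_combination -h1 / 16]
    refine cube_add (cube_mul (nrm_int_le _) ?_) (cube_mul (nrm_int_le _) ?_)
    · rw [map_pow, ← pow_mul, mul_comm, pow_mul, h.half]
      norm_num
    · rw [h.nrm_e, ← NNReal.coe_le_coe]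
      norm_num
  have := cl_div (n_odd o) (k 0) (k 1)
  rwa [neg_div_neg_eq, div_div_div_cancel_right₀ (by norm_num), ← div_pow] at this

theorem Ok.nz_pt (h : Ok C) (hD : Odd D) {X Z : Qb} (hX : B2.Fx (Iv 2) X) (hZ : B2.Fx (Iv 2) Z)
    (e : Z ^ 2 = D * ((X - C.e 0) * (X - C.e 1) * (X - C.e 2))) : Nz fun i => X - C.e i := by
  have e0 : ∀ i, C.e i ≠ 0 := fun i k => by
    have := h.nrm_e i
    rw [k, map_zero] at this
    norm_num at this
  have small : nrm 2 X ≤ 4⁻¹ → Nz fun i => X - C.e i := fun k => by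
    have h1 : Nz fun i => X / C.e i - 1 := nz_close (a := -1) (by simp) fun i => by
      rw [sub_neg_eq_add, sub_add_cancel, map_div₀, div_pow, h.nrm_e, div_le_iff₀ (by norm_num)]
      exact (pow_le_pow_left₀ zero_le k 3).trans (by norm_num)
    have := h.nz_e.mul h1
    simpa only [mul_sub, mul_div_cancel₀ _ (e0 _), mul_one] using this
  by_cases X0 : X = 0
  · exact small (by simp [X0])
  obtain ⟨m, hm⟩ := fx2 hX X0
  rcases lt_trichotomy m 1 with k | rfl | k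
  · have h1 : 1 ≤ nrm 2 X := by
      rw [hm, one_le_inv₀ (by positivity)]
      exact zpow_le_one_of_nonpos₀ one_le_two (by omega)
    have h2 : Nz fun i => 1 - C.e i / X := nz_close (a := 1) (map_one _) fun i => by
      rw [sub_sub_cancel_left, Valuation.map_neg, div_eq_inv_mul]
      refine cube_mul (by rw [map_inv₀]; exact inv_le_one_of_one_le₀ h1) ?_
      rw [h.nrm_e, ← NNReal.coe_le_coe]
      norm_num
    have := (nz_const X0).mul h2
    simpa only [mul_sub, mul_div_cancel₀ _ X0, mul_one] using this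
  · exfalso
    rw [zpow_one] at hm
    have h1 : ∀ i, nrm 2 (X - C.e i) = 2⁻¹ := fun i => by
      rw [(nrm 2).map_sub_eq_of_lt_left, hm]
      refine lt_of_pow_lt_pow_left₀ 3 zero_le ?_
      rw [h.nrm_e, hm]
      norm_num
    have h2 : nrm 2 Z ^ 2 = ((2 : ℝ≥0) ^ (3 : ℤ))⁻¹ := by
      rw [← map_pow, e, map_mul, map_mul, map_mul, h1, h1, h1, n_odd hD]
      norm_num
    obtain ⟨n, hn⟩ := fx2 hZ fun k => by
      rw [k, map_zero] at h2
      norm_num at h2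
    rw [hn, inv_pow, ← zpow_natCast, ← zpow_mul] at h2
    have := two_zpow h2
    omega
  · refine small ?_
    rw [hm]
    refine inv_anti₀ (by norm_num) ?_
    have := zpow_le_zpow_right₀ (one_le_two (α := ℝ≥0)) (show (2 : ℤ) ≤ m from k)
    norm_num at this ⊢
    exact this

/-- The local condition at two gives the normalisation. -/
theorem Ok.nz (h : Ok C) (hD : Odd D) (h0 : ∀ i, F i ≠ 0) (k : Ku C (Gv 2) D F) : Nz F := by
  have le := Iv_le Nat.prime_two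
  obtain ⟨y, hy, k | ⟨X, Z, hX, hZ, e, k⟩⟩ := k
  · rw [funext k]
    exact h.nz_sq (hy.mono le) fun i e => h0 i (by rw [k, e]; simp)
  · have k' : ∀ i, F i = y i ^ 2 * (D * (X - C.e i)) := fun i =>
      k i fun e => h.not_fx i (e ▸ fun g hg => hX g (le hg))
    rw [funext k']
    refine (h.nz_sq (hy.mono le) fun i e => h0 i (by rw [k', e]; simp)).mul ((nz_const ?_).mul
      (h.nz_pt hD (fun g hg => hX g (le hg)) (fun g hg => hZ g (le hg)) e))
    rintro e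
    obtain rfl : D = 0 := by exact_mod_cast e
    exact absurd hD (by decide)

theorem Ok.ev_two (h : Ok C) (k : Eq3 C ⊤ F) {q : Qb} (hq : B2.Fx ⊤ q) (q0 : q ≠ 0)
    (e : F 0 * F 1 * F 2 = q ^ 2) : Ev C 2 F := fun i => by
  obtain ⟨n, hn⟩ := fx2 (fun g _ => hq g trivial) q0
  refine ⟨(C.e i / 2) ^ n, fun g hg => by rw [map_zpow₀, map_div₀, C.e_pm, hg, map_ofNat], ?_⟩
  refine (pow_left_inj₀ zero_le zero_le three_ne_zero).1 ?_
  rw [h.nrm_cube (k.mono le_top), e, map_pow, hn, ← pow_mul, mul_comm, pow_mul, map_zpow₀,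
    ← zpow_natCast (_ ^ n), ← zpow_mul, mul_comm, zpow_mul, zpow_natCast, h.half, inv_zpow]

end Pool.Agent.B6.S.SPN
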