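import Pool.Agent.Lib.MP_696deb_nt.SPN.LG

/-! The two-descent for twists by a prime. -/

set_option autoImplicit false

open scoped Classical NNReal NumberTheorySymbols
open Finset Function

namespace Pool.Agent.B6.S.SPN

open Pool.Agent.Lib.MP_696deb_nt Pool.Agent.Lib.MP_696deb_nt.Sm

/-- The cubic `t ^ 3 + 2 p t ^ 2 + 2 q t + 2`. -/
def gv (p q : ℤ) {R : Type} [CommRing R] (r : R) : R := r ^ 3 + 2 * p * r ^ 2 + 2 * q * r + 2

/-- The norm of `m 0 + m 1 t + m 2 t ^ 2`. -/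
def nm (p q : ℤ) (m : Fin 3 → ℤ) : ℤ :=
  m 0 ^ 3 - 2 * p * m 0 ^ 2 * m 1 + 2 * q * m 0 * m 1 ^ 2 - 2 * m 1 ^ 3 +
    (4 * p ^ 2 - 4 * q) * m 0 ^ 2 * m 2 + (6 - 4 * p * q) * m 0 * m 1 * m 2 +
    4 * p * m 1 ^ 2 * m 2 + (4 * q ^ 2 - 8 * p) * m 0 * m 2 ^ 2 - 4 * q * m 1 * m 2 ^ 2 +
    4 * m 2 ^ 3

variable {C : Cv} {p q s D : ℤ} {t w : Fin 3 → Qb} {c : GQ → C.A} {l v : ℕ} {m E : Fin 3 → ℤ}
  {i j : Fin 3}

theorem Tf.prod_ev (h : Tf C p q s t) (m : Fin 3 → ℤ) :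
    ev (t 0) m * ev (t 1) m * ev (t 2) m = (nm p q m : ℤ) := by
  have h1 : (p : Qb) = -(t 0 + t 1 + t 2) / 2 := by linear_combination h.s1 / 2
  have h2 : (q : Qb) = (t 0 * t 1 + t 0 * t 2 + t 1 * t 2) / 2 := by linear_combination -h.s2 / 2
  simp only [Cv.ev3, nm]
  push_cast
  rw [h1, h2]
  linear_combination ((m 1 : Qb) ^ 3 - 3 * m 0 * m 1 * m 2 + (t 0 + t 1 + t 2) * m 1 ^ 2 * m 2 -
    2 * (t 0 + t 1 + t 2) * m 0 * m 2 ^ 2 + (t 0 * t 1 + t 0 * t 2 + t 1 * t 2) * m 1 * m 2 ^ 2 +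
    (t 0 * t 1 * t 2 - 2) * m 2 ^ 3) * h.s3

theorem Tf.eq3_ev (h : Tf C p q s t) (m : Fin 3 → ℤ) : Eq3 C ⊤ fun i => ev (t i) m :=
  fun g hg i => by simp [Cv.ev3, h.eq3 g hg]

theorem Tf.nrm_le (h : Tf C p q s t) (v : ℕ) (i : Fin 3) : nrm v (t i) ≤ 1 :=
  (pl v).V_le_one_of_isIntegral (h.int i)

theorem Tf.int_ev (h : Tf C p q s t) (m : Fin 3 → ℤ) (i : Fin 3) : IsIntegral ℤ (ev (t i) m) :=
  IsIntegral.sum _ fun _ _ => (isIntegral_intCast _).mul ((h.int i).pow _)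

theorem Tf.ev_unit (h : Tf C p q s t) (k : nrm v (nm p q m : ℤ) = 1) (i : Fin 3) :
    nrm v (ev (t i) m) = 1 := by
  have h1 := fun i => sk1b_ev_le (h.nrm_le v i) m
  rw [← h.prod_ev, prod_rot (fun i => ev (t i) m) i, mul_assoc, map_mul, map_mul] at k
  exact (Cv.sa2_one (h1 i) (mul_le_one' (h1 _) (h1 _)) k).1

theorem Tf.nz_ev (h : Tf C p q s t) (k : Odd (nm p q m)) (e : Even (m 1)) :
    Nz fun i => ev (t i) m := by
  have h1 : ∀ i, nrm 2 (ev (t i) m - m 0) ^ 3 ≤ 4⁻¹ := fun i => by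
    obtain ⟨a, ha⟩ := e
    have h2 := eis odd_one (h.root' i)
    rw [Cv.ev3, ha, show (m 0 : Qb) + (a + a : ℤ) * t i + m 2 * t i ^ 2 - m 0 =
      a * t i * 2 + m 2 * t i ^ 2 by push_cast; ring]
    refine cube_add (cube_mul ?_ ?_) (cube_mul (nrm_int_le _) ?_)
    · rw [map_mul]
      exact mul_le_one' (nrm_int_le _) (h.nrm_le 2 i)
    · rw [n2, ← NNReal.coe_le_coe]
      norm_num
    · rw [map_pow, ← pow_mul, mul_comm, pow_mul, h2]
      norm_num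
  refine nz_close (nrm_of_close (h.ev_unit (n_odd k) 0) ?_) h1
  rw [Valuation.map_sub_swap]
  exact lt_of_cube (h1 0) (by norm_num)

/-- Elements of norm one with even middle coordinate are squares. -/
theorem Tf.sq_unit (h : Tf C p q s t) (ok : Ok C) (h4 : ∀ n : ℤ, n ^ 2 ∣ dg p q → n ∣ 2)
    (k : nm p q m = 1) (e : Even (m 1)) : ∃ m' : Fin 3 → ℤ, ∀ i, ev (t i) m = ev (t i) m' ^ 2 := by
  have u : ∀ v i, nrm v (ev (t i) m) = 1 := fun v => h.ev_unit (by simp [k])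
  obtain ⟨z, h1, h2⟩ := h.gl ok (h.eq3_ev m) (fun i a => by simpa [a] using u 2 i) (h.int_ev m 0)
    (r := 1) (fun g _ => map_one g) (by rw [h.prod_ev, k]; simp) (fun v _ => SPN.ev_unit (u v))
    (h.nz_ev (k ▸ odd_one) e)
  obtain ⟨m', hm⟩ := h.coord_int h4 h1.fx (.of_pow two_pos (h2 0 ▸ h.int_ev m 0))
  exact ⟨m', fun i => by rw [h2, h1.ext (h.eq3_ev m') hm]⟩

theorem d_ne (hl : C.Gp l) (hD : D.natAbs = l) : D ≠ 0 := fun e => hl.1.ne_zero (by simp [← hD, e])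

theorem d_ndvd (hl : C.Gp l) (hD : D.natAbs = l) (hv : v.Prime) (k : v ≠ l) : ¬ (v : ℤ) ∣ D :=
  fun e => k ((Nat.prime_dvd_prime_iff_eq hv hl.1).1 (hD ▸ Int.natCast_dvd.1 e))

theorem d_odd (hl : C.Gp l) (hD : D.natAbs = l) : Odd D :=
  Int.not_even_iff_odd.1 fun e =>
    d_ndvd hl hD Nat.prime_two hl.ne_two.symm (even_iff_two_dvd.1 e)

theorem d_nrm (hl : C.Gp l) (hD : D.natAbs = l) : nrm l D = (l : ℝ≥0)⁻¹ := by
  rcases Int.natAbs_eq D with e | e <;> rw [e, hD] <;> simp [nrm_p hl.1]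

theorem Kw.prod_sq (_ : Kw C c w) : w 0 ^ 2 * w 1 ^ 2 * w 2 ^ 2 = (w 0 * w 1 * w 2) ^ 2 := by ring

theorem ev_off (ok : Ok C) (hl : C.Gp l) (hD : D.natAbs = l) (hc : C.IsZ D ∅ 1 c) (hw : Kw C c w)
    (hv : v.Prime) (k : v ≠ l) : Ev C v fun i => w i ^ 2 := by
  by_cases h2 : v = 2
  · exact h2 ▸ ok.ev_two hw.eq3 hw.fx_prod
      (mul_ne_zero (mul_ne_zero (hw.ne 0) (hw.ne 1)) (hw.ne 2)) hw.prod_sq
  by_cases h3 : v ≤ C.N0
  · exact ok.ev_odd hv h2 (d_ndvd hl hD hv k) hw.eq3 (fun i => pow_ne_zero 2 (hw.ne i)) hw.fx_prod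
      hw.prod_sq (hw.ku (d_ne hl hD) (hc.loc v ⟨hv, .inl h3⟩ id))
  · intro i
    obtain ⟨n, h1, h4⟩ := hw.par ⟨hv, not_le.1 h3⟩ i
    rw [hc.unr v ⟨hv, not_le.1 h3⟩ (d_ndvd hl hD hv k), C.ep_zero_left] at h4
    exact ev_of_even hv h1 h4

theorem nz_w (ok : Ok C) (hl : C.Gp l) (hD : D.natAbs = l) (hc : C.IsZ D ∅ 1 c) (hw : Kw C c w) :
    Nz fun i => w i ^ 2 :=
  ok.nz (d_odd hl hD) (fun i => pow_ne_zero 2 (hw.ne i))
    (hw.ku (d_ne hl hD) (hc.loc 2 ⟨Nat.prime_two, .inl C.two_le_N0⟩ id))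

/-- A Selmer cocycle that is unramified at the prime of the twist vanishes. -/
theorem Tf.inj (h : Tf C p q s t) (ok : Ok C) (hl : C.Gp l) (hD : D.natAbs = l)
    (hc : C.IsZ D ∅ 1 c) (h0 : c (sig l) = 0) : c = 0 := by
  obtain ⟨w, hw, wi⟩ := kw_of hc.mem_U
  obtain ⟨u, h1, h2⟩ := h.gl ok hw.eq3 (fun i => pow_ne_zero 2 (hw.ne i)) ((wi 0).pow 2) hw.fx_prod
    hw.prod_sq (fun v hv => by
      by_cases k : v = l
      · intro i
        obtain ⟨n, h1, h4⟩ := hw.par hl i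
        rw [h0, C.ep_zero_left] at h4
        exact k ▸ ev_of_even hl.1 h1 h4
      · exact ev_off ok hl hD hc hw hv k) (nz_w ok hl hD hc hw)
  exact hw.eq_zero hc.nor h1 h2

theorem Tf.card (h : Tf C p q s t) (ok : Ok C) (hl : C.Gp l) (hD : D.natAbs = l)
    (k : ∀ c, C.IsZ D ∅ 1 c → c (sig l) ≠ C.T i) : (C.AA D 0).ncard < 4 := by
  rw [Cv.AA_zero]
  refine (Set.ncard_le_ncard_of_injOn (t := {0, C.T (i + 1), C.T (i + 2)}) (fun c => c (sig l))
    (fun c hc => ?_) (fun c hc c' hc' e => sub_eq_zero.1 (h.inj ok hl hD (Cv.IsZ.sub hc hc')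
      (sub_eq_zero.2 e))) (Set.toFinite _)).trans_lt ?_
  · rcases C.tors2 (Cv.IsZ.two_eq hc (sig l)) with e | ⟨j, e⟩
    · exact .inl e
    · have n : ∀ i j : Fin 3, j ≠ i → j = i + 1 ∨ j = i + 2 := by decide
      rcases n i j fun a => k c hc (a ▸ e) with rfl | rfl
      exacts [.inr (.inl e), .inr (.inr e)]
  · have h1 := Set.ncard_insert_le (0 : C.A) {C.T (i + 1), C.T (i + 2)}
    have h2 := Set.ncard_insert_le (C.T (i + 1)) {C.T (i + 2)}
    rw [Set.ncard_singleton] at h2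
    omega

theorem zp_inj (hl : l.Prime) {a b : ℤ} (h : ((l : ℝ≥0) ^ a)⁻¹ = ((l : ℝ≥0) ^ b)⁻¹) : a = b :=
  zpow_right_injective₀ (by exact_mod_cast hl.pos) (by exact_mod_cast hl.ne_one) (inv_injective h)

theorem Tf.close (h : Tf C p q s t) (he : ∀ i, C.e i = ev (t i) E) (hl : C.Gp l)
    (k : nrm l (t i - t j) < 1) : i = j := by
  by_contra n
  have := sk1b_ev (h.nrm_le l i) (h.nrm_le l j) k E
  rw [← he, ← he] at this
  exact this.ne (hl.nrm_sub n)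

theorem Tf.near (h : Tf C p q s t) (hl : l.Prime) {r : ℤ} (k : (l : ℤ) ∣ gv p q r) :
    ∃ i, nrm l (t i - r) < 1 := by
  by_contra n
  have h1 : ∀ i, nrm l (t i - r) = 1 := fun i =>
    ((nrm l).map_sub_le (h.nrm_le l i) (nrm_int_le _)).lt_or_eq.resolve_left fun a => n ⟨i, a⟩
  have h2 : ((gv p q r : ℤ) : Qb) = -((t 0 - r) * (t 1 - r) * (t 2 - r)) := by
    rw [gv]
    push_cast
    linear_combination (r : Qb) ^ 2 * h.s1 - r * h.s2 + h.s3
  have := (nrm_int_lt hl).2 k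
  rw [h2, Valuation.map_neg, map_mul, map_mul, h1, h1, h1] at this
  simp at this

/-- Primes that do not split completely. -/
theorem Tf.lk0 (h : Tf C p q s t) (ok : Ok C) (he : ∀ i, C.e i = ev (t i) E) (hl : C.Gp l)
    (hD : D.natAbs = l)
    (k : ∀ r r' : ℤ, (l : ℤ) ∣ gv p q r → (l : ℤ) ∣ gv p q r' → (l : ℤ) ∣ r - r') :
    (C.AA D 0).ncard < 4 := by
  by_cases a : ∀ i, C.pm (frb l) i = i
  · exfalso
    have h1 : ∀ i, ∃ r : ℤ, nrm l (t i - r) < 1 := fun i =>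
      frob_int (w := pl l) (φ := frb l) (by rw [pl_p hl.1]; exact (frb_spec hl.1 hl.ne_two).1)
        (h.int i) (by rw [h.eq3 _ trivial, a])
    choose r hr using h1
    have h2 : ∀ i, (l : ℤ) ∣ gv p q (r i) := fun i => (nrm_int_lt hl.1).1 (by
      have := sk1b_ev (h.nrm_le l i) (nrm_int_le (r i)) (hr i) ![2 * q, 2 * p, 1]
      rw [show ((gv p q (r i) : ℤ) : Qb) = -(r i * (ev (t i) ![2 * q, 2 * p, 1] -
        ev (r i : Qb) ![2 * q, 2 * p, 1]) + ev (t i) ![2 * q, 2 * p, 1] * (t i - r i)) by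
        simp only [Cv.ev3, gv, Matrix.cons_val]
        push_cast
        linear_combination h.root i, Valuation.map_neg]
      refine (nrm l).map_add_lt ?_ ?_ <;> rw [map_mul]
      · exact mul_lt_one_of_nonneg_of_lt_one_right (nrm_int_le _) zero_le this
      · exact mul_lt_one_of_nonneg_of_lt_one_right (sk1b_ev_le (h.nrm_le l i) _) zero_le (hr i))
    have h3 := (nrm_int_lt hl.1).2 (k _ _ (h2 0) (h2 1))
    refine absurd (h.close he hl (i := 0) (j := 1) ?_) (by decide)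
    rw [show t 0 - t 1 = (t 0 - r 0) + ((r 0 - r 1 : ℤ) : Qb) - (t 1 - r 1) by push_cast; ring]
    exact (nrm l).map_sub_lt ((nrm l).map_add_lt (hr 0) h3) (hr 1)
  obtain ⟨i, hi⟩ := not_forall.1 a
  refine h.card ok hl hD (i := i) fun c hc e => hi (C.T_inj ?_)
  have := Cv.Z2.sig_fix hl ((hc.z2 hc.two_eq).mono le_top) _ (frb_mem hl.1 hl.ne_two)
  rwa [e, C.act_T] at this

theorem Tf.nrm_pi (h : Tf C p q s t) (hl : C.Gp l) (hD : (nm p q m).natAbs = l)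
    (k : nrm l (ev (t i) m) < 1) :
    nrm l (ev (t i) m) = (l : ℝ≥0)⁻¹ ∧ ∀ j, j ≠ i → nrm l (ev (t j) m) = 1 := by
  have h1 := fun i => sk1b_ev_le (h.nrm_le l i) m
  have h2 := d_nrm hl hD
  have l1 : (1 : ℝ≥0) < l := by exact_mod_cast hl.1.one_lt
  rw [← h.prod_ev, prod_rot (fun i => ev (t i) m) i, mul_assoc, map_mul, map_mul] at h2
  obtain ⟨a, ha⟩ := nrm_fx hl.1 (x := ev (t i) m) (fun g hg => by
    rw [h.eq3_ev m g trivial, hl.pm_ine hg]) fun e => by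
      simp [e] at h2
      exact hl.1.ne_zero (by exact_mod_cast h2.symm)
  have h3 : nrm l (ev (t i) m) ≤ (l : ℝ≥0)⁻¹ := by
    rw [ha] at k ⊢
    rw [inv_lt_one₀ (by positivity), one_lt_zpow_iff_right₀ l1] at k
    refine inv_anti₀ (by positivity) ?_
    simpa using zpow_le_zpow_right₀ l1.le (show (1 : ℤ) ≤ a from k)
  have h4 := h3.antisymm (h2 ▸ mul_le_of_le_one_right' (mul_le_one' (h1 _) (h1 _)))
  rw [h4, mul_eq_left₀ (by positivity)] at h2
  obtain ⟨h5, h6⟩ := Cv.sa2_one (h1 _) (h1 _) h2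
  have n : ∀ i j : Fin 3, j ≠ i → j = i + 1 ∨ j = i + 2 := by decide
  exact ⟨h4, fun j hj => by rcases n i j hj with rfl | rfl <;> assumption⟩

/-- Primes that split completely and whose symbol is minus one. -/
theorem Tf.lk1 (h : Tf C p q s t) (ok : Ok C) (he : ∀ i, C.e i = ev (t i) E) (hl : C.Gp l)
    (hD : (nm p q m).natAbs = l) (e1 : Even (m 1)) {r r' : ℤ} (hr : (l : ℤ) ∣ gv p q r)
    (hr' : (l : ℤ) ∣ gv p q r') (hne : ¬ (l : ℤ) ∣ r - r') (hm : (l : ℤ) ∣ ev r m)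
    (hJ : J((ev r E - ev r' E) * ev r' m | l) = -1) : (C.AA (nm p q m) 0).ncard < 4 := by
  obtain ⟨i, hi⟩ := h.near hl.1 hr
  obtain ⟨j, hj⟩ := h.near hl.1 hr'
  have l0 : (l : ℝ≥0) ≠ 0 := by exact_mod_cast hl.1.ne_zero
  have ij : j ≠ i := fun e => hne ((nrm_int_lt hl.1).1 (by
    rw [show ((r - r' : ℤ) : Qb) = (t j - r') - (t i - r) by rw [e]; push_cast; ring]
    exact (nrm l).map_sub_lt hj hi))
  have cl : ∀ (i : Fin 3) (r : ℤ) (m : Fin 3 → ℤ), nrm l (t i - r) < 1 →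
      nrm l (ev (t i) m - (ev r m : ℤ)) < 1 := fun i r m k => by
    rw [sk1b_cast]
    exact sk1b_ev (h.nrm_le l i) (nrm_int_le r) k m
  have fx : ∀ g ∈ Gv l, ∀ k, C.pm g k = k := fun g hg => by
    have a : ∀ (i : Fin 3) (r : ℤ), nrm l (t i - r) < 1 → C.pm g i = i := fun i r k =>
      h.close he hl (by
        rw [← sub_sub_sub_cancel_right _ _ (r : Qb)]
        refine (nrm l).map_sub_lt ?_ k
        rwa [← h.eq3 g trivial, ← map_intCast g r, ← map_sub,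
          B2.mem_Dec.1 (Gv_prime hl.1 ▸ hg)])
    have b : ∀ (f : Fin 3 → Fin 3) (i j : Fin 3), Injective f → j ≠ i → f i = i → f j = j →
      ∀ k, f k = k := by decide
    exact b _ i j (C.pm_inj g) ij (a i r hi) (a j r' hj)
  obtain ⟨p1, p2⟩ := h.nrm_pi hl hD (i := i) (by
    rw [← sub_add_cancel (ev (t i) m) (ev r m : ℤ)]
    exact (nrm l).map_add_lt (cl i r m hi) ((nrm_int_lt hl.1).2 hm))
  have p0 : ∀ k, ev (t k) m ≠ 0 := fun k a => by
    by_cases b : k = i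
    · rw [← b, a, map_zero] at p1
      exact inv_ne_zero l0 p1.symm
    · simpa [a] using p2 k b
  have D0 : ((nm p q m : ℤ) : Qb) ≠ 0 := Int.cast_ne_zero.2 (d_ne hl hD)
  have D1 := d_nrm hl hD
  refine h.card ok hl hD (i := i) fun c hc hT => ?_
  obtain ⟨w, hw, wi⟩ := kw_of hc.mem_U
  obtain ⟨u, u1, u2⟩ := h.gl ok (F := fun k => w k ^ 2 * ((nm p q m : ℤ) * ev (t k) m))
    (hw.eq3.mul ((eq3_const (fx_int _ _)).mul (h.eq3_ev m)))
    (fun k => mul_ne_zero (pow_ne_zero 2 (hw.ne k)) (mul_ne_zero D0 (p0 k)))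
    (((wi 0).pow 2).mul ((isIntegral_intCast _).mul (h.int_ev m 0)))
    (r := w 0 * w 1 * w 2 * ((nm p q m ^ 2 : ℤ) : Qb)) (fx_mul hw.fx_prod (fx_int _ _))
    (by
      push_cast
      linear_combination (w 0 * w 1 * w 2) ^ 2 * ((nm p q m : ℤ) : Qb) ^ 3 * h.prod_ev m)
    (fun v hv => by
      by_cases k : v = l
      · intro k'
        obtain ⟨n, h1, h4⟩ := hw.par hl k'
        rw [hT, C.ep_T] at h4
        subst k
        split_ifs at h4 with a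
        · refine ev_of_even hv (k := n + 1 + 1) ?_ (by
            push_cast
            rw [h4]
            rfl)
          rw [map_mul, map_mul, h1, D1, ← a, p1, zpow_add_one₀ l0, zpow_add_one₀ l0, mul_inv, mul_inv,
            mul_assoc]
        · refine ev_of_even hv (k := n + 1) ?_ (by
            push_cast
            rw [h4]
            rfl)
          rw [map_mul, map_mul, h1, D1, p2 k' (Ne.symm a), zpow_add_one₀ l0, mul_inv, mul_one]
      · have a := (nrm_int_eq_one hv).2 (d_ndvd hl hD hv k)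
        exact (ev_off ok hl hD hc hw hv k).mul (SPN.ev_unit fun i => by
          rw [map_mul, a, h.ev_unit a, one_mul]))
    ((nz_w ok hl hD hc hw).mul ((nz_const D0).mul (h.nz_ev (d_odd hl hD) e1)))
  obtain ⟨y, y1, y2⟩ := hw.ku (d_ne hl hD) (hc.loc l ⟨hl.1, .inr (hD ▸ Int.natAbs_dvd.2 dvd_rfl)⟩ id)
  have fz : ∀ k, B2.Fx (Gv l) (u k / y k) := fun k g hg => by
    rw [map_div₀, u1 g trivial, y1 g hg, fx g hg]
  have vz : ∀ z : Qb, B2.Fx (Gv l) z → z ^ 2 ≠ 0 → ∃ a : ℤ, nrm l (z ^ 2) = ((l : ℝ≥0) ^ (a * 2))⁻¹ :=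
    fun z hz z0 => by
      obtain ⟨a, ha⟩ := nrm_fx hl.1 (fun g hg => hz g (Iv_le hl.1 hg)) fun e => z0 (by simp [e])
      exact ⟨a, by rw [map_pow, ha, inv_pow, ← zpow_natCast, ← zpow_mul]; rfl⟩
  rcases y2 with y2 | ⟨X, Z, hX, -, -, y2⟩ <;> beta_reduce at y2
  · have y0 : y j ≠ 0 := fun a => hw.ne j (by simpa [a] using y2 j)
    have a : (u j / y j) ^ 2 = (nm p q m : ℤ) * ev (t j) m := by
      rw [div_pow, ← u2, ← y2, mul_div_cancel_left₀ _ (pow_ne_zero 2 (hw.ne j))]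
    obtain ⟨n, hn⟩ := vz _ (fz j) (a ▸ mul_ne_zero D0 (p0 j))
    rw [a, map_mul, D1, p2 j ij, mul_one, ← zpow_one (l : ℝ≥0), ← zpow_mul, one_mul] at hn
    have := zp_inj hl.1 hn
    omega
  have key : ∀ k, X ≠ C.e k → (u k / y k / (nm p q m : ℤ)) ^ 2 = (X - C.e k) * ev (t k) m :=
    fun k a => by
      have y0 : y k ≠ 0 := fun b => hw.ne k (by simpa [b] using y2 k a)
      rw [div_pow, div_pow, ← u2, y2 k a]
      field_simp
  have fz' : ∀ k, B2.Fx (Gv l) (u k / y k / (nm p q m : ℤ)) := fun k => fx_div (fz k) (fx_int _ _)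
  have ex : X - C.e j = (X - C.e i) + (C.e i - C.e j) := by ring
  have eu := hl.nrm_sub ij.symm
  have x1 : nrm l (X - C.e i) < 1 := by
    by_cases a : X = C.e i
    · simp [a]
    obtain ⟨n, hn⟩ := vz _ (fz' i) (key i a ▸ mul_ne_zero (sub_ne_zero.2 a) (p0 i))
    rw [key i a, map_mul, p1, mul_inv_eq_iff_eq_mul₀ l0, ← div_eq_inv_mul, ← inv_div,
      div_eq_mul_inv, ← zpow_sub_one₀ l0] at hn
    rcases lt_trichotomy (nrm l (X - C.e i)) 1 with b | b | b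
    · exact b
    · rw [b, ← inv_one, ← zpow_zero (l : ℝ≥0)] at hn
      have := zp_inj hl.1 hn
      omega
    · have b1 : nrm l (X - C.e j) = nrm l (X - C.e i) := by
        rw [ex, (nrm l).map_add_eq_of_lt_left (by rwa [eu])]
      have b2 : X ≠ C.e j := fun e => by
        rw [← b1, e] at b
        simp at b
      obtain ⟨n', hn'⟩ := vz _ (fz' j) (key j b2 ▸ mul_ne_zero (sub_ne_zero.2 b2) (p0 j))
      rw [key j b2, map_mul, p2 j ij, mul_one, b1, hn] at hn'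
      have := zp_inj hl.1 hn'
      omega
  have x2 : nrm l (X - C.e j) = 1 := by
    rw [ex, (nrm l).map_add_eq_of_lt_right (by rwa [eu]), eu]
  have x3 : X ≠ C.e j := fun e => by simp [e] at x2
  have := sk1b_euler (w := pl l) (g := frb l) (by rw [pl_p hl.1]; exact hl.ne_two)
    (by rw [pl_p hl.1]; exact (frb_spec hl.1 hl.ne_two).1) (b := 0)
    (m := (ev r E - ev r' E) * ev r' m) (x := u j / y j / (nm p q m : ℤ))
    (by rw [key j x3, map_mul, x2, p2 j ij, one_mul]) (by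
      rw [key j x3, show (X - C.e j) * ev (t j) m - (((ev r E - ev r' E) * ev r' m : ℤ) : Qb) =
        ((X - C.e i) + (ev (t i) E - (ev r E : ℤ)) - (ev (t j) E - (ev r' E : ℤ))) * ev (t j) m +
        (ev r E - ev r' E : ℤ) * (ev (t j) m - (ev r' m : ℤ)) by rw [← he, ← he]; push_cast; ring]
      refine (nrm l).map_add_lt ?_ ?_ <;> rw [map_mul]
      · rw [p2 j ij, mul_one]
        exact (nrm l).map_sub_lt ((nrm l).map_add_lt x1 (cl i r E hi)) (cl j r' E hj)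
      · exact mul_lt_one_of_nonneg_of_lt_one_right (nrm_int_le _) zero_le (cl j r' m hj))
    (by rw [fz' j _ (frb_mem hl.1 hl.ne_two), sn_zero, Int.cast_one, one_mul])
  rw [pl_p hl.1, hJ, sn_zero] at this
  omega

end Pool.Agent.B6.S.SPN
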